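import Mathlib

set_option autoImplicit false

/-!
GBU, block H: a finite abelian group with an involution `F` such that every fixed element is a norm
`y + F y`: every element of norm zero is of the form `F y - y` (counting).
-/

namespace Pool.Agent.GBUH

theorem absC {A : Type*} [AddCommGroup A] [Finite A] (F : A →+ A) (hF : ∀ x, F (F x) = x)
    (hs : ∀ x, F x = x → ∃ y, x = y + F y) (x : A) (hx : x + F x = 0) : ∃ y, x = F y - y := by
  classical
  let N : A →+ A := AddMonoidHom.id A + F
  let T : A →+ A := F - AddMonoidHom.id A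
  have hN : ∀ y, N y = y + F y := fun _ => rfl
  have hT : ∀ y, T y = F y - y := fun _ => rfl
  have h1 : N.range = T.ker := by
    ext y
    rw [AddMonoidHom.mem_range, AddMonoidHom.mem_ker, hT, sub_eq_zero]
    constructor
    · rintro ⟨z, rfl⟩
      rw [hN, map_add, hF, add_comm]
    · intro h
      obtain ⟨z, hz⟩ := hs y h
      exact ⟨z, hz.symm⟩
  have h2 : T.range ≤ N.ker := by
    rintro _ ⟨z, rfl⟩
    rw [AddMonoidHom.mem_ker, hN, hT, map_sub, hF]
    abel
  have c1 : Nat.card N.ker * Nat.card N.range = Nat.card A := by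
    rw [← AddSubgroup.index_ker, mul_comm]
    exact N.ker.index_mul_card
  have c2 : Nat.card T.ker * Nat.card T.range = Nat.card A := by
    rw [← AddSubgroup.index_ker, mul_comm]
    exact T.ker.index_mul_card
  have c3 : Nat.card T.range = Nat.card N.ker := by
    rw [h1, ← c2, mul_comm] at c1
    have : 0 < Nat.card T.ker := Nat.card_pos
    exact (Nat.eq_of_mul_eq_mul_left this c1).symm
  have h3 : T.range = N.ker := AddSubgroup.eq_of_le_of_card_ge h2 c3.ge
  have h4 : x ∈ N.ker := hx
  rw [← h3] at h4
  obtain ⟨y, hy⟩ := h4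
  exact ⟨y, hy.symm⟩

end Pool.Agent.GBUH
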