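import Mathlib

set_option autoImplicit false

/-!
GBU, block H (Hasse principle over a global function field), abstract part: a statement on divisors
which replaces Lang's theorem. `O` = the closed points, `d` = degrees, `P` = the principal divisors.
If for large degree the number of effective divisors in a class depends only on the degree, then
every divisor of degree zero is the sum of a principal divisor and of a divisor which is even at
the points of odd degree.

Proof: otherwise there is a sign character `χ` of the divisors, trivial on the principal divisors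
and on the divisors even at the points of odd degree, with `χ D₀ = -1` for a `D₀` of degree zero.
`a_j = ∑ χ(E)` over the effective divisors of degree `j` vanishes for large `j`, but
`∑_(i + j = N) (-1)^j a_i a_j = ∑_E χ(E) λ(E)`, where `λ(E) = ∑_(E' ≤ E) (-1)^(deg E')` is `≥ 0`,
and `0` unless `E` is even at the points of odd degree; for `E = 2 m o` it is positive.
-/

namespace Pool.Agent.GBUH

variable {O : Type}

/-- The degree of a divisor. -/
noncomputable def dg (d : O → ℕ) (D : O →₀ ℤ) : ℤ := D.sum fun o n => n * d o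

/-- The degree of an effective divisor. -/
noncomputable def dgn (d : O → ℕ) (E : O →₀ ℕ) : ℕ := E.sum fun o n => n * d o

/-- An effective divisor as a divisor. -/
noncomputable def toZ (E : O →₀ ℕ) : O →₀ ℤ := E.mapRange (fun n : ℕ => (n : ℤ)) rfl

@[simp] theorem toZ_apply (E : O →₀ ℕ) (o : O) : toZ E o = E o := rfl

theorem toZ_add (E E' : O →₀ ℕ) : toZ (E + E') = toZ E + toZ E' := by
  ext o
  simp [toZ]

theorem dg_add (d : O → ℕ) (D D' : O →₀ ℤ) : dg d (D + D') = dg d D + dg d D' := by
  unfold dg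
  rw [Finsupp.sum_add_index']
  · intro o; rw [zero_mul]
  · intro o a b; rw [add_mul]

theorem dg_sub (d : O → ℕ) (D D' : O →₀ ℤ) : dg d (D - D') = dg d D - dg d D' := by
  have h := dg_add d (D - D') D'
  rw [sub_add_cancel] at h
  rw [h, add_sub_cancel_right]

theorem dgn_add (d : O → ℕ) (D D' : O →₀ ℕ) : dgn d (D + D') = dgn d D + dgn d D' := by
  unfold dgn
  rw [Finsupp.sum_add_index']
  · intro o; rw [zero_mul]
  · intro o a b; rw [add_mul]

theorem dg_toZ (d : O → ℕ) (E : O →₀ ℕ) : dg d (toZ E) = dgn d E := by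
  unfold dg dgn toZ
  rw [Finsupp.sum_mapRange_index]
  · rw [Finsupp.sum, Finsupp.sum, Nat.cast_sum]
    refine Finset.sum_congr rfl fun o _ => ?_
    push_cast
    ring
  · intro o; rw [zero_mul]

theorem finite_eff (d : O → ℕ) (hd : ∀ o, 0 < d o) (hfin : ∀ n, {o | d o ≤ n}.Finite) (n : ℕ) :
    {E : O →₀ ℕ | dgn d E = n}.Finite := by
  classical
  have hsub : {E : O →₀ ℕ | dgn d E = n} ⊆
      ((hfin n).toFinset.finsupp (fun _ => Finset.range (n + 1)) : Set (O →₀ ℕ)) := by
    intro E hE
    have hle : ∀ o, E o * d o ≤ n := by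
      intro o
      by_cases ho : o ∈ E.support
      · rw [← (hE : dgn d E = n)]
        unfold dgn Finsupp.sum
        exact Finset.single_le_sum (f := fun o => E o * d o) (fun _ _ => Nat.zero_le _) ho
      · rw [Finsupp.notMem_support_iff] at ho
        rw [ho, zero_mul]
        exact Nat.zero_le _
    rw [Finset.mem_coe, Finset.mem_finsupp_iff]
    refine ⟨fun o ho => ?_, fun o _ => ?_⟩
    · rw [Set.Finite.mem_toFinset]
      have h1 : 1 ≤ E o := Nat.one_le_iff_ne_zero.2 (Finsupp.mem_support_iff.1 ho)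
      change d o ≤ n
      calc d o = 1 * d o := (one_mul _).symm
        _ ≤ E o * d o := Nat.mul_le_mul_right _ h1
        _ ≤ n := hle o
    · rw [Finset.mem_range]
      have := Nat.le_mul_of_pos_right (E o) (hd o)
      have := hle o
      omega
  exact Set.Finite.subset (Finset.finite_toSet _) hsub

/-- `(-1)^a` -/
def sg2 (a : ZMod 2) : ℤ := if a = 0 then 1 else -1

theorem sg2_add (a b : ZMod 2) : sg2 (a + b) = sg2 a * sg2 b := by
  revert a b
  decide

/-- the factor of `λ` at a point -/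
def fac (d n : ℕ) : ℤ := ∑ i ∈ Finset.range (n + 1), (-1 : ℤ) ^ (i * d)

theorem fac_even {d : ℕ} (hd : Even d) (n : ℕ) : fac d n = n + 1 := by
  unfold fac
  have h : ∀ i ∈ Finset.range (n + 1), (-1 : ℤ) ^ (i * d) = 1 := fun i _ =>
    (hd.mul_left i).neg_one_pow
  rw [Finset.sum_congr rfl h]
  simp

theorem fac_odd {d : ℕ} (hd : Odd d) (n : ℕ) : fac d n = if Even n then 1 else 0 := by
  have h : fac d n = ∑ i ∈ Finset.range (n + 1), (-1 : ℤ) ^ i := by
    unfold fac
    refine Finset.sum_congr rfl fun i _ => ?_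
    rw [mul_comm, pow_mul, hd.neg_one_pow]
  rw [h, neg_one_geom_sum]
  by_cases hn : Even n
  · rw [if_neg (by rw [Nat.not_even_iff_odd]; exact hn.add_one), if_pos hn]
  · rw [if_pos (by rw [Nat.not_even_iff_odd] at hn; exact hn.add_one), if_neg hn]

theorem fac_nonneg (d n : ℕ) : 0 ≤ fac d n := by
  rcases Nat.even_or_odd d with h | h
  · rw [fac_even h]; positivity
  · rw [fac_odd h]; split_ifs <;> norm_num

/-- the divisors below `E` -/
noncomputable def box (E : O →₀ ℕ) : Finset (O →₀ ℕ) :=
  E.support.finsupp fun o => Finset.range (E o + 1)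

theorem mem_box {E E' : O →₀ ℕ} : E' ∈ box E ↔ E' ≤ E := by
  unfold box
  rw [Finset.mem_finsupp_iff]
  constructor
  · rintro ⟨h1, h2⟩ o
    by_cases ho : o ∈ E.support
    · have := Finset.mem_range.1 (h2 o ho)
      omega
    · have h3 : o ∉ E'.support := fun h => ho (h1 h)
      rw [Finsupp.notMem_support_iff] at h3
      rw [h3]
      exact Nat.zero_le _
  · intro h
    refine ⟨Finsupp.support_mono h, fun o _ => ?_⟩
    rw [Finset.mem_range]
    have := h o
    omega

/-- `λ(E)` -/
noncomputable def lam (d : O → ℕ) (E : O →₀ ℕ) : ℤ := ∑ E' ∈ box E, (-1 : ℤ) ^ (dgn d E')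

theorem lam_eq (d : O → ℕ) (E : O →₀ ℕ) : lam d E = ∏ o ∈ E.support, fac (d o) (E o) := by
  classical
  unfold lam fac
  rw [Finset.prod_sum]
  unfold box Finset.finsupp
  rw [Finset.sum_map]
  refine Finset.sum_congr rfl fun p hp => ?_
  rw [Finset.prod_pow_eq_pow_sum]
  congr 1
  unfold dgn
  change (Finsupp.indicator E.support p).sum (fun o n => n * d o) = _
  rw [Finsupp.sum_of_support_subset (s := E.support) _ (Finsupp.support_indicator_subset _ _) _
    (fun o _ => zero_mul _)]
  rw [← Finset.sum_attach]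
  refine Finset.sum_congr rfl fun x _ => ?_
  congr 1
  exact Finsupp.indicator_of_mem x.2 _

theorem absS (d : O → ℕ) (hd : ∀ o, 0 < d o) (hfin : ∀ n, {o | d o ≤ n}.Finite) [hO : Nonempty O]
    (P : AddSubgroup (O →₀ ℤ)) (hP : ∀ D ∈ P, dg d D = 0) (N0 : ℕ)
    (hn : ∀ D D' : O →₀ ℤ, dg d D = dg d D' → (N0 : ℤ) ≤ dg d D →
      Nat.card {E : O →₀ ℕ // toZ E - D ∈ P} = Nat.card {E : O →₀ ℕ // toZ E - D' ∈ P})
    (D₀ : O →₀ ℤ) (hD₀ : dg d D₀ = 0) :
    ∃ A ∈ P, ∃ B : O →₀ ℤ, (∀ o, Odd (d o) → Even (B o)) ∧ D₀ = A + B := by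
  classical
  by_contra hcon
  push Not at hcon
  -- the subgroup of the divisors even at the points of odd degree
  let B : AddSubgroup (O →₀ ℤ) :=
    { carrier := {D | ∀ o, Odd (d o) → Even (D o)}
      zero_mem' := fun o _ => by simp
      add_mem' := fun {D D'} h h' o ho => by
        rw [Finsupp.add_apply]
        exact (h o ho).add (h' o ho)
      neg_mem' := fun {D} h o ho => by
        rw [Finsupp.neg_apply]
        exact (h o ho).neg }
  have hnot : D₀ ∉ P ⊔ B := by
    intro h
    obtain ⟨A, hA, C, hC, h⟩ := AddSubgroup.mem_sup.1 h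
    exact hcon A hA C hC h.symm
  -- the character
  let Q := (O →₀ ℤ) ⧸ (P ⊔ B)
  have h2Q : ∀ x : Q, (2 : ℕ) • x = 0 := by
    intro x
    obtain ⟨D, rfl⟩ := QuotientAddGroup.mk_surjective x
    rw [← QuotientAddGroup.mk_nsmul]
    apply (QuotientAddGroup.eq_zero_iff _).2
    apply (le_sup_right : B ≤ P ⊔ B)
    intro o _
    rw [Finsupp.smul_apply]
    exact ⟨D o, by rw [two_nsmul]⟩
  let _ : Module (ZMod 2) Q := AddCommGroup.zmodModule h2Q
  have hne : (QuotientAddGroup.mk D₀ : Q) ≠ 0 := fun h => hnot ((QuotientAddGroup.eq_zero_iff _).1 h)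
  obtain ⟨θ, hθ⟩ : ∃ θ : Module.Dual (ZMod 2) Q, θ (QuotientAddGroup.mk D₀ : Q) ≠ 0 := by
    by_contra h
    push Not at h
    exact hne ((Module.forall_dual_apply_eq_zero_iff (ZMod 2) _).1 h)
  let η : (O →₀ ℤ) →+ ZMod 2 := θ.toAddMonoidHom.comp (QuotientAddGroup.mk' (P ⊔ B))
  have hηP : ∀ D ∈ P, η D = 0 := by
    intro D hD
    have h1 : (QuotientAddGroup.mk D : Q) = 0 :=
      (QuotientAddGroup.eq_zero_iff _).2 ((le_sup_left : P ≤ P ⊔ B) hD)
    change θ (QuotientAddGroup.mk D : Q) = 0
    rw [h1, map_zero]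
  have hηB : ∀ D ∈ B, η D = 0 := by
    intro D hD
    have h1 : (QuotientAddGroup.mk D : Q) = 0 :=
      (QuotientAddGroup.eq_zero_iff _).2 ((le_sup_right : B ≤ P ⊔ B) hD)
    change θ (QuotientAddGroup.mk D : Q) = 0
    rw [h1, map_zero]
  have hηD : η D₀ = 1 := by
    have h : ∀ a : ZMod 2, a ≠ 0 → a = 1 := by decide
    exact h _ hθ
  -- the finite sets
  let X : ℕ → Finset (O →₀ ℕ) := fun n => (finite_eff d hd hfin n).toFinset
  have hX : ∀ n E, E ∈ X n ↔ dgn d E = n := fun n E => by
    rw [Set.Finite.mem_toFinset]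
    exact Iff.rfl
  let χ : (O →₀ ℕ) → ℤ := fun E => sg2 (η (toZ E))
  have hχadd : ∀ E E', χ (E + E') = χ E * χ E' := fun E E' => by
    change sg2 (η (toZ (E + E'))) = _
    rw [toZ_add, map_add, sg2_add]
  let a : ℕ → ℤ := fun j => ∑ E ∈ X j, χ E
  -- claim 1
  have ha : ∀ j, N0 ≤ j → a j = 0 := by
    intro j hj
    rcases (X j).eq_empty_or_nonempty with he | ⟨E₁, hE₁⟩
    · change ∑ E ∈ X j, χ E = 0
      rw [he, Finset.sum_empty]
    set n : ℕ := Nat.card {E : O →₀ ℕ // toZ E - toZ E₁ ∈ P} with hndef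
    have hcard : ∀ D : O →₀ ℤ, dg d D = j → ((X j).filter fun E => toZ E - D ∈ P).card = n := by
      intro D hD
      rw [hndef, ← hn D (toZ E₁) (by rw [hD, dg_toZ, (hX j E₁).1 hE₁]) (by rw [hD]; exact_mod_cast hj)]
      symm
      apply Nat.subtype_card
      intro E
      rw [Finset.mem_filter, hX]
      refine ⟨fun h => h.2, fun h => ⟨?_, h⟩⟩
      have h1 := hP _ h
      rw [dg_sub, dg_toZ, hD, sub_eq_zero] at h1
      exact_mod_cast h1
    have hn0 : n ≠ 0 := by
      rw [← hcard (toZ E₁) (by rw [dg_toZ, (hX j E₁).1 hE₁])]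
      apply Finset.card_ne_zero_of_mem (a := E₁)
      rw [Finset.mem_filter, sub_self]
      exact ⟨hE₁, P.zero_mem⟩
    have h1 : ∑ E ∈ X j, ∑ E' ∈ X j, (if toZ E' - toZ E - D₀ ∈ P then χ E else 0) = n * a j := by
      have : ∀ E ∈ X j, ∑ E' ∈ X j, (if toZ E' - toZ E - D₀ ∈ P then χ E else 0) = n * χ E := by
        intro E hE
        rw [← Finset.sum_filter, Finset.sum_const, nsmul_eq_mul]
        congr 2
        rw [← hcard (toZ E + D₀) (by rw [dg_add, hD₀, dg_toZ, (hX j E).1 hE, add_zero])]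
        congr 1
        ext E'
        rw [Finset.mem_filter, Finset.mem_filter, sub_sub]
      rw [Finset.sum_congr rfl this, ← Finset.mul_sum]
    have h2 : ∑ E ∈ X j, ∑ E' ∈ X j, (if toZ E' - toZ E - D₀ ∈ P then χ E else 0)
        = -(n * a j) := by
      rw [Finset.sum_comm]
      have : ∀ E' ∈ X j, ∑ E ∈ X j, (if toZ E' - toZ E - D₀ ∈ P then χ E else 0)
          = n * (-χ E') := by
        intro E' hE'
        have h3 : ∀ E ∈ X j, (if toZ E' - toZ E - D₀ ∈ P then χ E else 0)
            = if toZ E' - toZ E - D₀ ∈ P then -χ E' else 0 := by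
          intro E _
          split_ifs with h
          · have h4 := hηP _ h
            rw [map_sub, map_sub, hηD] at h4
            change sg2 (η (toZ E)) = -sg2 (η (toZ E'))
            have h5 : η (toZ E') = η (toZ E) + 1 := by linear_combination h4
            rw [h5, sg2_add]
            have : sg2 1 = -1 := by decide
            rw [this]
            ring
          · rfl
        rw [Finset.sum_congr rfl h3, ← Finset.sum_filter, Finset.sum_const, nsmul_eq_mul]
        congr 2
        rw [← hcard (toZ E' - D₀) (by rw [dg_sub, hD₀, dg_toZ, (hX j E').1 hE', sub_zero])]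
        congr 1
        ext E
        rw [Finset.mem_filter, Finset.mem_filter]
        refine and_congr_right fun _ => ?_
        rw [← P.neg_mem_iff]
        have : -(toZ E' - toZ E - D₀) = toZ E - (toZ E' - D₀) := by abel
        rw [this]
      rw [Finset.sum_congr rfl this, ← Finset.mul_sum, Finset.sum_neg_distrib]
      ring
    have h3 : (n : ℤ) * a j = 0 := by linarith
    rcases mul_eq_zero.1 h3 with h4 | h4
    · exact absurd (by exact_mod_cast h4) hn0
    · exact h4
  -- claim 2
  have hconv : ∀ N, ∑ p ∈ Finset.HasAntidiagonal.antidiagonal N, (-1 : ℤ) ^ p.2 * (a p.1 * a p.2)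
      = ∑ E ∈ X N, χ E * lam d E := by
    intro N
    have h1 : ∀ p ∈ Finset.HasAntidiagonal.antidiagonal N, (-1 : ℤ) ^ p.2 * (a p.1 * a p.2)
        = ∑ q ∈ X p.1 ×ˢ X p.2, (-1 : ℤ) ^ (dgn d q.2) * χ (q.1 + q.2) := by
      intro p _
      rw [Finset.sum_mul_sum, ← Finset.sum_product', Finset.mul_sum]
      refine Finset.sum_congr rfl fun q hq => ?_
      rw [Finset.mem_product] at hq
      rw [(hX _ _).1 hq.2, hχadd]
    rw [Finset.sum_congr rfl h1]
    have h2 : ∀ E ∈ X N, χ E * lam d E = ∑ E' ∈ box E, (-1 : ℤ) ^ (dgn d E') * χ E := by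
      intro E _
      unfold lam
      rw [Finset.mul_sum]
      exact Finset.sum_congr rfl fun E' _ => mul_comm _ _
    rw [Finset.sum_congr rfl h2, Finset.sum_sigma', Finset.sum_sigma']
    refine Finset.sum_bij' (fun x _ => (⟨x.2.1 + x.2.2, x.2.2⟩ : Σ _ : O →₀ ℕ, O →₀ ℕ))
      (fun y _ => (⟨(dgn d (y.1 - y.2), dgn d y.2), (y.1 - y.2, y.2)⟩ :
        Σ _ : ℕ × ℕ, (O →₀ ℕ) × (O →₀ ℕ))) ?_ ?_ ?_ ?_ ?_
    · rintro ⟨p, q⟩ h
      rw [Finset.mem_sigma, Finset.HasAntidiagonal.mem_antidiagonal, Finset.mem_product] at h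
      rw [Finset.mem_sigma, hX, dgn_add, mem_box]
      refine ⟨?_, ?_⟩
      · change dgn d q.1 + dgn d q.2 = N
        rw [(hX _ _).1 h.2.1, (hX _ _).1 h.2.2]
        exact h.1
      · exact le_add_self
    · rintro ⟨E, E'⟩ h
      rw [Finset.mem_sigma, hX, mem_box] at h
      rw [Finset.mem_sigma, Finset.HasAntidiagonal.mem_antidiagonal, Finset.mem_product]
      refine ⟨?_, (hX _ _).2 rfl, (hX _ _).2 rfl⟩
      change dgn d (E - E') + dgn d E' = N
      rw [← dgn_add, tsub_add_cancel_of_le h.2]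
      exact h.1
    · rintro ⟨⟨i, j⟩, ⟨E, E'⟩⟩ h
      rw [Finset.mem_sigma, Finset.HasAntidiagonal.mem_antidiagonal, Finset.mem_product, hX, hX] at h
      simp only [add_tsub_cancel_right]
      have h1 : dgn d E = i := h.2.1
      have h2 : dgn d E' = j := h.2.2
      rw [h1, h2]
    · rintro ⟨E, E'⟩ h
      rw [Finset.mem_sigma, hX, mem_box] at h
      simp only [tsub_add_cancel_of_le h.2]
    · rintro ⟨p, q⟩ h
      rfl
  -- conclusion
  obtain ⟨o⟩ := hO
  let N : ℕ := 2 * N0 * d o
  have hN : 2 * N0 ≤ N := Nat.le_mul_of_pos_right _ (hd o)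
  have hzero : ∑ p ∈ Finset.HasAntidiagonal.antidiagonal N, (-1 : ℤ) ^ p.2 * (a p.1 * a p.2) = 0 := by
    refine Finset.sum_eq_zero fun p hp => ?_
    rw [Finset.HasAntidiagonal.mem_antidiagonal] at hp
    rcases le_or_gt N0 p.1 with h | h
    · rw [ha p.1 h]; ring
    · rw [ha p.2 (by omega)]; ring
  rw [hconv] at hzero
  have hterm : ∀ E : O →₀ ℕ, 0 ≤ χ E * lam d E := by
    intro E
    by_cases hE : ∀ o, Odd (d o) → Even (E o)
    · have h1 : χ E = 1 := by
        have h2 : toZ E ∈ B := fun o ho => by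
          rw [toZ_apply]
          exact (Int.even_coe_nat _).2 (hE o ho)
        change sg2 (η (toZ E)) = 1
        rw [hηB _ h2]
        rfl
      rw [h1, one_mul, lam_eq]
      exact Finset.prod_nonneg fun o _ => fac_nonneg _ _
    · push Not at hE
      obtain ⟨o, ho, hEo⟩ := hE
      have h1 : lam d E = 0 := by
        rw [lam_eq]
        apply Finset.prod_eq_zero (i := o)
        · rw [Finsupp.mem_support_iff]
          intro h
          rw [h] at hEo
          exact hEo Even.zero
        · rw [fac_odd ho, if_neg hEo]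
      rw [h1, mul_zero]
  have hpos : 0 < χ (Finsupp.single o (2 * N0)) * lam d (Finsupp.single o (2 * N0)) := by
    have h1 : χ (Finsupp.single o (2 * N0)) = 1 := by
      have h2 : toZ (Finsupp.single o (2 * N0)) ∈ B := fun o' _ => by
        rw [toZ_apply]
        by_cases h : o = o'
        · subst h
          rw [Finsupp.single_eq_same]
          exact ⟨(N0 : ℤ), by push_cast; ring⟩
        · rw [Finsupp.single_eq_of_ne' h]
          simp
      change sg2 (η (toZ _)) = 1
      rw [hηB _ h2]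
      rfl
    rw [h1, one_mul, lam_eq]
    refine Finset.prod_pos fun o' ho' => ?_
    have h3 : o' = o := by
      have := Finsupp.support_single_subset ho'
      exact Finset.mem_singleton.1 this
    rw [h3, Finsupp.single_eq_same]
    rcases Nat.even_or_odd (d o) with h | h
    · rw [fac_even h]; positivity
    · rw [fac_odd h, if_pos (even_two_mul N0)]
      norm_num
  have hmem : Finsupp.single o (2 * N0) ∈ X N := by
    rw [hX]
    unfold dgn
    rw [Finsupp.sum_single_index (zero_mul _)]
  have := Finset.sum_pos' (fun E _ => hterm E) ⟨_, hmem, hpos⟩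
  omega

end Pool.Agent.GBUH
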