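import Pool.Agent.Lib.GBU.Dv

set_option autoImplicit false

/-!
GBU, block H: the action of a `k`-automorphism `F` of `K` on the places of `K`:
`fp F w` is the place with `x ∈ fp F w ↔ F x ∈ w`, so `ord (fp F w) x = ord w (F x)`.
-/

namespace Pool.Agent.GBUH

open Pool.Agent.BSDFF Pool.Agent.GBC

variable {k K : Type} [Field k] [Field K] [Algebra k K]

/-- `F` on the valuation rings -/
noncomputable def fpEquiv (F : K ≃ₐ[k] K) (w : Place k K) :
    w.ring.comap (F : K →+* K) ≃+* w.ring where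
  toFun x := ⟨F x, x.2⟩
  invFun y := ⟨F.symm y, by
    change F (F.symm y) ∈ w.ring
    rw [AlgEquiv.apply_symm_apply]
    exact y.2⟩
  left_inv x := Subtype.ext (F.symm_apply_apply _)
  right_inv y := Subtype.ext (F.apply_symm_apply _)
  map_mul' x y := Subtype.ext (map_mul F _ _)
  map_add' x y := Subtype.ext (map_add F _ _)

/-- The place `F⁻¹ w`. -/
noncomputable def fp (F : K ≃ₐ[k] K) (w : Place k K) : Place k K where
  ring := w.ring.comap (F : K →+* K)
  const_mem c := by
    change F (algebraMap k K c) ∈ w.ring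
    rw [AlgEquiv.commutes]
    exact w.const_mem c
  dvr := IsDiscreteValuationRing.RingEquivClass.isDiscreteValuationRing (fpEquiv F w).symm

theorem mem_fp (F : K ≃ₐ[k] K) (w : Place k K) (x : K) : x ∈ (fp F w).ring ↔ F x ∈ w.ring := Iff.rfl

theorem place_ext {w w' : Place k K} (h : w.ring = w'.ring) : w = w' := by
  cases w
  cases w'
  congr

theorem fp_fp (F : K ≃ₐ[k] K) (hF : ∀ x, F (F x) = x) (w : Place k K) : fp F (fp F w) = w := by
  apply place_ext
  ext x
  rw [mem_fp, mem_fp, hF]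

theorem ord_fp (F : K ≃ₐ[k] K) (w : Place k K) {x : K} (hx : x ≠ 0) :
    ord (fp F w) x = ord w (F x) := by
  have hne : ∀ {y : K}, y ≠ 0 → F y ≠ 0 := fun {y} hy => by
    rw [Ne, map_eq_zero_iff _ F.injective]
    exact hy
  -- elements of order zero
  have h0 : ∀ y : K, y ≠ 0 → (ord (fp F w) y = 0 ↔ ord w (F y) = 0) := by
    intro y hy
    have hy' := hne hy
    have e1 : ord (fp F w) y = 0 ↔ y ∈ (fp F w).ring ∧ y⁻¹ ∈ (fp F w).ring := by
      rw [mem_ring_iff _ hy, mem_ring_iff _ (inv_ne_zero hy), ord_inv _ hy]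
      omega
    have e2 : ord w (F y) = 0 ↔ F y ∈ w.ring ∧ F y⁻¹ ∈ w.ring := by
      rw [mem_ring_iff _ hy', mem_ring_iff _ (hne (inv_ne_zero hy)), map_inv₀, ord_inv _ hy']
      omega
    rw [e1, e2, mem_fp, mem_fp]
  -- a uniformizer
  obtain ⟨u, hu0, hu⟩ := exists_ord (fp F w) 1
  have hu1 : ord w (F u) = 1 := by
    -- `F u` has positive order and its inverse times any non-unit is in the ring
    have h1 : Irreducible (⟨u, (mem_ring_iff _ hu0).2 (by rw [hu]; norm_num)⟩ : (fp F w).ring) :=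
      (irreducible_iff (fp F w) _).2 ⟨hu0, hu⟩
    have h2 : Irreducible (fpEquiv F w ⟨u, (mem_ring_iff _ hu0).2 (by rw [hu]; norm_num)⟩) :=
      (MulEquiv.irreducible_iff (fpEquiv F w)).2 h1
    exact ((irreducible_iff w _).1 h2).2
  have hux : x * u ^ (-(ord (fp F w) x)) ≠ 0 := mul_ne_zero hx (zpow_ne_zero _ hu0)
  have h3 : ord (fp F w) (x * u ^ (-(ord (fp F w) x))) = 0 := by
    rw [ord_mul _ hx (zpow_ne_zero _ hu0), ord_zpow _ hu0, hu]
    ring
  rw [h0 _ hux, map_mul, map_zpow₀, ord_mul _ (hne hx) (zpow_ne_zero _ (hne hu0)),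
    ord_zpow _ (hne hu0), hu1] at h3
  linarith

theorem degree_fp [Finite k] (G : Geo k K) (F : K ≃ₐ[k] K) (w : Place k K) :
    (fp F w).degree = w.degree := by
  have h1 := G.card_residue (fp F w)
  have h2 := G.card_residue w
  have e : Nat.card (IsLocalRing.ResidueField (fp F w).ring)
      = Nat.card (IsLocalRing.ResidueField w.ring) :=
    Nat.card_congr (IsLocalRing.ResidueField.mapEquiv (fpEquiv F w)).toEquiv
  rw [h1, h2] at e
  exact Nat.pow_right_injective (Finite.one_lt_card (α := k)) e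

end Pool.Agent.GBUH
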