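import Pool.Agent.Lib.GBU.Pic
import Pool.Agent.Lib.GBU.H.FPl

set_option autoImplicit false

/-!
GBU, block H: the field of constants of `K` (functions without zeros and poles), with an involution
`F`; Hilbert 90 and the surjectivity of the norm on the constants.
-/

namespace Pool.Agent.GBUH

open Pool.Agent.BSDFF Pool.Agent.GBC Pool.Agent.GBU

section h90

variable {K : Type*} [Field K] (F : K ≃+* K)

/-- Hilbert 90 for an involution which is not the identity. -/
theorem h90_two {θ : K} (hθ : θ ≠ 0) (hFθ : F θ = -θ) {b : K} (hb : b * F b = 1) :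
    ∃ e : K, e ≠ 0 ∧ F e = b * e := by
  by_cases h : b = -1
  · exact ⟨θ, hθ, by rw [h, hFθ]; ring⟩
  · by_cases h1 : 1 + F b = 0
    · exfalso
      apply h
      have h2 : F b = -1 := by linear_combination h1
      rw [h2] at hb
      linear_combination -hb
    · refine ⟨1 + F b, h1, ?_⟩
      have h3 : F (F b) * F b = 1 := by
        have := congrArg F hb
        rw [map_mul, map_one] at this
        rw [mul_comm]
        exact this
      have hFb : F b ≠ 0 := right_ne_zero_of_mul_eq_one h3
      have h4 : F (F b) = b := mul_right_cancel₀ hFb (h3.trans hb.symm)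
      rw [map_add, map_one, h4, mul_add, hb, mul_one, add_comm]

end h90

variable {k K : Type} [Field k] [Field K] [Algebra k K] (G : Geo k K)

/-- The field of constants. -/
noncomputable def cstF : Subfield K where
  carrier := {x | x = 0 ∨ ∀ w : Place k K, ord w x = 0}
  zero_mem' := Or.inl rfl
  one_mem' := Or.inr fun w => ord_one w
  mul_mem' := by
    rintro a b (rfl | ha) (rfl | hb)
    · left; rw [zero_mul]
    · left; rw [zero_mul]
    · left; rw [mul_zero]
    · by_cases ha0 : a = 0
      · left; rw [ha0, zero_mul]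
      by_cases hb0 : b = 0
      · left; rw [hb0, mul_zero]
      exact Or.inr fun w => by rw [ord_mul w ha0 hb0, ha, hb, add_zero]
  neg_mem' := by
    rintro a (rfl | ha)
    · left; rw [neg_zero]
    · exact Or.inr fun w => by rw [ord_neg]; exact ha w
  inv_mem' := by
    rintro a (rfl | ha)
    · left; rw [inv_zero]
    · by_cases ha0 : a = 0
      · left; rw [ha0, inv_zero]
      exact Or.inr fun w => by rw [ord_inv w ha0, ha w, neg_zero]
  add_mem' := by
    rintro a b (rfl | ha) (rfl | hb)
    · left; rw [zero_add]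
    · right; intro w; rw [zero_add]; exact hb w
    · right; intro w; rw [add_zero]; exact ha w
    · by_cases ha0 : a = 0
      · right; intro w; rw [ha0, zero_add]; exact hb w
      by_cases hb0 : b = 0
      · right; intro w; rw [hb0, add_zero]; exact ha w
      by_cases h0 : a + b = 0
      · exact Or.inl h0
      right
      have hge : ∀ w : Place k K, 0 ≤ ord w (a + b) := fun w => by
        have := min_le_ord_add w ha0 hb0 h0
        rw [ha w, hb w, min_self] at this
        exact this
      obtain ⟨D, hD⟩ := exists_pdiv G h0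
      have hdeg := degD_prin G (D := D) ⟨a + b, h0, hD⟩
      unfold degD Finsupp.sum at hdeg
      have hnn : ∀ w ∈ D.support, 0 ≤ (w.degree : ℤ) * D w := fun w _ => by
        rw [hD w]
        exact mul_nonneg (Nat.cast_nonneg _) (hge w)
      have h1 := (Finset.sum_eq_zero_iff_of_nonneg hnn).1 hdeg
      intro w
      by_cases hw : w ∈ D.support
      · have h2 := h1 w hw
        rcases mul_eq_zero.1 h2 with h3 | h3
        · have := G.degree_pos w
          omega
        · rw [← hD w]; exact h3
      · rw [← hD w]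
        exact Finsupp.notMem_support_iff.1 hw

theorem mem_cstF {x : K} : x ∈ cstF G ↔ x = 0 ∨ ∀ w : Place k K, ord w x = 0 := Iff.rfl

theorem mem_cstF_iff {x : K} (hx : x ≠ 0) : x ∈ cstF G ↔ ∀ w : Place k K, ord w x = 0 :=
  ⟨fun h => h.resolve_left hx, Or.inr⟩

theorem cstF_eq_LL (x : K) : x ∈ cstF G ↔ x ∈ LL (0 : Place k K →₀ ℤ) := by
  by_cases hx : x = 0
  · rw [hx]
    exact ⟨fun _ => (LL _).zero_mem, fun _ => (cstF G).zero_mem⟩
  rw [mem_cstF_iff G hx, mem_LL_iff hx]
  constructor
  · intro h w
    rw [h w]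
    simp
  · intro h
    have hge : ∀ w : Place k K, 0 ≤ ord w x := fun w => by
      have := h w
      simpa using this
    obtain ⟨D, hD⟩ := exists_pdiv G hx
    have hdeg := degD_prin G (D := D) ⟨x, hx, hD⟩
    unfold degD Finsupp.sum at hdeg
    have hnn : ∀ w ∈ D.support, 0 ≤ (w.degree : ℤ) * D w := fun w _ => by
      rw [hD w]
      exact mul_nonneg (Nat.cast_nonneg _) (hge w)
    have h1 := (Finset.sum_eq_zero_iff_of_nonneg hnn).1 hdeg
    intro w
    by_cases hw : w ∈ D.support
    · have h2 := h1 w hw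
      rcases mul_eq_zero.1 h2 with h3 | h3
      · have := G.degree_pos w
        omega
      · rw [← hD w]; exact h3
    · rw [← hD w]
      exact Finsupp.notMem_support_iff.1 hw

theorem finite_cstF [Finite k] : Finite (cstF G) := by
  have h1 := LL_finite G (0 : Place k K →₀ ℤ)
  have h2 : Finite (LL (0 : Place k K →₀ ℤ)) := Module.finite_of_finite k
  exact Finite.of_injective (fun x : cstF G => (⟨x, (cstF_eq_LL G x).1 x.2⟩ :
    LL (0 : Place k K →₀ ℤ))) fun x y h => Subtype.ext (congrArg (fun z : LL (0 : Place k K →₀ ℤ) =>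
      (z : K)) h)

theorem F_mem_cstF (F : K ≃ₐ[k] K) {x : K} (hx : x ∈ cstF G) : F x ∈ cstF G := by
  rcases hx with rfl | hx
  · left; rw [map_zero]
  · by_cases hx0 : x = 0
    · left; rw [hx0, map_zero]
    · right
      intro w
      rw [← ord_fp F w hx0]
      exact hx _

/-- The constants fixed by `F`. -/
noncomputable def cstF0 (F : K ≃ₐ[k] K) : Subfield K where
  carrier := {x | x ∈ cstF G ∧ F x = x}
  zero_mem' := ⟨(cstF G).zero_mem, map_zero _⟩
  one_mem' := ⟨(cstF G).one_mem, map_one _⟩
  mul_mem' := fun ha hb => ⟨(cstF G).mul_mem ha.1 hb.1, by rw [map_mul, ha.2, hb.2]⟩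
  neg_mem' := fun ha => ⟨(cstF G).neg_mem ha.1, by rw [map_neg, ha.2]⟩
  inv_mem' := fun _ ha => ⟨(cstF G).inv_mem ha.1, by rw [map_inv₀, ha.2]⟩
  add_mem' := fun ha hb => ⟨(cstF G).add_mem ha.1 hb.1, by rw [map_add, ha.2, hb.2]⟩

/-- The norm is surjective on the constants. -/
theorem norm_cst [Finite k] (h2 : (2 : k) ≠ 0) (F : K ≃ₐ[k] K) (hF : ∀ x, F (F x) = x) {θ : K}
    (hθ : θ ≠ 0) (hθc : θ ∈ cstF G) (hFθ : F θ = -θ) {c : K} (hc0 : c ≠ 0) (hc : c ∈ cstF G)
    (hFc : F c = c) : ∃ d ∈ cstF G, d ≠ 0 ∧ c = d * F d := by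
  classical
  have hfin : Finite (cstF G) := finite_cstF G
  have hfin0 : Finite (cstF0 G F) := Finite.of_injective
    (fun x : cstF0 G F => (⟨x, x.2.1⟩ : cstF G))
    fun x y h => Subtype.ext (congrArg (fun z : cstF G => (z : K)) h)
  have : Fintype (cstF0 G F) := Fintype.ofFinite _
  have h2K : (2 : K) ≠ 0 := by
    intro h
    apply h2
    apply (algebraMap k K).injective
    rw [map_ofNat, h, map_zero]
  have hchar : ringChar (cstF0 G F) ≠ 2 := by
    intro h
    apply h2K
    have h3 : ((2 : ℕ) : cstF0 G F) = 0 := by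
      rw [← h]
      exact ringChar.Nat.cast_ringChar
    have h4 : (((2 : ℕ) : cstF0 G F) : K) = ((0 : cstF0 G F) : K) := by rw [h3]
    exact h4
  have hodd : Fintype.card (cstF0 G F) % 2 = 1 := FiniteField.odd_card_of_char_ne_two hchar
  have hθ2 : θ ^ 2 ∈ cstF0 G F := ⟨(cstF G).pow_mem hθc 2, by rw [map_pow, hFθ]; ring⟩
  let t : cstF0 G F := ⟨θ ^ 2, hθ2⟩
  let c' : cstF0 G F := ⟨c, hc, hFc⟩
  have ht : t ≠ 0 := fun h => pow_ne_zero 2 hθ (congrArg (fun z : cstF0 G F => (z : K)) h)
  obtain ⟨a, b, hab⟩ := FiniteField.exists_root_sum_quadratic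
    (f := (Polynomial.X ^ 2 : Polynomial (cstF0 G F)))
    (g := Polynomial.C (-t) * Polynomial.X ^ 2 - Polynomial.C c')
    (by simp) (by
      have h5 : (Polynomial.C (-t) * Polynomial.X ^ 2 : Polynomial (cstF0 G F)).degree = 2 := by
        rw [Polynomial.degree_C_mul_X_pow 2 (neg_ne_zero.2 ht)]
        rfl
      rw [Polynomial.degree_sub_C (by rw [h5]; norm_num), h5]) hodd
  have h6 : (a : K) ^ 2 - θ ^ 2 * (b : K) ^ 2 = c := by
    have h7 := congrArg (fun z : cstF0 G F => (z : K)) hab
    simp only [Polynomial.eval_pow, Polynomial.eval_X, Polynomial.eval_sub, Polynomial.eval_mul,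
      Polynomial.eval_C] at h7
    have h8 : (a : K) ^ 2 + (-(θ ^ 2) * (b : K) ^ 2 - c) = 0 := by
      have := h7
      push_cast at this
      exact this
    linear_combination h8
  have hFa : F (a : K) = a := a.2.2
  have hFb : F (b : K) = b := b.2.2
  refine ⟨a + θ * b, (cstF G).add_mem a.2.1 ((cstF G).mul_mem hθc b.2.1), ?_, ?_⟩
  · intro h
    apply hc0
    rw [← h6]
    linear_combination (a - θ * b) * h
  · rw [map_add, map_mul, hFa, hFb, hFθ, ← h6]
    ring

end Pool.Agent.GBUH
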