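import Pool.Agent.Lib.SM.C.DefsU

set_option autoImplicit false

/-!
GBU, block H (Hasse principle over a global function field), Galois part: definitions. Everything
happens in `G = GG k Ω = Gal(Ω / RatFunc k)` with open subgroups `A = Gal(Ω / K)`.
-/

namespace Pool.Agent.GBUH

open Pool.Agent.SmithC

variable {k Ω : Type} [Field k] [Field Ω] [Algebra (RatFunc k) Ω]

/-- `c` is a two-cocycle on `A` with values in `μ_(2^e)` and locally constant on `A`. -/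
structure CocOn (e : ℕ) (A : Subgroup (GG k Ω)) (c : GG k Ω → GG k Ω → Ωˣ) : Prop where
  mu : ∀ s t, c s t ^ (2 ^ e) = 1
  lc : ∃ N : Subgroup (GG k Ω), N.Normal ∧ IsOpen (N : Set (GG k Ω)) ∧ N ≤ A ∧
    ∀ s ∈ A, ∀ t ∈ A, ∀ n ∈ N, ∀ m ∈ N, c (s * n) (t * m) = c s t
  coc : ∀ s ∈ A, ∀ t ∈ A, ∀ w ∈ A, c s t * c (s * t) w = s • c t w * c s (t * w)

/-- `c` splits on `A` with values in `μ_(2^e)`. -/
def SplM (e : ℕ) (A : Subgroup (GG k Ω)) (c : GG k Ω → GG k Ω → Ωˣ) : Prop :=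
  ∃ b : GG k Ω → Ωˣ, (∀ s, b s ^ (2 ^ e) = 1) ∧ LCOn A b ∧ SplU A c b

end Pool.Agent.GBUH
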