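import Pool.Agent.Lib.SM.C.Levels
import Pool.Agent.Lib.GBU.H.HDefs

set_option autoImplicit false

/-!
GBU, block H, module Lev2: the quadratic step of constant extensions.
-/

namespace Pool.Agent.GBUH

open Polynomial Pool.Agent.SmithC

variable {k Ω : Type} [Field k] [Field Ω] [Algebra (RatFunc k) Ω]

/-- an element of the Galois group acts on a finite level through a power of the Frobenius -/
private theorem Lev2_act [Finite k] (h2 : (2 : k) ≠ 0) [IsSepClosure (RatFunc k) Ω] {n : ℕ}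
    (hn : 0 < n) (g : GG k Ω) :
    ∃ i : ℕ, ∀ x : Ω, x ^ (Nat.card k ^ n) = x → g x = x ^ (Nat.card k ^ i) := by
  classical
  obtain ⟨ζ, hζ, hQ⟩ := exists_prim (k := k) (Ω := Ω) h2 hn
  have hζn : ζ ^ (Nat.card k ^ n) = ζ := prim_level hζ.pow_eq_one hQ
  obtain ⟨p, f, hp, hf, hq, hΩ, hk⟩ := card_eq_pow (k := k) (Ω := Ω)
  have hpf : Fact p.Prime := ⟨hp⟩
  set F : Ω →+* Ω := iterateFrobenius Ω p f with hF
  have hFx : ∀ x : Ω, F x = x ^ Nat.card k := fun x => by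
    rw [hF, iterateFrobenius_def, hq]
  set P : Polynomial Ω := ∏ i ∈ Finset.range n, (X - C (ζ ^ (Nat.card k ^ i))) with hP
  have hPF : P.map F = P := by
    rw [hP, Polynomial.map_prod]
    have e : ∀ i ∈ Finset.range n, (X - C (ζ ^ (Nat.card k ^ i)) : Polynomial Ω).map F
        = (X - C (ζ ^ (Nat.card k ^ (i + 1)))) := by
      intro i _
      rw [Polynomial.map_sub, map_X, map_C, hFx, ← pow_mul, ← pow_succ]
    rw [Finset.prod_congr rfl e]
    obtain ⟨m, rfl⟩ : ∃ m, n = m + 1 := ⟨n - 1, by omega⟩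
    rw [Finset.prod_range_succ, Finset.prod_range_succ']
    rw [hζn, pow_zero, pow_one]
  have hcoef : ∀ i : ℕ, g (P.coeff i) = P.coeff i := by
    intro i
    have h1 : F (P.coeff i) = P.coeff i := by
      rw [← coeff_map, hPF]
    rw [hFx] at h1
    obtain ⟨a, ha⟩ := mem_of_pow_eq (k := k) h1
    rw [← ha]
    exact g.commutes _
  have hPg : P.map (g : Ω →+* Ω) = P := by
    ext i
    rw [coeff_map]
    exact hcoef i
  have hroot : P.eval (g ζ) = 0 := by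
    have h1 : P.eval ζ = 0 := by
      rw [hP, eval_prod]
      apply Finset.prod_eq_zero (Finset.mem_range.2 hn)
      rw [eval_sub, eval_X, eval_C, pow_zero, pow_one, sub_self]
    rw [← hPg, eval_map]
    have h3 := Polynomial.hom_eval₂ P (RingHom.id Ω) (g : Ω →+* Ω) ζ
    rw [RingHom.comp_id] at h3
    change eval₂ (g : Ω →+* Ω) ((g : Ω →+* Ω) ζ) P = 0
    rw [← h3]
    change (g : Ω →+* Ω) (P.eval ζ) = 0
    rw [h1, map_zero]
  rw [hP, eval_prod, Finset.prod_eq_zero_iff] at hroot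
  obtain ⟨i, hi, hi2⟩ := hroot
  rw [eval_sub, eval_X, eval_C, sub_eq_zero] at hi2
  refine ⟨i, fun x hx => ?_⟩
  by_cases hx0 : x = 0
  · rw [hx0, map_zero, zero_pow (pow_pos Nat.card_pos i).ne']
  · have h1 : x ^ (Nat.card k ^ n - 1) = 1 := by
      have e : Nat.card k ^ n = (Nat.card k ^ n - 1) + 1 := by omega
      rw [e, pow_succ] at hx
      exact mul_right_cancel₀ hx0 (hx.trans (one_mul x).symm)
    have : NeZero (Nat.card k ^ n - 1) := ⟨by omega⟩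
    obtain ⟨j, -, hj⟩ := hζ.eq_pow_of_pow_eq_one h1
    rw [← hj, map_pow, hi2, ← pow_mul, ← pow_mul, mul_comm]

/-- an element of level `m` acts on the level `2 m` trivially or by the `q ^ m`-power -/
private theorem Lev2_two [Finite k] (h2 : (2 : k) ≠ 0) [IsSepClosure (RatFunc k) Ω]
    {m : ℕ} (hm : 0 < m) {g : GG k Ω} (hg : g ∈ Hn k Ω m) :
    (∀ x : Ω, x ^ (Nat.card k ^ (m * 2)) = x → g x = x) ∨
      (∀ x : Ω, x ^ (Nat.card k ^ (m * 2)) = x → g x = x ^ (Nat.card k ^ m)) := by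
  have hn : 0 < m * 2 := by omega
  obtain ⟨i, hi⟩ := Lev2_act (Ω := Ω) h2 hn g
  -- `m ∣ i`
  have hai : m ∣ i := by
    obtain ⟨ζ, hζ, hQ⟩ := exists_prim (k := k) (Ω := Ω) h2 hm
    have hζa : ζ ^ (Nat.card k ^ m) = ζ := prim_level hζ.pow_eq_one hQ
    have hζ0 : ζ ≠ 0 := hζ.ne_zero (by omega)
    have h1 : ζ ^ (Nat.card k ^ i) = ζ := by
      rw [← hi ζ (pow_pow_mul ζ _ m 2 hζa)]
      exact hg ζ hζa
    have hpos : 0 < Nat.card k ^ i := pow_pos Nat.card_pos i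
    have h3 : ζ ^ (Nat.card k ^ i - 1) = 1 := by
      have e : Nat.card k ^ i = (Nat.card k ^ i - 1) + 1 := by omega
      rw [e, pow_succ] at h1
      exact mul_right_cancel₀ hζ0 (h1.trans (one_mul ζ).symm)
    have h4 : (Nat.card k ^ m - 1) ∣ (Nat.card k ^ i - 1) := hζ.dvd_of_pow_eq_one _ h3
    have h5 := Nat.pow_sub_one_gcd_pow_sub_one (Nat.card k) m i
    rw [Nat.gcd_eq_left h4] at h5
    have hq1 : 1 < Nat.card k := Finite.one_lt_card
    have h6 : Nat.card k ^ m = Nat.card k ^ (m.gcd i) := by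
      have h7 : 0 < Nat.card k ^ (m.gcd i) := pow_pos Nat.card_pos _
      omega
    have h8 : m = m.gcd i := Nat.pow_right_injective hq1 h6
    rw [h8]
    exact Nat.gcd_dvd_right m i
  obtain ⟨l, rfl⟩ := hai
  rcases Nat.even_or_odd' l with ⟨t, rfl | rfl⟩
  · left
    intro x hx
    rw [hi x hx, show m * (2 * t) = m * 2 * t by ring]
    exact pow_pow_mul x _ (m * 2) t hx
  · right
    intro x hx
    rw [hi x hx, show m * (2 * t + 1) = m * 2 * t + m by ring, pow_add, pow_mul,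
      pow_pow_mul x _ (m * 2) t hx]

/-- Module Lev2: the quadratic step of constant extensions. -/
theorem level_step [Finite k] (h2 : (2 : k) ≠ 0) [IsSepClosure (RatFunc k) Ω]
    (A : Subgroup (GG k Ω)) (j : ℕ) :
    A ⊓ Hn k Ω (2 ^ (j + 1)) = A ⊓ Hn k Ω (2 ^ j) ∨
    ∃ σ ∈ A ⊓ Hn k Ω (2 ^ j), σ ∉ A ⊓ Hn k Ω (2 ^ (j + 1)) ∧
      (A ⊓ Hn k Ω (2 ^ (j + 1))).relIndex (A ⊓ Hn k Ω (2 ^ j)) = 2 ∧
      ∃ θ : Ω, θ ≠ 0 ∧ (∃ N : ℕ, 0 < N ∧ θ ^ N = 1) ∧
        (∀ g ∈ A ⊓ Hn k Ω (2 ^ (j + 1)), g θ = θ) ∧ σ θ = -θ := by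
  classical
  have hm : 0 < 2 ^ j := by positivity
  set m : ℕ := 2 ^ j with hmdef
  have hm2 : 2 ^ (j + 1) = m * 2 := by rw [pow_succ]
  rw [hm2]
  have hn : 0 < m * 2 := by omega
  have hle : Hn k Ω (m * 2) ≤ Hn k Ω m := Hn_mono (Nat.dvd_mul_right m 2)
  by_cases hall : A ⊓ Hn k Ω m ≤ Hn k Ω (m * 2)
  · left
    exact le_antisymm (inf_le_inf_left A hle) (le_inf inf_le_left hall)
  right
  obtain ⟨σ, hσ, hσn⟩ := SetLike.not_le_iff_exists.1 hall
  have hσact : ∀ x : Ω, x ^ (Nat.card k ^ (m * 2)) = x → σ x = x ^ (Nat.card k ^ m) := by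
    rcases Lev2_two h2 hm hσ.2 with h | h
    · exact absurd h hσn
    · exact h
  have hpres : ∀ (g : GG k Ω) (x : Ω), x ^ (Nat.card k ^ (m * 2)) = x →
      (g x) ^ (Nat.card k ^ (m * 2)) = g x := fun g x hx => by rw [← map_pow, hx]
  have hσσ : ∀ x : Ω, x ^ (Nat.card k ^ (m * 2)) = x → σ (σ x) = x := by
    intro x hx
    rw [hσact _ (hpres σ x hx), hσact x hx, ← pow_mul, ← pow_add, ← mul_two, hx]
  -- the two cosets
  have hcos : ∀ g ∈ A ⊓ Hn k Ω m, g ∉ Hn k Ω (m * 2) → g * σ ∈ Hn k Ω (m * 2) := by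
    intro g hg hgn x hx
    have hgact : ∀ x : Ω, x ^ (Nat.card k ^ (m * 2)) = x → g x = x ^ (Nat.card k ^ m) := by
      rcases Lev2_two h2 hm hg.2 with h | h
      · exact absurd h hgn
      · exact h
    change g (σ x) = x
    rw [hgact _ (hpres σ x hx), ← hσact _ (hpres σ x hx), hσσ x hx]
  -- an element of level `2 m` moved by `σ`
  obtain ⟨x, hx, hxσ⟩ : ∃ x : Ω, x ^ (Nat.card k ^ (m * 2)) = x ∧ σ x ≠ x := by
    by_contra hcon
    push Not at hcon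
    exact hσn fun x hx => hcon x hx
  have hθlev : (x - σ x) ^ (Nat.card k ^ (m * 2)) = x - σ x := by
    obtain ⟨p, f, hp, hf, hq, hΩ, hk⟩ := card_eq_pow (k := k) (Ω := Ω)
    have hpf : Fact p.Prime := ⟨hp⟩
    have h1 := hpres σ x hx
    rw [hq, ← pow_mul] at h1 hx ⊢
    rw [sub_pow_char_pow, h1, hx]
  have hθ0 : x - σ x ≠ 0 := sub_ne_zero.2 (Ne.symm hxσ)
  refine ⟨σ, hσ, fun h => hσn h.2, ?_, x - σ x, hθ0, ?_, ?_, ?_⟩
  · -- the index
    rw [Subgroup.relIndex, Subgroup.index_eq_two_iff]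
    refine ⟨⟨σ, hσ⟩, fun g => ?_⟩
    have hgA : (g : GG k Ω) ∈ A ⊓ Hn k Ω m := g.2
    change Xor ((g : GG k Ω) * σ ∈ A ⊓ Hn k Ω (m * 2)) ((g : GG k Ω) ∈ A ⊓ Hn k Ω (m * 2))
    by_cases hg : (g : GG k Ω) ∈ Hn k Ω (m * 2)
    · right
      refine ⟨⟨hgA.1, hg⟩, fun h => hσn ?_⟩
      have h3 := (Hn k Ω (m * 2)).mul_mem ((Hn k Ω (m * 2)).inv_mem hg) h.2
      rwa [inv_mul_cancel_left] at h3
    · left
      exact ⟨⟨A.mul_mem hgA.1 hσ.1, hcos _ hgA hg⟩, fun h => hg h.2⟩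
  · refine ⟨Nat.card k ^ (m * 2) - 1, ?_, ?_⟩
    · have : 1 < Nat.card k ^ (m * 2) := Nat.one_lt_pow hn.ne' Finite.one_lt_card
      omega
    · have e : Nat.card k ^ (m * 2) = (Nat.card k ^ (m * 2) - 1) + 1 := by
        have : 0 < Nat.card k ^ (m * 2) := pow_pos Nat.card_pos _
        omega
      rw [e, pow_succ] at hθlev
      exact mul_right_cancel₀ hθ0 (hθlev.trans (one_mul _).symm)
  · intro g hg
    exact hg.2 _ hθlev
  · rw [map_sub, hσσ x hx, neg_sub]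

end Pool.Agent.GBUH
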