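import Pool.Agent.Lib.SM.C.Dfc

set_option autoImplicit false

/-!
GBU, block H, module Transf: transfer for group extensions. A two-cocycle of `G` with values in an
abelian group killed by `M`, which splits over a subgroup of finite index prime to `M`, splits.
-/

namespace Pool.Agent.GBUH

open Pool.Agent.SmithC Pool.Agent.SmithC.EGrp

variable {G A : Type*} [Group G] [CommGroup A] {φ : G →* MulAut A} {f : G → G → A}
  (hf : IsTwoCoc φ f)

/-- the element of `U` moving `q` to `g q` -/
private noncomputable def Transf_gam (U : Subgroup G) (g : G) (q : G ⧸ U) : G :=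
  (g • q : G ⧸ U).out⁻¹ * g * q.out

private theorem Transf_gam_mem (U : Subgroup G) (g : G) (q : G ⧸ U) : Transf_gam U g q ∈ U := by
  unfold Transf_gam
  rw [mul_assoc]
  apply QuotientGroup.eq.1
  rw [QuotientGroup.out_eq']
  have h : ((g * q.out : G) : G ⧸ U) = g • ((q.out : G) : G ⧸ U) := rfl
  rw [h, QuotientGroup.out_eq']

private theorem Transf_gam_mul (U : Subgroup G) (g h : G) (q : G ⧸ U) :
    Transf_gam U (g * h) q = Transf_gam U g (h • q) * Transf_gam U h q := by
  unfold Transf_gam
  rw [mul_smul]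
  group

/-- the difference element -/
private noncomputable def Transf_D (U : Subgroup G) (b : G → A) (x : EGrp hf) (q : G ⧸ U) :
    EGrp hf :=
  x * mk hf 1 q.out * (sec hf b (Transf_gam U x.snd q))⁻¹ * (mk hf 1 (x.snd • q : G ⧸ U).out)⁻¹

/-- its component in `A` -/
private noncomputable def Transf_a (U : Subgroup G) (b : G → A) (x : EGrp hf) (q : G ⧸ U) : A :=
  (Transf_D hf U b x q).fst * f 1 1

private theorem Transf_a_spec (U : Subgroup G) (b : G → A) (x : EGrp hf) (q : G ⧸ U) :
    Transf_D hf U b x q = incl hf (Transf_a hf U b x q) := by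
  have h1 : (Transf_D hf U b x q).snd = (1 : EGrp hf).snd := by
    unfold Transf_D
    rw [snd_mul, snd_mul, snd_mul, snd_inv, snd_inv, snd_mk, snd_mk, snd_sec, snd_one]
    unfold Transf_gam
    group
  have h2 := exists_incl hf _ _ h1
  rw [mul_one, fst_one, inv_inv] at h2
  exact h2

private theorem Transf_a_of {U : Subgroup G} {b : G → A} {x : EGrp hf} {q : G ⧸ U} {a : A}
    (h : Transf_D hf U b x q = incl hf a) : Transf_a hf U b x q = a := by
  apply incl_inj hf
  rw [← Transf_a_spec, h]

private theorem Transf_a_mul {U : Subgroup G} {b : G → A} (hb : SplA φ f U b) (x y : EGrp hf)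
    (q : G ⧸ U) :
    Transf_a hf U b (x * y) q
      = Transf_a hf U b x (y.snd • q) * φ x.snd (Transf_a hf U b y q) := by
  apply Transf_a_of
  rw [mul_comm, map_mul]
  have h1 : incl hf (φ x.snd (Transf_a hf U b y q)) = x * Transf_D hf U b y q * x⁻¹ := by
    rw [Transf_a_spec, mul_incl, mul_inv_cancel_right]
  rw [h1, ← Transf_a_spec]
  unfold Transf_D
  rw [snd_mul, Transf_gam_mul, sec_mul hf hb (Transf_gam_mem U _ _) (Transf_gam_mem U _ _),
    mul_smul]
  group

variable (U : Subgroup G) (b : G → A)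

/-- the transfer -/
private noncomputable def Transf_V [Fintype (G ⧸ U)] (x : EGrp hf) : A :=
  ∏ q : G ⧸ U, Transf_a hf U b x q

private theorem Transf_V_mul [Fintype (G ⧸ U)] (hb : SplA φ f U b) (x y : EGrp hf) :
    Transf_V hf U b (x * y) = Transf_V hf U b x * φ x.snd (Transf_V hf U b y) := by
  unfold Transf_V
  rw [map_prod]
  simp only [Transf_a_mul hf hb]
  rw [Finset.prod_mul_distrib]
  congr 1
  exact Fintype.prod_equiv (MulAction.toPerm y.snd) _ _ fun q => rfl

private theorem Transf_V_incl [Fintype (G ⧸ U)] (hb : SplA φ f U b) (a : A) :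
    Transf_V hf U b (incl hf a) = a ^ Fintype.card (G ⧸ U) := by
  unfold Transf_V
  rw [Finset.prod_eq_pow_card (b := a)]
  · rfl
  · intro q _
    apply Transf_a_of
    have hs1 : sec hf b 1 = 1 := by
      have h := sec_mul hf hb U.one_mem U.one_mem
      rw [mul_one] at h
      exact (mul_eq_left.1 h.symm)
    have hg : Transf_gam U (1 : G) q = 1 := by
      unfold Transf_gam
      rw [one_smul]
      group
    unfold Transf_D
    rw [snd_incl, hg, hs1, one_smul]
    group

private theorem Transf_V_per [Fintype (G ⧸ U)] (hb : SplA φ f U b) (N : Subgroup G) [hN : N.Normal]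
    (hNU : N ≤ U) (hfN : ∀ s t, ∀ n ∈ N, ∀ m ∈ N, f (s * n) (t * m) = f s t)
    (hbN : ∀ g ∈ U, ∀ n ∈ N, b (g * n) = b g) {n : G} (hn : n ∈ N) :
    Transf_V hf U b (mk hf (f 1 1)⁻¹ n) = 1 := by
  unfold Transf_V
  refine Finset.prod_eq_one fun q _ => ?_
  apply Transf_a_of
  rw [map_one]
  have hb1 : b 1 = f 1 1 := by
    have h := hb 1 U.one_mem 1 U.one_mem
    rw [map_one, MulAut.one_apply, mul_one, mul_inv_cancel_right] at h
    exact h.symm
  have hc : q.out⁻¹ * n * q.out ∈ N := by
    have := hN.conj_mem n hn q.out⁻¹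
    rwa [inv_inv] at this
  have hq : (n • q : G ⧸ U) = q := by
    conv_lhs => rw [← QuotientGroup.out_eq' q]
    have h : n • ((q.out : G) : G ⧸ U) = ((n * q.out : G) : G ⧸ U) := rfl
    rw [h]
    conv_rhs => rw [← QuotientGroup.out_eq' q]
    apply QuotientGroup.eq.2
    have h2 : (n * q.out)⁻¹ * q.out = (q.out⁻¹ * n * q.out)⁻¹ := by group
    rw [h2]
    exact U.inv_mem (hNU hc)
  have hg : Transf_gam U n q = q.out⁻¹ * n * q.out := by
    unfold Transf_gam
    rw [hq]
  have key : mk hf (f 1 1)⁻¹ n * mk hf 1 q.out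
      = mk hf 1 q.out * sec hf b (q.out⁻¹ * n * q.out) := by
    apply ext'
    · simp only [fst_mul, fst_mk, snd_mk, fst_sec, snd_sec, map_one, mul_one, one_mul]
      have h1 : f n q.out = f 1 1 := by
        have := hfN 1 q.out n hn 1 N.one_mem
        rw [one_mul, mul_one] at this
        rw [this, hf.one_left]
      have h2 : f q.out (q.out⁻¹ * n * q.out) = φ q.out (f 1 1) := by
        have := hfN q.out 1 1 N.one_mem _ hc
        rw [mul_one, one_mul] at this
        rw [this, hf.one_right]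
      have h3 : b (q.out⁻¹ * n * q.out) = f 1 1 := by
        have := hbN 1 U.one_mem _ hc
        rw [one_mul] at this
        rw [this, hb1]
      rw [h1, h2, h3, map_inv, inv_mul_cancel, inv_mul_cancel]
    · simp only [snd_mul, snd_mk, snd_sec]
      group
  unfold Transf_D
  rw [snd_mk, hg, hq, key, mul_inv_cancel_right, mul_inv_cancel]

variable {U b}

/-- Module Transf (abstract). -/
theorem transfer_odd {G A : Type*} [Group G] [CommGroup A] {φ : G →* MulAut A} {f : G → G → A}
    (hf : IsTwoCoc φ f) (M : ℕ) (hM : ∀ a : A, a ^ M = 1) (U : Subgroup G) (hfin : U.index ≠ 0)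
    (hU : U.index.Coprime M) (b : G → A) (hb : SplA φ f U b) (N : Subgroup G) [N.Normal]
    (hNU : N ≤ U) (hfN : ∀ s t, ∀ n ∈ N, ∀ m ∈ N, f (s * n) (t * m) = f s t)
    (hbN : ∀ g ∈ U, ∀ n ∈ N, b (g * n) = b g) :
    ∃ β : G → A, SplA φ f ⊤ β ∧ ∀ g, ∀ n ∈ N, β (g * n) = β g := by
  have hfi : U.FiniteIndex := ⟨hfin⟩
  have : Finite (G ⧸ U) := inferInstance
  have : Fintype (G ⧸ U) := Fintype.ofFinite _
  have hcard : Fintype.card (G ⧸ U) = U.index := by
    rw [← Nat.card_eq_fintype_card]
    rfl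
  set u : ℤ := Nat.gcdA U.index M with hu
  have hbez : (1 : ℤ) = U.index * u + M * Nat.gcdB U.index M := by
    have h := Nat.gcd_eq_gcd_ab U.index M
    rw [hU.gcd_eq_one] at h
    exact_mod_cast h
  have hpow : ∀ a : A, (a ^ U.index) ^ u = a := by
    intro a
    calc (a ^ U.index) ^ u = (a ^ U.index) ^ u * (a ^ M) ^ (Nat.gcdB U.index M) := by
          rw [hM, one_zpow, mul_one]
      _ = a ^ (1 : ℤ) := by
          rw [hbez, zpow_add, zpow_mul, zpow_mul, zpow_natCast, zpow_natCast]
      _ = a := zpow_one a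
  set V : EGrp hf → A := fun x => Transf_V hf U b x ^ u with hV
  have hVmul : ∀ x y, V (x * y) = V x * φ x.snd (V y) := by
    intro x y
    simp only [hV]
    rw [Transf_V_mul hf U b hb, mul_zpow, map_zpow]
  have hVincl : ∀ a, V (incl hf a) = a := by
    intro a
    simp only [hV]
    rw [Transf_V_incl hf U b hb, hcard, hpow]
  let s : G → EGrp hf := fun g => incl hf (V (mk hf 1 g))⁻¹ * mk hf 1 g
  have hs2 : ∀ g, (s g).snd = g := fun g => by
    simp only [s]
    rw [snd_mul, snd_incl, one_mul, snd_mk]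
  have hs1 : ∀ x : EGrp hf, s x.snd = incl hf (V x)⁻¹ * x := by
    intro x
    have h1 := exists_incl hf x (mk hf 1 x.snd) rfl
    set a := x.fst * (mk hf 1 x.snd).fst⁻¹ with ha
    have h2 : V x = a * V (mk hf 1 x.snd) := by
      conv_lhs => rw [h1]
      rw [hVmul, hVincl, snd_incl, map_one, MulAut.one_apply]
    rw [h2]
    conv_rhs => rw [h1]
    simp only [s]
    rw [mul_inv, mul_comm a⁻¹, map_mul, map_inv (incl hf) a, mul_assoc, inv_mul_cancel_left,
      snd_mul, snd_incl, one_mul, snd_mk]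
  have hsm : ∀ g h, s (g * h) = s g * s h := by
    intro g h
    have h1 : g * h = (mk hf 1 g * mk hf 1 h).snd := by rw [snd_mul, snd_mk, snd_mk]
    rw [h1, hs1, hVmul, mul_inv, map_mul, snd_mk, ← map_inv (φ g)]
    have h2 : incl hf (φ g (V (mk hf 1 h))⁻¹) * mk hf 1 g
        = mk hf 1 g * incl hf (V (mk hf 1 h))⁻¹ := by
      rw [mul_incl, snd_mk]
    simp only [s]
    rw [mul_assoc, ← mul_assoc (incl hf (φ g (V (mk hf 1 h))⁻¹)), h2]
    group
  refine ⟨fun g => ((s g).fst)⁻¹, ?_, ?_⟩
  · intro g _ h _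
    exact cochain_of_section hf s hsm hs2 g h
  · intro g n hn
    have hfst : ∀ g, (s g).fst = (V (mk hf 1 g))⁻¹ := by
      intro g
      simp only [s]
      rw [incl_mul, fst_mk, fst_mk, mul_one]
    have hgn : mk hf 1 (g * n) = mk hf 1 g * mk hf (f 1 1)⁻¹ n := by
      apply ext'
      · simp only [fst_mul, fst_mk, snd_mk, one_mul]
        have := hfN g 1 1 N.one_mem n hn
        rw [mul_one, one_mul] at this
        rw [this, hf.one_right g, map_inv, inv_mul_cancel]
      · simp only [snd_mul, snd_mk]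
    have hVn : V (mk hf (f 1 1)⁻¹ n) = 1 := by
      simp only [hV]
      rw [Transf_V_per hf U b hb N hNU hfN hbN hn, one_zpow]
    change ((s (g * n)).fst)⁻¹ = ((s g).fst)⁻¹
    rw [hfst, hfst, hgn, hVmul, hVn, map_one, mul_one]

end Pool.Agent.GBUH
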