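import Pool.Agent.Lib.SM.C.HasseU
import Pool.Agent.Lib.GBU.H.HDefs
import Pool.Agent.Lib.GBU.H.Transf

set_option autoImplicit false

/-!
GBU, block H, module TransA: transfer in the Galois group. A two-cocycle on `A` with values in
`μ_(2^e)` which splits over an open subgroup of odd index splits over `A`.
-/

namespace Pool.Agent.GBUH

open Pool.Agent.SmithC

variable {k Ω : Type} [Field k] [Field Ω] [Algebra (RatFunc k) Ω]

private theorem TransA_open_normal_le [IsSepClosure (RatFunc k) Ω] (N : Subgroup (GG k Ω))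
    (hN : IsOpen (N : Set (GG k Ω))) :
    ∃ N' : Subgroup (GG k Ω), N'.Normal ∧ IsOpen (N' : Set (GG k Ω)) ∧ N' ≤ N := by
  have hgal : IsGalois (RatFunc k) Ω := inferInstance
  have hnh : (N : Set (GG k Ω)) ∈ nhds (1 : GG k Ω) := hN.mem_nhds N.one_mem
  rw [krullTopology_mem_nhds_one_iff_of_normal] at hnh
  obtain ⟨E', hfd, hE'n, hE'⟩ := hnh
  have hgal' : IsGalois (RatFunc k) E' := ⟨⟩
  exact ⟨E'.fixingSubgroup, inferInstance, IntermediateField.fixingSubgroup_isOpen E', hE'⟩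

/-- Module TransA: transfer in the Galois group (from `transfer_odd` for the group `↥A` and
`rootsOfUnity (2 ^ e) Ω`; `N` small enough to act trivially is NOT needed). -/
theorem transA [Finite k] (h2 : (2 : k) ≠ 0) [IsSepClosure (RatFunc k) Ω] (e : ℕ)
    (A U : Subgroup (GG k Ω)) (hU : IsOpen (U : Set (GG k Ω))) (hUA : U ≤ A)
    (hodd : Odd (U.relIndex A)) (c : GG k Ω → GG k Ω → Ωˣ) (hc : CocOn e A c)
    (h : SplM e U c) : SplM e A c := by
  classical
  obtain ⟨N1, n1n, n1o, n1A, n1c⟩ := hc.lc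
  obtain ⟨b0, hb0M, ⟨N2, n2n, n2o, n2b⟩, hb0s⟩ := h
  obtain ⟨N3, n3n, n3o, n3U⟩ := TransA_open_normal_le U hU
  set N : Subgroup (GG k Ω) := N1 ⊓ (N2 ⊓ N3) with hN
  have hNn : N.Normal := inferInstance
  have hNo : IsOpen (N : Set (GG k Ω)) := by
    rw [hN, Subgroup.coe_inf, Subgroup.coe_inf]
    exact n1o.inter (n2o.inter n3o)
  let f : A → A → rootsOfUnity (2 ^ e) Ω := fun s t => ⟨c s t, hc.mu s t⟩
  let φ : A →* MulAut (rootsOfUnity (2 ^ e) Ω) := (actMu k (2 ^ e)).comp A.subtype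
  have hf : IsTwoCoc φ f := fun s t w => Subtype.ext (hc.coc s s.2 t t.2 w w.2)
  let b : A → rootsOfUnity (2 ^ e) Ω := fun s => ⟨b0 s, hb0M s⟩
  have hb : SplA φ f (U.subgroupOf A) b := fun s hs t ht => Subtype.ext (hb0s s hs t ht)
  have hNA : (N.subgroupOf A).Normal := inferInstance
  obtain ⟨β, hβ, hβN⟩ := transfer_odd hf (2 ^ e) (fun a => Subtype.ext a.2) (U.subgroupOf A)
    (by
      have h1 : (U.subgroupOf A).index = U.relIndex A := rfl
      rw [h1]
      intro h0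
      rw [h0] at hodd
      exact (Nat.not_odd_zero hodd).elim)
    (by
      have h1 : (U.subgroupOf A).index = U.relIndex A := rfl
      rw [h1]
      exact Nat.Coprime.pow_right e (Nat.coprime_two_right.2 hodd)) b hb (N.subgroupOf A)
    (fun x hx => n3U hx.2.2)
    (fun s t x hx y hy => Subtype.ext (n1c s s.2 t t.2 x hx.1 y hy.1))
    (fun g hg x hx => Subtype.ext (n2b g hg x hx.2.1 (n3U hx.2.2)))
  refine ⟨fun s => if hs : s ∈ A then ((β ⟨s, hs⟩ : rootsOfUnity (2 ^ e) Ω) : Ωˣ) else 1,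
    fun s => ?_, ⟨N, hNn, hNo, fun s hs n hn hnA => ?_⟩, fun s hs t ht => ?_⟩
  · by_cases hs : s ∈ A
    · simp only [dif_pos hs]
      exact (β ⟨s, hs⟩).2
    · simp only [dif_neg hs]
      exact one_pow _
  · have hsn : s * n ∈ A := A.mul_mem hs hnA
    simp only [dif_pos hs, dif_pos hsn]
    have h1 := hβN ⟨s, hs⟩ ⟨n, hnA⟩ hn
    exact congrArg (fun u : rootsOfUnity (2 ^ e) Ω => (u : Ωˣ)) h1
  · have hst : s * t ∈ A := A.mul_mem hs ht
    simp only [dif_pos hs, dif_pos ht, dif_pos hst]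
    have h1 := hβ ⟨s, hs⟩ trivial ⟨t, ht⟩ trivial
    exact congrArg (fun u : rootsOfUnity (2 ^ e) Ω => (u : Ωˣ)) h1

end Pool.Agent.GBUH
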