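import Pool.Agent.Lib.GBU.H.TsenA
import Pool.Agent.Lib.GBU.H.TransA
import Pool.Agent.Lib.GBU.H.ToLev
import Pool.Agent.Lib.GBU.H.OddLev

set_option autoImplicit false

/-!
GBU, block H: every locally constant two-cocycle with values in `μ_(2^e)` of an open subgroup `A`
of `Gal(Ω / RatFunc k)` splits over `A ∩ Hn n` for some `n > 0` (`levelO`), in particular over
`A ∩ HH` (`tsenO`), and over `A ∩ Hn (2^r)` for some `r` (`levelTwo`).
-/

namespace Pool.Agent.GBUH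

open Pool.Agent.SmithC

/-- The index of the trace on a normal subgroup divides the index. -/
theorem relIndex_dvd_index_normal {G : Type*} [Group G] (P B : Subgroup G) [B.Normal]
    (hB : B.relIndex P ≠ 0) : P.relIndex B ∣ P.index := by
  have h1 := Subgroup.relIndex_mul_relIndex (P ⊓ B) B (P ⊔ B) inf_le_right le_sup_right
  have h2 := Subgroup.relIndex_mul_relIndex (P ⊓ B) P (P ⊔ B) inf_le_left le_sup_left
  rw [Subgroup.inf_relIndex_right, Subgroup.relIndex_sup_right] at h1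
  rw [Subgroup.inf_relIndex_left, ← h1, mul_comm] at h2
  have h3 := Nat.eq_of_mul_eq_mul_right (Nat.pos_of_ne_zero hB) h2
  rw [← h3]
  exact Dvd.intro _ (Subgroup.relIndex_mul_index (le_sup_left : P ≤ P ⊔ B))

variable {k Ω : Type} [Field k] [Field Ω] [Algebra (RatFunc k) Ω]

theorem exists_normal_le [IsSepClosure (RatFunc k) Ω] (N : Subgroup (GG k Ω))
    (hN : IsOpen (N : Set (GG k Ω))) :
    ∃ N' : Subgroup (GG k Ω), N'.Normal ∧ IsOpen (N' : Set (GG k Ω)) ∧ N' ≤ N := by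
  have hgal : IsGalois (RatFunc k) Ω := inferInstance
  have hnh : (N : Set (GG k Ω)) ∈ nhds (1 : GG k Ω) := hN.mem_nhds N.one_mem
  rw [krullTopology_mem_nhds_one_iff_of_normal] at hnh
  obtain ⟨E', hfd, hE'n, hE'⟩ := hnh
  have hgal' : IsGalois (RatFunc k) E' := ⟨⟩
  exact ⟨E'.fixingSubgroup, inferInstance, IntermediateField.fixingSubgroup_isOpen E', hE'⟩

theorem CocOn.mono [IsSepClosure (RatFunc k) Ω] {e : ℕ} {A B : Subgroup (GG k Ω)}
    {c : GG k Ω → GG k Ω → Ωˣ} (hc : CocOn e A c) (hBA : B ≤ A) (hB : IsOpen (B : Set (GG k Ω))) :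
    CocOn e B c := by
  refine ⟨hc.mu, ?_, fun s hs t ht w hw => hc.coc s (hBA hs) t (hBA ht) w (hBA hw)⟩
  obtain ⟨N1, n1n, n1o, n1A, n1c⟩ := hc.lc
  obtain ⟨N2, n2n, n2o, n2B⟩ := exists_normal_le B hB
  refine ⟨N1 ⊓ N2, inferInstance, ?_, inf_le_right.trans n2B, fun s hs t ht n hn m hm =>
    n1c s (hBA hs) t (hBA ht) n hn.1 m hm.1⟩
  rw [Subgroup.coe_inf]
  exact n1o.inter n2o

theorem SplM.mono {e : ℕ} {A B : Subgroup (GG k Ω)} {c : GG k Ω → GG k Ω → Ωˣ} (h : SplM e A c)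
    (hBA : B ≤ A) : SplM e B c := by
  obtain ⟨b, hb, ⟨N, hNn, hNo, hN⟩, hs⟩ := h
  exact ⟨b, hb, ⟨N, hNn, hNo, fun s hs n hn hnB => hN s (hBA hs) n hn (hBA hnB)⟩,
    fun s hs1 t ht => hs s (hBA hs1) t (hBA ht)⟩

/-- A subgroup of odd index in which a given open normal subgroup has index a power of two. -/
theorem exists_sylow [Finite k] [IsSepClosure (RatFunc k) Ω] (A N : Subgroup (GG k Ω))
    (hNn : N.Normal) (hNo : IsOpen (N : Set (GG k Ω))) (hNA : N ≤ A) :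
    ∃ A' : Subgroup (GG k Ω), N ≤ A' ∧ A' ≤ A ∧ Odd (A'.relIndex A) ∧
      ∃ r : ℕ, N.relIndex A' = 2 ^ r := by
  classical
  have hfin : Finite (GG k Ω ⧸ N) := Subgroup.quotient_finite_of_isOpen N hNo
  have hfi : N.FiniteIndex := Subgroup.finiteIndex_of_finite_quotient
  have hfi' : (N.subgroupOf A).FiniteIndex := inferInstance
  have hfinQ : Finite (A ⧸ N.subgroupOf A) := inferInstance
  have : Fact (Nat.Prime 2) := ⟨Nat.prime_two⟩
  obtain ⟨P⟩ : Nonempty (Sylow 2 (A ⧸ N.subgroupOf A)) := inferInstance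
  have hPc : ∃ r : ℕ, Nat.card P = 2 ^ r := IsPGroup.iff_card.1 P.isPGroup'
  have hPi : Odd ((P : Subgroup (A ⧸ N.subgroupOf A)).index) := by
    rw [← Nat.not_even_iff_odd, even_iff_two_dvd]
    exact P.not_dvd_index
  set A2 : Subgroup A := (P : Subgroup (A ⧸ N.subgroupOf A)).comap
    (QuotientGroup.mk' (N.subgroupOf A)) with hA2
  have hsub : (A2.map A.subtype).subgroupOf A = A2 :=
    Subgroup.comap_map_eq_self_of_injective A.subtype_injective A2
  have hA2i : A2.index = (P : Subgroup (A ⧸ N.subgroupOf A)).index :=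
    Subgroup.index_comap_of_surjective _ (QuotientGroup.mk'_surjective _)
  have hrel : (A2.map A.subtype).relIndex A = (P : Subgroup (A ⧸ N.subgroupOf A)).index := by
    change ((A2.map A.subtype).subgroupOf A).index = _
    rw [hsub, hA2i]
  have hNA' : N ≤ A2.map A.subtype := by
    intro n hn
    refine ⟨⟨n, hNA hn⟩, ?_, rfl⟩
    change QuotientGroup.mk' (N.subgroupOf A) ⟨n, hNA hn⟩ ∈ (P : Subgroup (A ⧸ N.subgroupOf A))
    have h1 : QuotientGroup.mk' (N.subgroupOf A) ⟨n, hNA hn⟩ = 1 :=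
      (QuotientGroup.eq_one_iff _).2 hn
    rw [h1]
    exact Subgroup.one_mem _
  have hA'A : A2.map A.subtype ≤ A := Subgroup.map_subtype_le A2
  refine ⟨A2.map A.subtype, hNA', hA'A, by rw [hrel]; exact hPi, ?_⟩
  obtain ⟨r, hr⟩ := hPc
  refine ⟨r, ?_⟩
  have h1 := Subgroup.relIndex_mul_relIndex N (A2.map A.subtype) A hNA' hA'A
  have h3 : N.relIndex A = Nat.card (A ⧸ N.subgroupOf A) := rfl
  have h4 := (P : Subgroup (A ⧸ N.subgroupOf A)).card_mul_index
  rw [hrel, h3, ← h4] at h1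
  have h5 : 0 < (P : Subgroup (A ⧸ N.subgroupOf A)).index := hPi.pos
  have h6 := Nat.eq_of_mul_eq_mul_right h5 h1
  rw [h6]
  exact hr

/-- Splitting over a finite constant extension. -/
theorem levelO [Finite k] (h2 : (2 : k) ≠ 0) [IsSepClosure (RatFunc k) Ω] (e : ℕ)
    (A : Subgroup (GG k Ω)) (hA : IsOpen (A : Set (GG k Ω))) (c : GG k Ω → GG k Ω → Ωˣ)
    (hc : CocOn e A c) : ∃ n : ℕ, 0 < n ∧ SplM e (A ⊓ Hn k Ω n) c := by
  classical
  obtain ⟨N, hNn, hNo, hNA, hNc⟩ := hc.lc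
  obtain ⟨A', hNA', hA'A, hodd, r, hr⟩ := exists_sylow A N hNn hNo hNA
  have hA'o : IsOpen (A' : Set (GG k Ω)) := Subgroup.isOpen_mono hNA' hNo
  have hc' : CocOn e A' c := hc.mono hA'A hA'o
  have h1 : SplM e (HH k Ω ⊓ A') c := tsenA h2 e A' N hNA' hNo
    (fun g _ n hn => hNn.conj_mem n hn g) r hr c hc'
    (fun s hs t ht n hn m hm => hNc s (hA'A hs) t (hA'A ht) n hn m hm)
  obtain ⟨n, hn, h3⟩ := toLevel h2 e A' c hc' h1
  refine ⟨n, hn, ?_⟩
  have hHo : IsOpen (Hn k Ω n : Set (GG k Ω)) := isOpen_Hn hn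
  have hUo : IsOpen ((A' ⊓ Hn k Ω n : Subgroup (GG k Ω)) : Set (GG k Ω)) := by
    rw [Subgroup.coe_inf]
    exact hA'o.inter hHo
  have hVo : IsOpen ((A ⊓ Hn k Ω n : Subgroup (GG k Ω)) : Set (GG k Ω)) := by
    rw [Subgroup.coe_inf]
    exact hA.inter hHo
  refine transA h2 e (A ⊓ Hn k Ω n) (A' ⊓ Hn k Ω n) hUo (inf_le_inf_right _ hA'A) ?_ c
    (hc.mono inf_le_left hVo) h3
  have hfinH : Finite (GG k Ω ⧸ Hn k Ω n) := Subgroup.quotient_finite_of_isOpen _ hHo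
  have hfiH : (Hn k Ω n).FiniteIndex := Subgroup.finiteIndex_of_finite_quotient
  have e1 : (A' ⊓ Hn k Ω n).relIndex (A ⊓ Hn k Ω n) = A'.relIndex (A ⊓ Hn k Ω n) := by
    rw [← Subgroup.inf_relIndex_right A', ← Subgroup.inf_relIndex_right (A' ⊓ Hn k Ω n)]
    congr 1
    rw [inf_assoc, inf_left_comm (Hn k Ω n), inf_idem]
  have e2 : A'.relIndex (A ⊓ Hn k Ω n) =
      (A'.subgroupOf A).relIndex ((Hn k Ω n).subgroupOf A) := by
    rw [← Subgroup.relIndex_subgroupOf (H := A') (inf_le_left : A ⊓ Hn k Ω n ≤ A),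
      Subgroup.inf_subgroupOf_left]
  have e3 := relIndex_dvd_index_normal (A'.subgroupOf A) ((Hn k Ω n).subgroupOf A) (by
    have : ((Hn k Ω n).subgroupOf A).FiniteIndex := inferInstance
    exact Subgroup.isFiniteRelIndex_iff_relIndex_ne_zero.1
      Subgroup.isFiniteRelIndex_of_finiteIndex)
  rw [e1, e2]
  exact Odd.of_dvd_nat hodd e3

/-- Tsen's theorem for an open subgroup. -/
theorem tsenO [Finite k] (h2 : (2 : k) ≠ 0) [IsSepClosure (RatFunc k) Ω] (e : ℕ)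
    (A : Subgroup (GG k Ω)) (hA : IsOpen (A : Set (GG k Ω))) (c : GG k Ω → GG k Ω → Ωˣ)
    (hc : CocOn e A c) : SplM e (HH k Ω ⊓ A) c := by
  obtain ⟨n, hn, h⟩ := levelO h2 e A hA c hc
  exact h.mono (le_inf inf_le_right (inf_le_left.trans (HH_le_Hn hn)))

/-- Splitting over a constant extension of degree a power of two. -/
theorem levelTwo [Finite k] (h2 : (2 : k) ≠ 0) [IsSepClosure (RatFunc k) Ω] (e : ℕ)
    (A : Subgroup (GG k Ω)) (hA : IsOpen (A : Set (GG k Ω))) (c : GG k Ω → GG k Ω → Ωˣ)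
    (hc : CocOn e A c) : ∃ r : ℕ, SplM e (A ⊓ Hn k Ω (2 ^ r)) c := by
  obtain ⟨n, hn, h⟩ := levelO h2 e A hA c hc
  exact oddLevel h2 e A hA c hc n hn h

end Pool.Agent.GBUH
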