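import Pool.Agent.Lib.SM.C.Level

/-!
# GBU, block H (Hasse principle over every global function field), module LevelA

The field of module `SM.C.Level` for an open subgroup `N0` which is normalised by a subgroup `A`
(`N0 = Gal(Ω/E)`): the compositum `L = E κ(t)` is stable under `HH ⊓ A`, the elements of
`N0 ⊓ HH` act trivially on it, the elements acting trivially lie in `N0`, and the conics over the
fields between `κ(t)` and `L` have points.
-/

set_option autoImplicit false

namespace Pool.Agent.SmithC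

open Polynomial Pool.Agent.SmD

variable {k Ω : Type} [Field k] [Field Ω] [Algebra (RatFunc k) Ω]

theorem exists_levelA [IsSepClosure (RatFunc k) Ω] (κ : Subfield Ω) [IsAlgClosed κ]
    (j : RatFunc κ →+* Ω) (ψ : RatFunc k →+* RatFunc κ)
    (hj : ∀ h ∈ HH k Ω, ∀ x, h (j x) = j x) (hψ : ∀ r, j (ψ r) = algebraMap (RatFunc k) Ω r)
    (A N : Subgroup (GG k Ω)) (hN : IsOpen (N : Set (GG k Ω)))
    (hnorm : ∀ a ∈ A, ∀ n ∈ N, a⁻¹ * n * a ∈ N) :
    ∃ L : Subfield Ω, (∀ h ∈ HH k Ω, h ∈ A → ∀ x ∈ L, h x ∈ L) ∧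
      (∀ n ∈ N, n ∈ HH k Ω → ∀ x ∈ L, n x = x) ∧ (∀ h : GG k Ω, (∀ x ∈ L, h x = x) → h ∈ N) ∧
      (∀ x, j x ∈ L) ∧
      (∀ F : Subfield Ω, F ≤ L → (∀ x, j x ∈ F) → ∀ a ∈ F, ∀ b ∈ F,
        ∃ x ∈ F, ∃ y ∈ F, ∃ z ∈ F, ¬ (x = 0 ∧ y = 0 ∧ z = 0) ∧
          x ^ 2 = a * y ^ 2 + b * z ^ 2) := by
  classical
  have hgal0 : IsGalois (RatFunc k) Ω := inferInstance
  set E : IntermediateField (RatFunc k) Ω := IntermediateField.fixedField N with hEdef
  have hNcl : IsClosed (N : Set (GG k Ω)) := N.isClosed_of_isOpen hN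
  have hE : E.fixingSubgroup = N :=
    InfiniteGalois.fixingSubgroup_fixedField (k := RatFunc k) (K := Ω) ⟨N, hNcl⟩
  have hfd : FiniteDimensional (RatFunc k) E := by
    rw [← InfiniteGalois.isOpen_iff_finite, hE]
    exact hN
  letI : Algebra (RatFunc κ) Ω := j.toAlgebra
  letI : Algebra (RatFunc k) (RatFunc κ) := ψ.toAlgebra
  have htow : IsScalarTower (RatFunc k) (RatFunc κ) Ω :=
    IsScalarTower.of_algebraMap_eq fun r => (hψ r).symm
  have halg : Algebra.IsAlgebraic (RatFunc k) Ω := inferInstance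
  have halg' : Algebra.IsAlgebraic (RatFunc κ) Ω := Algebra.IsAlgebraic.tower_top (K := RatFunc k) _
  let b := Module.finBasis (RatFunc k) E
  set S : Set Ω := Set.range (fun i => (b i : Ω)) with hS
  set L' : IntermediateField (RatFunc κ) Ω := IntermediateField.adjoin (RatFunc κ) S with hL'
  have hfin : FiniteDimensional (RatFunc κ) L' := by
    have : Finite S := Set.finite_range _
    exact IntermediateField.finiteDimensional_adjoin fun x _ =>
      (halg'.isAlgebraic x).isIntegral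
  have hjL : ∀ x, j x ∈ L' := fun x => L'.algebraMap_mem x
  have hEL : ∀ x ∈ E, x ∈ L' := by
    intro x hx
    have h1 := congrArg (Subtype.val : E → Ω) (b.sum_repr ⟨x, hx⟩)
    rw [← show ((⟨x, hx⟩ : E) : Ω) = x from rfl, ← h1]
    rw [AddSubmonoidClass.coe_finsetSum]
    refine L'.sum_mem fun i _ => ?_
    have h2 : (((b.repr ⟨x, hx⟩) i • b i : E) : Ω)
        = algebraMap (RatFunc k) Ω (b.repr ⟨x, hx⟩ i) * (b i : Ω) := by
      rw [← Algebra.smul_def]
      rfl
    rw [h2, ← hψ]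
    exact L'.mul_mem (hjL _) (IntermediateField.subset_adjoin _ _ ⟨i, rfl⟩)
  have hEst : ∀ h ∈ A, ∀ x ∈ E, h x ∈ E := by
    intro h hhA x hx
    rw [hEdef, IntermediateField.mem_fixedField_iff]
    intro n hn
    have h1 : h⁻¹ * n * h ∈ N := hnorm h hhA n hn
    rw [hEdef, IntermediateField.mem_fixedField_iff] at hx
    have h2 := hx _ h1
    have h3 : (h⁻¹ * n * h) x = h⁻¹ (n (h x)) := rfl
    rw [h3] at h2
    have h4 : h (h⁻¹ (n (h x))) = n (h x) := by
      rw [← AlgEquiv.mul_apply, mul_inv_cancel, AlgEquiv.one_apply]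
    rw [← h4, h2]
  refine ⟨L'.toSubfield, ?_, ?_, ?_, hjL, ?_⟩
  · intro h hh hhA x hx
    let M : IntermediateField (RatFunc κ) Ω :=
      (L'.toSubfield.comap ((h : Ω ≃ₐ[RatFunc k] Ω) : Ω →+* Ω)).toIntermediateField (fun r => by
        change h (j r) ∈ L'
        rw [hj h hh r]
        exact hjL r)
    have hM : L' ≤ M := by
      rw [hL', IntermediateField.adjoin_le_iff]
      rintro _ ⟨i, rfl⟩
      change h (b i : Ω) ∈ L'
      exact hEL _ (hEst h hhA _ (b i).2)
    exact hM hx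
  · intro n hn hnH x hx
    let M : IntermediateField (RatFunc κ) Ω :=
      (((n : Ω ≃ₐ[RatFunc k] Ω) : Ω →+* Ω).eqLocusField (RingHom.id Ω)).toIntermediateField
        (fun r => hj n hnH r)
    have hM : L' ≤ M := by
      rw [hL', IntermediateField.adjoin_le_iff]
      rintro _ ⟨i, rfl⟩
      change n (b i : Ω) = (b i : Ω)
      rw [← hE, IntermediateField.mem_fixingSubgroup_iff] at hn
      exact hn _ (b i).2
    exact hM hx
  · intro h hh
    rw [← hE, IntermediateField.mem_fixingSubgroup_iff]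
    exact fun x hx => hh x (hEL x hx)
  · intro F hF hjF a ha c hc
    let F' : IntermediateField (RatFunc κ) Ω := F.toIntermediateField (fun r => hjF r)
    have hF' : F' ≤ L' := fun x hx => hF hx
    have hfd' : FiniteDimensional (RatFunc κ) F' :=
      Submodule.finiteDimensional_of_le (S₁ := F'.toSubalgebra.toSubmodule)
        (S₂ := L'.toSubalgebra.toSubmodule) hF'
    obtain ⟨x, y, z, hne, hxyz⟩ := conic (κ := κ) (F := F') ⟨a, ha⟩ ⟨c, hc⟩
    refine ⟨x, x.2, y, y.2, z, z.2, ?_, ?_⟩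
    · rintro ⟨h1, h2, h3⟩
      exact hne ⟨Subtype.ext h1, Subtype.ext h2, Subtype.ext h3⟩
    · exact congrArg Subtype.val hxyz

end Pool.Agent.SmithC
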