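import Pool.Agent.Lib.GBU.H.NormThm
import Pool.Agent.Lib.GBU.H.HDefs
import Pool.Agent.Lib.SM.C.Cst
import Pool.Agent.Lib.GBU.PlA
import Pool.Agent.Lib.GBC.E.Main
import Pool.Agent.Lib.SmD.ValIner

set_option autoImplicit false

/-!
GBU, block H, module NormG: the norm theorem in the Galois group of `Ω / RatFunc k`, with the local
condition at the valuation rings of `Ω`.
-/

namespace Pool.Agent.GBUH

open Pool.Agent.BSDFF Pool.Agent.GBC Pool.Agent.GBU Pool.Agent.SmithC Pool.Agent.Lib.SmD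

section

variable {k K Ω : Type} [Field k] [Finite k] [Field K] [Algebra k K] [Algebra (RatFunc k) K]
  [IsScalarTower k (RatFunc k) K] [FiniteDimensional (RatFunc k) K]
  [Field Ω] [Algebra K Ω] [Algebra (RatFunc k) Ω] [IsScalarTower (RatFunc k) K Ω] [IsGalois K Ω]

/-- At a place of `K` stable under `F` the order of `a` is even, if `w a = (w z) ^ 2` with `z` fixed
by the decomposition group of `w` in `Gal(Ω / K)`. -/
theorem even_of_local (h2 : (2 : k) ≠ 0) (F : K ≃ₐ[k] K) (hF : ∀ x, F (F x) = x) (σ : GG k Ω)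
    (hσF : ∀ x : K, σ (algebraMap K Ω x) = algebraMap K Ω (F x)) {a : K} (ha : a ≠ 0)
    (v : Place k K) (hv : fp F v = v)
    (hloc : ∀ w : ValuationSubring Ω, w ≠ ⊤ →
      (∃ γ : Ω ≃ₐ[K] Ω, γ.restrictScalars (RatFunc k) * σ ∈ dec (RatFunc k) w) →
      ∃ z : Ω, z ≠ 0 ∧ (∀ g ∈ dec K w, g z = z) ∧
        w.valuation (algebraMap K Ω a) = w.valuation z ^ 2) : Even (ord v a) := by
  obtain ⟨w, hw, hwv⟩ := exists_above_place Ω v
  have hinv : ∀ x : K, σ⁻¹ (algebraMap K Ω x) = algebraMap K Ω (F x) := by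
    intro x
    have h1 : σ (algebraMap K Ω (F x)) = algebraMap K Ω x := by rw [hσF, hF]
    rw [← h1, ← AlgEquiv.mul_apply, inv_mul_cancel, AlgEquiv.one_apply]
  -- the place `σ w`
  let w1 : ValuationSubring Ω := w.comap ((σ⁻¹ : GG k Ω) : Ω →+* Ω)
  have hw1 : ∀ x : Ω, x ∈ w1 ↔ σ⁻¹ x ∈ w := fun x => Iff.rfl
  have hbelow : below K w1 = below K w := by
    ext x
    change σ⁻¹ (algebraMap K Ω x) ∈ w ↔ algebraMap K Ω x ∈ w
    rw [hinv]
    have e1 : ∀ y : K, algebraMap K Ω y ∈ w ↔ y ∈ v.ring := fun y => by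
      rw [← hwv]
      rfl
    rw [e1, e1, ← mem_fp, hv]
  obtain ⟨γ, hγ⟩ := conj K w1 w hbelow
  obtain ⟨z, hz0, hz, haz⟩ := hloc w hw ⟨γ, by
    rw [mem_dec]
    intro x
    change γ (σ x) ∈ w ↔ x ∈ w
    rw [hγ, hw1, ← AlgEquiv.mul_apply, inv_mul_cancel, AlgEquiv.one_apply]⟩
  have := v.dvr
  obtain ⟨π, hπ⟩ := IsDiscreteValuationRing.exists_irreducible v.ring
  have hL : LocHyp K w (π : K) := locHyp_of_below h2 v w hwv hπ
  obtain ⟨n, hn⟩ := value_iner hL hz0 fun g hg => hz g (iner_le_dec K w hg)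
  obtain ⟨hπ0, hπ1⟩ := (irreducible_iff v π).1 hπ
  -- `x = a / π ^ (2 n)` is a unit at `v`
  have hx0 : a / (π : K) ^ (n * 2) ≠ 0 := div_ne_zero ha (zpow_ne_zero _ hπ0)
  have hxw : w.valuation (algebraMap K Ω (a / (π : K) ^ (n * 2))) = 1 := by
    rw [map_div₀, map_zpow₀, map_div₀, map_zpow₀, haz, hn, zpow_mul]
    have h3 : (w.valuation (algebraMap K Ω (π : K)) ^ n) ^ (2 : ℤ) ≠ 0 :=
      zpow_ne_zero _ (zpow_ne_zero _ ((Valuation.ne_zero_iff _).2 ((map_ne_zero _).2 hπ0)))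
    exact div_self h3
  have hmem : ∀ y : K, w.valuation (algebraMap K Ω y) = 1 → y ∈ v.ring := fun y hy => by
    rw [← hwv]
    change algebraMap K Ω y ∈ w
    rw [← ValuationSubring.valuation_le_one_iff, hy]
  have h3 : 0 ≤ ord v (a / (π : K) ^ (n * 2)) := (mem_ring_iff v hx0).1 (hmem _ hxw)
  have h4 : 0 ≤ ord v (a / (π : K) ^ (n * 2))⁻¹ :=
    (mem_ring_iff v (inv_ne_zero hx0)).1 (hmem _ (by rw [map_inv₀, map_inv₀, hxw, inv_one]))
  rw [ord_inv v hx0] at h4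
  rw [ord_div v ha (zpow_ne_zero _ hπ0), ord_zpow v hπ0, hπ1] at h3 h4
  exact ⟨n, by omega⟩

end

variable {k Ω : Type} [Field k] [Field Ω] [Algebra (RatFunc k) Ω]

/-- Module NormG: the norm theorem in the Galois group. -/
theorem normG [Finite k] (h2 : (2 : k) ≠ 0) [IsSepClosure (RatFunc k) Ω]
    (A1 A2 : Subgroup (GG k Ω)) (hle : A2 ≤ A1) (hA2 : IsOpen (A2 : Set (GG k Ω)))
    (σ : GG k Ω) (hσ : σ ∈ A1) (hσ2 : σ ∉ A2) (hidx : A2.relIndex A1 = 2)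
    (θ : Ω) (hθ0 : θ ≠ 0) (N : ℕ) (hN : 0 < N) (hθN : θ ^ N = 1) (hθ2 : ∀ g ∈ A2, g θ = θ)
    (hθσ : σ θ = -θ) (a : Ωˣ) (ha : ∀ g ∈ A1, g • a = a)
    (hloc : ∀ w : ValuationSubring Ω, w ≠ ⊤ → (∃ F ∈ A1, F ∉ A2 ∧ F ∈ dec (RatFunc k) w) →
      ∃ z : Ωˣ, (∀ g ∈ A2 ⊓ dec (RatFunc k) w, g • z = z) ∧
        w.valuation (a : Ω) = w.valuation (z : Ω) ^ 2) :
    ∃ y : Ωˣ, (∀ g ∈ A2, g • y = y) ∧ a = y * σ • y := by
  classical
  have hgal : IsGalois (RatFunc k) Ω := inferInstance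
  let _ : Algebra k Ω := algk k Ω
  have : IsScalarTower k (RatFunc k) Ω := IsScalarTower.of_algebraMap_eq fun _ => rfl
  -- index two
  have hidx' : (A2.subgroupOf A1).index = 2 := hidx
  have hHn : (A2.subgroupOf A1).Normal := Subgroup.normal_of_index_eq_two hidx'
  have hσσ : σ * σ ∈ A2 := Subgroup.mul_self_mem_of_index_two hidx' (⟨σ, hσ⟩ : A1)
  have hcj : ∀ g ∈ A2, σ⁻¹ * g * σ ∈ A2 := fun g hg => by
    have h1 := hHn.conj_mem (⟨g, hle hg⟩ : A1) hg (⟨σ, hσ⟩ : A1)⁻¹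
    rw [inv_inv] at h1
    exact h1
  -- the field
  have hcl : IsClosed (A2 : Set (GG k Ω)) := Subgroup.isClosed_of_isOpen A2 hA2
  let L : IntermediateField (RatFunc k) Ω := IntermediateField.fixedField A2
  have hL : ∀ x : Ω, x ∈ L ↔ ∀ n ∈ A2, n x = x := fun x => IntermediateField.mem_fixedField_iff A2 x
  have hLfix : L.fixingSubgroup = A2 :=
    InfiniteGalois.fixingSubgroup_fixedField (k := RatFunc k) (K := Ω) ⟨A2, hcl⟩
  have hfd : FiniteDimensional (RatFunc k) L := by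
    rw [← InfiniteGalois.isOpen_iff_finite]
    have h1 : (L.fixingSubgroup.carrier : Set (GG k Ω)) = (A2 : Set (GG k Ω)) := by
      rw [hLfix]
      rfl
    rw [h1]
    exact hA2
  have hsep : Algebra.IsSeparable (RatFunc k) L := inferInstance
  have hgalL : IsGalois L Ω := inferInstance
  obtain ⟨G, -⟩ := exists_geo k L
  have hmemσ : ∀ x ∈ L, σ x ∈ L := fun x hx => by
    rw [hL] at hx ⊢
    intro n hn
    have h1 := hx _ (hcj n hn)
    have h3 : n (σ x) = σ ((σ⁻¹ * n * σ) x) := by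
      rw [AlgEquiv.mul_apply, AlgEquiv.mul_apply, ← AlgEquiv.mul_apply σ, mul_inv_cancel,
        AlgEquiv.one_apply]
    rw [h3, h1]
  have hσσ' : ∀ x ∈ L, σ (σ x) = x := fun x hx => (hL x).1 hx _ hσσ
  let F : L ≃ₐ[k] L :=
    { toFun := fun x => ⟨σ x, hmemσ x x.2⟩
      invFun := fun x => ⟨σ x, hmemσ x x.2⟩
      left_inv := fun x => Subtype.ext (hσσ' x x.2)
      right_inv := fun x => Subtype.ext (hσσ' x x.2)
      map_mul' := fun x y => Subtype.ext (map_mul σ _ _)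
      map_add' := fun x y => Subtype.ext (map_add σ _ _)
      commutes' := fun x => Subtype.ext (σ.commutes (algebraMap k (RatFunc k) x)) }
  have hF : ∀ x : L, ((F x : L) : Ω) = σ x := fun x => rfl
  have hFF : ∀ x, F (F x) = x := fun x => Subtype.ext (hσσ' x x.2)
  obtain ⟨θ', hθ'⟩ : ∃ θ' : L, (θ' : Ω) = θ := ⟨⟨θ, (hL θ).2 hθ2⟩, rfl⟩
  have hθ'0 : θ' ≠ 0 := fun h => hθ0 (by rw [← hθ', h]; rfl)
  have hθ'c : θ' ∈ cstF G := by
    rw [mem_cstF_iff G hθ'0]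
    intro w
    have h1 : θ' ^ N = 1 := Subtype.ext (by
      change (θ' : Ω) ^ N = 1
      rw [hθ', hθN])
    have h3 := ord_pow w hθ'0 N
    rw [h1, ord_one] at h3
    rcases mul_eq_zero.1 h3.symm with h4 | h4
    · exfalso
      have : N = 0 := by exact_mod_cast h4
      omega
    · exact h4
  have hFθ : F θ' = -θ' := Subtype.ext (by
    change σ (θ' : Ω) = -(θ' : Ω)
    rw [hθ', hθσ])
  obtain ⟨a', ha'⟩ : ∃ a' : L, (a' : Ω) = a :=
    ⟨⟨a, (hL _).2 fun n hn => congrArg Units.val (ha n (hle hn))⟩, rfl⟩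
  have ha'0 : a' ≠ 0 := fun h => a.ne_zero (by rw [← ha', h]; rfl)
  have hFa : F a' = a' := Subtype.ext (by
    change σ (a' : Ω) = (a' : Ω)
    rw [ha']
    exact congrArg Units.val (ha σ hσ))
  have hrs : ∀ γ : Ω ≃ₐ[L] Ω, γ.restrictScalars (RatFunc k) ∈ A2 := fun γ => by
    rw [← hLfix, IntermediateField.mem_fixingSubgroup_iff]
    intro x hx
    exact γ.commutes (⟨x, hx⟩ : L)
  obtain ⟨b, hb0, hb⟩ := norm_thm G h2 F hFF hθ'0 hθ'c hFθ ha'0 hFa (fun v hv =>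
    even_of_local (Ω := Ω) h2 F hFF σ (fun x => rfl) ha'0 v hv (by
      rintro w hw ⟨γ, hγ⟩
      obtain ⟨z, hz1, hz2⟩ := hloc w hw ⟨_, A1.mul_mem (hle (hrs γ)) hσ, fun h => hσ2 (by
        have h1 := A2.mul_mem (A2.inv_mem (hrs γ)) h
        rwa [inv_mul_cancel_left] at h1), hγ⟩
      refine ⟨z, z.ne_zero, fun g hg => ?_, ?_⟩
      · have h1 : g.restrictScalars (RatFunc k) ∈ dec (RatFunc k) w := by
          rw [mem_dec]
          exact (mem_dec L).1 hg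
        exact congrArg Units.val (hz1 _ ⟨hrs g, h1⟩)
      · change w.valuation (a' : Ω) = _
        rw [ha']
        exact hz2))
  have hbΩ : (b : Ω) ≠ 0 := fun h => hb0 (Subtype.ext h)
  refine ⟨Units.mk0 (b : Ω) hbΩ, fun g hg => Units.ext ((hL _).1 b.2 g hg), Units.ext ?_⟩
  rw [← ha', hb]
  rfl

end Pool.Agent.GBUH
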