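import Pool.Agent.Lib.GBU.H.QuadA
import Pool.Agent.Lib.GBU.H.HDefs
import Pool.Agent.Lib.SM.C.H90U
import Pool.Agent.Lib.SM.C.KumStep
import Pool.Agent.Lib.SmD.Basic

set_option autoImplicit false

/-!
GBU, block H, module Quad: the quadratic step of the Hasse principle. The norm theorem enters as the
hypothesis `hN`.
-/

namespace Pool.Agent.GBUH

open Pool.Agent.SmithC Pool.Agent.SmithC.EGrp Pool.Agent.Lib.SmD

variable {k Ω : Type} [Field k] [Field Ω] [Algebra (RatFunc k) Ω]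

/-- The action of `A` on `Ωˣ`. -/
noncomputable def actU (A : Subgroup (GG k Ω)) : A →* MulAut Ωˣ :=
  (MulDistribMulAction.toMulAut (GG k Ω) Ωˣ).comp A.subtype

theorem actU_apply (A : Subgroup (GG k Ω)) (g : A) (u : Ωˣ) : actU A g u = (g : GG k Ω) • u := rfl

private theorem Quad_open_normal_le [IsSepClosure (RatFunc k) Ω] (N : Subgroup (GG k Ω))
    (hN : IsOpen (N : Set (GG k Ω))) :
    ∃ N' : Subgroup (GG k Ω), N'.Normal ∧ IsOpen (N' : Set (GG k Ω)) ∧ N' ≤ N := by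
  have hgal : IsGalois (RatFunc k) Ω := inferInstance
  have hnh : (N : Set (GG k Ω)) ∈ nhds (1 : GG k Ω) := hN.mem_nhds N.one_mem
  rw [krullTopology_mem_nhds_one_iff_of_normal] at hnh
  obtain ⟨E', hfd, hE'n, hE'⟩ := hnh
  have hgal' : IsGalois (RatFunc k) E' := ⟨⟩
  exact ⟨E'.fixingSubgroup, inferInstance, IntermediateField.fixingSubgroup_isOpen E', hE'⟩

/-- Hilbert 90 for functions on a subgroup. -/
private theorem h90A [IsSepClosure (RatFunc k) Ω] (A D : Subgroup (GG k Ω)) (hDA : D ≤ A)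
    (z : A → Ωˣ) (N : Subgroup (GG k Ω)) (hNn : N.Normal) (hNo : IsOpen (N : Set (GG k Ω)))
    (hz : ∀ s n : A, (s : GG k Ω) ∈ D → (n : GG k Ω) ∈ D → (n : GG k Ω) ∈ N → z (s * n) = z s)
    (hc : ∀ s t : A, (s : GG k Ω) ∈ D → (t : GG k Ω) ∈ D → z (s * t) = z s * actU A s (z t)) :
    ∃ y : Ωˣ, ∀ s : A, (s : GG k Ω) ∈ D → z s = actU A s y * y⁻¹ := by
  classical
  obtain ⟨y, hy⟩ := h90U D (fun g => if hg : g ∈ A then z ⟨g, hg⟩ else 1)
    ⟨N, hNn, hNo, fun s hs n hn hnD => by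
      have hsn : s * n ∈ A := A.mul_mem (hDA hs) (hDA hnD)
      simp only [dif_pos (hDA hs), dif_pos hsn]
      exact hz ⟨s, hDA hs⟩ ⟨n, hDA hnD⟩ hs hnD hn⟩
    (fun s hs t ht => by
      have hst : s * t ∈ A := A.mul_mem (hDA hs) (hDA ht)
      simp only [dif_pos (hDA hs), dif_pos (hDA ht), dif_pos hst]
      exact hc ⟨s, hDA hs⟩ ⟨t, hDA ht⟩ hs ht)
  refine ⟨y, fun s hs => ?_⟩
  have h := hy s hs
  simp only [dif_pos s.2] at h
  exact h

/-- Module Quad: the quadratic step. -/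
theorem quadStep [Finite k] (h2 : (2 : k) ≠ 0) [IsSepClosure (RatFunc k) Ω] (e : ℕ)
    (A1 A2 : Subgroup (GG k Ω)) (hle : A2 ≤ A1) (hA2 : IsOpen (A2 : Set (GG k Ω)))
    (σ : GG k Ω) (hσ : σ ∈ A1) (hσ2 : σ ∉ A2) (hidx : A2.relIndex A1 = 2)
    (c : GG k Ω → GG k Ω → Ωˣ) (hc : CocOn e A1 c) (h : SplM e A2 c)
    (hN : ∀ a : Ωˣ, (∀ g ∈ A1, g • a = a) →
      (∀ w : ValuationSubring Ω, w ≠ ⊤ → (∃ F ∈ A1, F ∉ A2 ∧ F ∈ dec (RatFunc k) w) →
        ∃ z : Ωˣ, (∀ g ∈ A2 ⊓ dec (RatFunc k) w, g • z = z) ∧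
          w.valuation (a : Ω) = w.valuation (z : Ω) ^ 2) →
      ∃ y : Ωˣ, (∀ g ∈ A2, g • y = y) ∧ a = y * σ • y)
    (hloc : ∀ w : ValuationSubring Ω, w ≠ ⊤ → ∃ β : GG k Ω → Ωˣ,
      LCOn (A1 ⊓ dec (RatFunc k) w) β ∧ SplU (A1 ⊓ dec (RatFunc k) w) c β) :
    SplM e A1 c := by
  classical
  have halg : Algebra.IsAlgebraic (RatFunc k) Ω := inferInstance
  obtain ⟨N1, n1n, n1o, n1A, n1c⟩ := hc.lc
  obtain ⟨b0, hb0M, ⟨N2, n2n, n2o, n2b⟩, hb0s⟩ := h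
  obtain ⟨N3, n3n, n3o, n3U⟩ := Quad_open_normal_le A2 hA2
  obtain ⟨N, hNn, hNo, hN1, hN2, hN3⟩ : ∃ N : Subgroup (GG k Ω), N.Normal ∧
      IsOpen (N : Set (GG k Ω)) ∧ N ≤ N1 ∧ N ≤ N2 ∧ N ≤ N3 := by
    refine ⟨N1 ⊓ (N2 ⊓ N3), inferInstance, ?_, inf_le_left, inf_le_right.trans inf_le_left,
      inf_le_right.trans inf_le_right⟩
    rw [Subgroup.coe_inf, Subgroup.coe_inf]
    exact n1o.inter (n2o.inter n3o)
  have hNA2 : N ≤ A2 := hN3.trans n3U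
  let f : A1 → A1 → Ωˣ := fun s t => c s t
  have hf : IsTwoCoc (actU A1) f := fun s t w => hc.coc s s.2 t t.2 w w.2
  let H : Subgroup A1 := A2.subgroupOf A1
  have hidx' : H.index = 2 := hidx
  have hHn : H.Normal := Subgroup.normal_of_index_eq_two hidx'
  let b : A1 → Ωˣ := fun s => b0 s
  have hb : SplA (actU A1) f H b := fun s hs t ht => hb0s s hs t ht
  have hfN : ∀ s t : A1, ∀ n m : A1, (n : GG k Ω) ∈ N → (m : GG k Ω) ∈ N →
      f (s * n) (t * m) = f s t := fun s t n m hn hm => n1c s s.2 t t.2 n (hN1 hn) m (hN1 hm)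
  have hbN : ∀ s n : A1, s ∈ H → (n : GG k Ω) ∈ N → b (s * n) = b s := fun s n hs hn =>
    n2b s hs n (hN2 hn) (hNA2 hn)
  let τ : A1 := ⟨σ, hσ⟩
  have hτH : τ ∉ H := hσ2
  have hτinv : τ⁻¹ ∉ H := fun h => hτH (by
    have := H.inv_mem h
    rwa [inv_inv] at this)
  have hττ : τ * τ ∈ H := Subgroup.mul_self_mem_of_index_two hidx' τ
  have hor : ∀ g : A1, g ∈ H ∨ τ⁻¹ * g ∈ H := fun g => by
    by_cases hg : g ∈ H
    · exact Or.inl hg
    · exact Or.inr ((Subgroup.mul_mem_iff_of_index_two hidx').2 (iff_of_false hτinv hg))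
  have hcj : ∀ g ∈ H, τ⁻¹ * g * τ ∈ H := fun g hg => by
    have := hHn.conj_mem g hg τ⁻¹
    rwa [inv_inv] at this
  -- the first lift of `σ` and its defect
  obtain ⟨x0, hx0s, hx0⟩ : ∃ x0 : EGrp hf, x0.snd = τ ∧ ∀ g : A1, dfc hf b x0 g =
      actU A1 τ ((b (τ⁻¹ * g * τ))⁻¹) * f τ (τ⁻¹ * g * τ) * (f g τ)⁻¹ * b g := by
    refine ⟨mk hf 1 τ, rfl, fun g => ?_⟩
    apply dfc_eq_of
    rw [mul_inv_eq_iff_eq_mul, incl_mul]
    apply ext'
    · change 1 * actU A1 τ ((b (τ⁻¹ * g * τ))⁻¹) * f τ (τ⁻¹ * g * τ)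
        = actU A1 τ ((b (τ⁻¹ * g * τ))⁻¹) * f τ (τ⁻¹ * g * τ) * (f g τ)⁻¹ * b g
          * (b g)⁻¹ * actU A1 g 1 * f g τ
      rw [map_one (actU A1 g), one_mul, mul_one, mul_inv_cancel_right, inv_mul_cancel_right]
    · change τ * (τ⁻¹ * g * τ) = g * τ
      group
  obtain ⟨y, hy⟩ := h90A A1 A2 hle (fun g => dfc hf b x0 g) N hNn hNo (by
    intro s n hs _ hn
    have hnc : ((τ⁻¹ * n * τ : A1) : GG k Ω) ∈ N := by
      have := hNn.conj_mem (n : GG k Ω) hn σ⁻¹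
      rwa [inv_inv] at this
    change dfc hf b x0 (s * n) = dfc hf b x0 s
    rw [hx0, hx0]
    have e1 : τ⁻¹ * (s * n) * τ = (τ⁻¹ * s * τ) * (τ⁻¹ * n * τ) := by group
    have e2 : f τ ((τ⁻¹ * s * τ) * (τ⁻¹ * n * τ)) = f τ (τ⁻¹ * s * τ) := by
      have := hfN τ (τ⁻¹ * s * τ) 1 (τ⁻¹ * n * τ) N.one_mem hnc
      rwa [mul_one] at this
    have e3 : f (s * n) τ = f s τ := by
      have := hfN s τ n 1 hn N.one_mem
      rwa [mul_one] at this
    rw [e1, hbN _ _ (hcj s hs) hnc, e2, e3, hbN s n hs hn])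
    (fun s t hs ht => dfc_crossed hf hb x0 (h := s) (h' := t) hs ht)
  -- the lift without defect
  obtain ⟨x1, hx1s, hx1⟩ : ∃ x1 : EGrp hf, x1.snd = τ ∧ ∀ g ∈ H, dfc hf b x1 g = 1 := by
    refine ⟨incl hf y * x0, by rw [snd_mul, snd_incl, one_mul, hx0s], fun g hg => ?_⟩
    have h1 : dfc hf b x0 g = actU A1 g y * y⁻¹ := hy g hg
    rw [dfc_incl_mul, h1, mul_comm (actU A1 g y), mul_inv_cancel_left, mul_inv_cancel]
  obtain ⟨a, ha⟩ : ∃ a : Ωˣ, x1 * x1 = incl hf a * sec hf b (x1.snd * x1.snd) :=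
    ⟨_, exists_incl hf (x1 * x1) (sec hf b (x1.snd * x1.snd)) rfl⟩
  have hx1H : x1.snd * x1.snd ∈ H := by rw [hx1s]; exact hττ
  have hafix : ∀ g : A1, actU A1 g a = a := by
    intro g
    have h1 := fixed_x hf hx1 hx1H ha
    rw [hx1s] at h1
    rcases hor g with hg | hg
    · exact fixed_H hf hb hx1 hx1H ha hg
    · have h3 := fixed_H hf hb hx1 hx1H ha hg
      have e : g = τ * (τ⁻¹ * g) := by group
      rw [e, map_mul, MulAut.mul_apply, h3, h1]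
  -- the norm theorem
  obtain ⟨y', hy'1, hy'2⟩ := hN a (fun g hg => hafix ⟨g, hg⟩) (by
    rintro w hw ⟨F, hFA, hFA2, hFw⟩
    obtain ⟨β, ⟨N4, n4n, n4o, n4β⟩, hβ⟩ := hloc w hw
    let D : Subgroup A1 := (A1 ⊓ dec (RatFunc k) w).subgroupOf A1
    have hd0 : SplA (actU A1) f D (fun s => β s) := fun s hs t ht => hβ s hs t ht
    obtain ⟨y4, hy4⟩ := h90A A1 (A2 ⊓ dec (RatFunc k) w) (inf_le_left.trans hle)
      (fun g => (b g)⁻¹ * β g) (N ⊓ N4) inferInstance (by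
        rw [Subgroup.coe_inf]
        exact hNo.inter n4o) (by
        intro s n hs hn hnN
        change (b (s * n))⁻¹ * β (s * n) = (b s)⁻¹ * β s
        rw [hbN s n hs.1 hnN.1, n4β s ⟨s.2, hs.2⟩ n hnN.2 ⟨n.2, hn.2⟩]) (by
        intro s t hs ht
        exact ratio_crossed (φ := actU A1) (f := f) (b := b) (d := fun s => β s)
          (D := (A2 ⊓ dec (RatFunc k) w).subgroupOf A1)
          (fun g hg h hh => hb g hg.1 h hh.1)
          (fun g hg h hh => hd0 g ⟨g.2, hg.2⟩ h ⟨h.2, hh.2⟩) hs ht)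
    have hd := spl_cob hd0 y4
    have hFH : (⟨F, hFA⟩ : A1) ∉ H := hFA2
    obtain ⟨z, hz1, hz2⟩ := local_quad hf hb hx1 hx1H ha hd (by
      intro g hgD hgH
      have h1 : (b g)⁻¹ * β g = actU A1 g y4 * y4⁻¹ := hy4 g ⟨hgH, hgD.2⟩
      change β g * (actU A1 g y4 * y4⁻¹)⁻¹ = b g
      rw [← h1, mul_inv, inv_inv, mul_comm (b g), mul_inv_cancel_left]) hafix
      (F := ⟨F, hFA⟩) (γ := ⟨F, hFA⟩ * τ⁻¹) ⟨hFA, hFw⟩
      ((Subgroup.mul_mem_iff_of_index_two hidx').2 (iff_of_false hFH hτinv))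
      (by rw [hx1s]; group)
    refine ⟨z⁻¹, fun g hg => ?_, ?_⟩
    · have h1 : g • z = z := hz1 ⟨g, hle hg.1⟩ ⟨hle hg.1, hg.2⟩ hg.1
      rw [smul_inv', h1]
    · have h1 := congrArg (fun u : Ωˣ => w.valuation (u : Ω)) hz2
      have h3 : w.valuation ((actU A1 ⟨F, hFA⟩ z : Ωˣ) : Ω) = w.valuation (z : Ω) :=
        dec_val_inv hFw (z : Ω)
      simp only [Units.val_mul, Units.val_one, map_mul, map_one] at h1
      rw [h3] at h1
      have hz0 : w.valuation (z : Ω) ≠ 0 := (Valuation.ne_zero_iff _).2 z.ne_zero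
      rw [Units.val_inv_eq_inv_val, map_inv₀, inv_pow, pow_two]
      exact eq_inv_of_mul_eq_one_right h1)
  -- the lift with the right square
  obtain ⟨x2, hx2s, hx2, hx2sq⟩ : ∃ x2 : EGrp hf, x2.snd = τ ∧ (∀ g ∈ H, dfc hf b x2 g = 1) ∧
      x2 * x2 = sec hf b (x2.snd * x2.snd) := by
    have hs : (incl hf y'⁻¹ * x1).snd = τ := by rw [snd_mul, snd_incl, one_mul, hx1s]
    refine ⟨incl hf y'⁻¹ * x1, hs, fun g hg => ?_, ?_⟩
    · have h1 : actU A1 g y' = y' := hy'1 g hg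
      rw [dfc_incl_mul, hx1 g hg, map_inv, h1, mul_one, inv_inv, inv_mul_cancel]
    · rw [hs]
      rw [hx1s] at ha
      have e1 : incl hf y'⁻¹ * x1 * (incl hf y'⁻¹ * x1) =
          incl hf y'⁻¹ * (x1 * incl hf y'⁻¹) * x1 := by group
      have e2 : y'⁻¹ * actU A1 τ y'⁻¹ * a = 1 := by
        have h3 : a = y' * actU A1 τ y' := hy'2
        rw [h3, map_inv]
        have e3 : y'⁻¹ * (actU A1 τ y')⁻¹ * (y' * actU A1 τ y') =
          (y'⁻¹ * y') * ((actU A1 τ y')⁻¹ * actU A1 τ y') := by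
          simp only [mul_assoc, mul_comm, mul_left_comm]
        rw [e3, inv_mul_cancel, inv_mul_cancel, one_mul]
      have e4 : incl hf y'⁻¹ * (incl hf (actU A1 τ y'⁻¹) * x1) * x1 =
          incl hf y'⁻¹ * incl hf (actU A1 τ y'⁻¹) * (x1 * x1) := by group
      rw [e1, mul_incl, hx1s, e4, ha, ← map_mul, ← mul_assoc, ← map_mul, e2, map_one, one_mul]
  obtain ⟨β, hβ, hβN⟩ := final_quad hf hb hx2 (by rw [hx2s]; exact hor) (by rw [hx2s]; exact hτH)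
    (by rw [hx2s]; exact hττ) hx2sq
  have hβN' := hβN (N.subgroupOf A1) (fun x hx => hNA2 hx)
    (fun s t n hn m hm => hfN s t n m hn hm) (fun n hn => by
      have := hbN 1 n H.one_mem hn
      rwa [one_mul] at this)
  exact kumStep h2 e A1 c hc.mu (fun g => if hg : g ∈ A1 then β ⟨g, hg⟩ else 1)
    ⟨N, hNn, hNo, fun s hs n hn hnA => by
      have hsn : s * n ∈ A1 := A1.mul_mem hs hnA
      simp only [dif_pos hs, dif_pos hsn]
      exact hβN' ⟨s, hs⟩ ⟨n, hnA⟩ hn⟩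
    (fun s hs t ht => by
      have hst : s * t ∈ A1 := A1.mul_mem hs ht
      simp only [dif_pos hs, dif_pos ht, dif_pos hst]
      exact hβ ⟨s, hs⟩ ⟨t, ht⟩)

end Pool.Agent.GBUH
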