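import Pool.Agent.Lib.GBU.H.LevO
import Pool.Agent.Lib.GBU.H.Quad
import Pool.Agent.Lib.GBU.H.NormG
import Pool.Agent.Lib.GBU.H.Lev2

set_option autoImplicit false

/-!
GBU, block H, module Main: the Hasse principle for two-cocycles with values in `μ_(2^e)` over an
open subgroup `A` of `Gal(Ω / RatFunc k)` (so over every global function field of characteristic
different from two).
-/

namespace Pool.Agent.GBUH

open Pool.Agent.SmithC Pool.Agent.Lib.SmD

variable {k Ω : Type} [Field k] [Field Ω] [Algebra (RatFunc k) Ω]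

private theorem Main_Hn_one [Finite k] : Hn k Ω (2 ^ 0) = ⊤ := by
  classical
  rw [eq_top_iff]
  intro g _
  rw [mem_Hn]
  intro x hx
  rw [pow_zero, pow_one] at hx
  have : Fintype k := Fintype.ofFinite k
  -- `x` is in the image of `k`
  let ι : k →+* Ω := (algebraMap (RatFunc k) Ω).comp (algebraMap k (RatFunc k))
  have hfix : ∀ a : k, g (ι a) = ι a := fun a => g.commutes (algebraMap k (RatFunc k) a)
  have hq : 1 < Nat.card k := Finite.one_lt_card
  have h0 : (Polynomial.X ^ (Nat.card k) - Polynomial.X : Polynomial Ω) ≠ 0 :=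
    FiniteField.X_pow_card_sub_X_ne_zero Ω hq
  have hdeg : (Polynomial.X ^ (Nat.card k) - Polynomial.X : Polynomial Ω).natDegree = Nat.card k :=
    FiniteField.X_pow_card_sub_X_natDegree_eq Ω hq
  have hroot : ∀ x : Ω, x ∈ (Polynomial.X ^ (Nat.card k) - Polynomial.X :
      Polynomial Ω).roots.toFinset ↔ x ^ Nat.card k = x := by
    intro x
    rw [Multiset.mem_toFinset, Polynomial.mem_roots h0, Polynomial.IsRoot.def,
      Polynomial.eval_sub, Polynomial.eval_pow, Polynomial.eval_X, sub_eq_zero]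
  have hsub : Finset.univ.image ι ⊆ (Polynomial.X ^ (Nat.card k) - Polynomial.X :
      Polynomial Ω).roots.toFinset := by
    intro x hx
    obtain ⟨a, -, rfl⟩ := Finset.mem_image.1 hx
    rw [hroot, Nat.card_eq_fintype_card, ← map_pow, FiniteField.pow_card]
  have hcard : (Polynomial.X ^ (Nat.card k) - Polynomial.X : Polynomial Ω).roots.toFinset.card ≤
      (Finset.univ.image ι).card := by
    rw [Finset.card_image_of_injective _ ι.injective, Finset.card_univ]
    calc _ ≤ Multiset.card (Polynomial.X ^ (Nat.card k) - Polynomial.X : Polynomial Ω).roots :=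
          Multiset.toFinset_card_le _
      _ ≤ (Polynomial.X ^ (Nat.card k) - Polynomial.X : Polynomial Ω).natDegree :=
          Polynomial.card_roots' _
      _ = _ := by rw [hdeg, Nat.card_eq_fintype_card]
  have heq := Finset.eq_of_subset_of_card_le hsub hcard
  have h1 : x ∈ Finset.univ.image ι := by
    rw [heq, hroot]
    exact hx
  obtain ⟨a, -, rfl⟩ := Finset.mem_image.1 h1
  exact hfix a

/-- The Hasse principle over an open subgroup `A` of `Gal(Ω / RatFunc k)`. -/
theorem hasseA [Finite k] (h2 : (2 : k) ≠ 0) [IsSepClosure (RatFunc k) Ω] (e : ℕ)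
    (A : Subgroup (GG k Ω)) (hA : IsOpen (A : Set (GG k Ω))) (c : GG k Ω → GG k Ω → Ωˣ)
    (hc : CocOn e A c) (hloc : ∀ w : ValuationSubring Ω, w ≠ ⊤ → ∃ β : GG k Ω → Ωˣ,
      LCOn (A ⊓ dec (RatFunc k) w) β ∧ SplU (A ⊓ dec (RatFunc k) w) c β) :
    SplM e A c := by
  have key : ∀ r : ℕ, SplM e (A ⊓ Hn k Ω (2 ^ r)) c → SplM e A c := by
    intro r
    induction r with
    | zero =>
      intro h
      rw [Main_Hn_one, inf_top_eq] at h
      exact h
    | succ r ih =>
      intro h
      apply ih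
      rcases level_step h2 A r with he | ⟨σ, hσ, hσ2, hidx, θ, hθ0, ⟨N, hN, hθN⟩, hθ2, hθσ⟩
      · rw [← he]
        exact h
      · have hop : ∀ n : ℕ, 0 < n → IsOpen ((A ⊓ Hn k Ω n : Subgroup (GG k Ω)) : Set (GG k Ω)) :=
          fun n hn => by
            rw [Subgroup.coe_inf]
            exact hA.inter (isOpen_Hn hn)
        have hle : A ⊓ Hn k Ω (2 ^ (r + 1)) ≤ A ⊓ Hn k Ω (2 ^ r) :=
          inf_le_inf_left A (Hn_mono (pow_dvd_pow 2 r.le_succ))
        exact quadStep h2 e _ _ hle (hop _ (by positivity)) σ hσ hσ2 hidx c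
          (hc.mono inf_le_left (hop _ (by positivity))) h
          (fun a ha hl => normG h2 _ _ hle (hop _ (by positivity)) σ hσ hσ2 hidx θ hθ0 N hN hθN
            hθ2 hθσ a ha hl)
          (fun w hw => by
            obtain ⟨β, ⟨N', h1, h3, h4⟩, hβ⟩ := hloc w hw
            have hl : ∀ s, s ∈ A ⊓ Hn k Ω (2 ^ r) ⊓ dec (RatFunc k) w →
              s ∈ A ⊓ dec (RatFunc k) w := fun s hs => ⟨hs.1.1, hs.2⟩
            exact ⟨β, ⟨N', h1, h3, fun s hs n hn hnA => h4 s (hl s hs) n hn (hl n hnA)⟩,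
              fun s hs t ht => hβ s (hl s hs) t (hl t ht)⟩)
  obtain ⟨r, hr⟩ := levelTwo h2 e A hA c hc
  exact key r hr

end Pool.Agent.GBUH
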