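import Pool.Agent.Lib.GBU.NP

/-!
GBU, block H: subgroups of `N ∈ NP` of 2-power index; from locally constant to `NP`-finite for a cochain
with `NP`-finite coboundary and values killed by `2 ^ e`.
-/

set_option autoImplicit false

namespace Pool.Agent.GBUH

open Pool.Agent.GBU

variable {K Om : Type*} [Field K] [Field Om] [Algebra K Om]

/-- A normal open subgroup `C` of `N ∈ NP` such that every element of `N` has a 2-power in `C`. -/
theorem mem_NP_of_pow [IsGalois K Om] (h2 : (2 : K) ≠ 0) {N C : Subgroup (Om ≃ₐ[K] Om)}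
    (hN : N ∈ NP K Om) (hn : C.Normal) (ho : IsOpen (C : Set (Om ≃ₐ[K] Om))) (hle : C ≤ N)
    (hp : ∀ n ∈ N, ∃ m : ℕ, n ^ (2 ^ m) ∈ C) : C ∈ NP K Om := by
  have hfin : Finite ((Om ≃ₐ[K] Om) ⧸ C) := Subgroup.quotient_finite_of_isOpen C ho
  have hfi : C.FiniteIndex := Subgroup.finiteIndex_of_finite_quotient
  have hfi' : (C.subgroupOf N).FiniteIndex := inferInstance
  have hfin' : Finite (N ⧸ C.subgroupOf N) := Subgroup.finite_quotient_of_finiteIndex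
  have hP : IsPGroup 2 (N ⧸ C.subgroupOf N) := by
    intro g
    obtain ⟨s, rfl⟩ := QuotientGroup.mk_surjective g
    obtain ⟨m, hm⟩ := hp s.1 s.2
    refine ⟨m, ?_⟩
    rw [← QuotientGroup.mk_pow]
    exact (QuotientGroup.eq_one_iff _).mpr (Subgroup.mem_subgroupOf.2 hm)
  have : Fact (Nat.Prime 2) := ⟨Nat.prime_two⟩
  obtain ⟨r, hr⟩ := IsPGroup.iff_card.mp hP
  have h3 : C.relIndex N = 2 ^ r := hr
  refine ⟨hn, ho, ?_⟩
  rw [← Subgroup.relIndex_mul_index hle, h3, Nat.cast_mul, Nat.cast_pow, Nat.cast_ofNat]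
  exact mul_ne_zero (pow_ne_zero _ h2) (NP.index_ne hN)

variable {M : Type*} [AddCommGroup M] [DistribMulAction (Om ≃ₐ[K] Om) M]

/-- From locally constant to `NP`-finite. -/
theorem exists_NP_cochain [IsGalois K Om] (h2 : (2 : K) ≠ 0) {e : ℕ}
    {c : (Om ≃ₐ[K] Om) → (Om ≃ₐ[K] Om) → M} {b : (Om ≃ₐ[K] Om) → M}
    (hc : ∃ N ∈ NP K Om, ∀ s t, ∀ n ∈ N, ∀ m ∈ N, c (s * n) (t * m) = c s t)
    (hact : ∃ N ∈ NP K Om, ∀ s ∈ N, ∀ m : M, (2 : ℕ) ^ e • m = 0 → s • m = m)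
    (hb0 : ∀ s, (2 : ℕ) ^ e • b s = 0)
    (hb : ∃ N : Subgroup (Om ≃ₐ[K] Om), IsOpen (N : Set (Om ≃ₐ[K] Om)) ∧
      ∀ s, ∀ n ∈ N, b (s * n) = b s)
    (hcb : ∀ s t, c s t = b s + s • b t - b (s * t)) :
    ∃ N ∈ NP K Om, ∀ s, ∀ n ∈ N, b (s * n) = b s := by
  obtain ⟨N, hN, hNc⟩ := hc
  obtain ⟨N', hN', hNa⟩ := hact
  obtain ⟨U, hU, hUb⟩ := hb
  have hN1 : N ⊓ N' ∈ NP K Om := inf_mem_NP hN hN'
  have hn1 : (N ⊓ N').Normal := NP.normal hN1
  -- the value at `1`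
  have e1 : ∀ s, ∀ n ∈ N, c s n = s • b 1 := by
    intro s n hn
    have h3 := hNc s 1 1 N.one_mem n hn
    rw [mul_one, one_mul] at h3
    rw [h3, hcb, mul_one, add_sub_cancel_left]
  have e2 : ∀ s, ∀ n ∈ N ⊓ N', b (s * n) = b s + s • (b n - b 1) := by
    intro s n hn
    have h3 := hcb s n
    rw [e1 s n hn.1] at h3
    rw [smul_sub, h3]
    abel
  have e3 : ∀ n ∈ N ⊓ N', ∀ g, b (n * g) = b g + (b n - b 1) := by
    intro n hn g
    have h3 := hcb n g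
    have h4 := hNc 1 g n hn.1 1 N.one_mem
    rw [mul_one, one_mul] at h4
    have h5 := hcb 1 g
    rw [one_smul, one_mul, add_sub_cancel_right] at h5
    rw [h4, h5, hNa n hn.2 _ (hb0 g)] at h3
    rw [h3]
    abel
  have e4 : ∀ g, ∀ n ∈ N ⊓ N', b (g * n * g⁻¹) - b 1 = g • (b n - b 1) := by
    intro g n hn
    have h3 := e3 (g * n * g⁻¹) (hn1.conj_mem n hn g) g
    rw [inv_mul_cancel_right, e2 g n hn] at h3
    exact (add_left_cancel h3).symm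
  have e5 : ∀ n ∈ N ⊓ N', ∀ m ∈ N ⊓ N', b (n * m) - b 1 = (b n - b 1) + (b m - b 1) := by
    intro n hn m hm
    rw [e3 n hn m]
    abel
  let C : Subgroup (Om ≃ₐ[K] Om) :=
    { carrier := {n | n ∈ N ⊓ N' ∧ b n - b 1 = 0}
      one_mem' := ⟨(N ⊓ N').one_mem, sub_self _⟩
      mul_mem' := by
        rintro x y ⟨hx, hx'⟩ ⟨hy, hy'⟩
        exact ⟨(N ⊓ N').mul_mem hx hy, by rw [e5 x hx y hy, hx', hy', add_zero]⟩
      inv_mem' := by
        rintro x ⟨hx, hx'⟩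
        refine ⟨(N ⊓ N').inv_mem hx, ?_⟩
        have h3 := e5 x⁻¹ ((N ⊓ N').inv_mem hx) x hx
        rw [inv_mul_cancel, hx', add_zero, sub_self] at h3
        exact h3.symm }
  have hC : ∀ n, n ∈ C ↔ n ∈ N ⊓ N' ∧ b n - b 1 = 0 := fun n => Iff.rfl
  have hpow : ∀ n ∈ N ⊓ N', ∀ j : ℕ, b (n ^ j) - b 1 = j • (b n - b 1) := by
    intro n hn j
    induction j with
    | zero => rw [pow_zero, zero_smul, sub_self]
    | succ j ih => rw [pow_succ, e5 _ ((N ⊓ N').pow_mem hn j) n hn, ih, succ_nsmul]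
  refine ⟨C, mem_NP_of_pow h2 hN1 ?_ ?_ (fun n hn => hn.1) fun n hn => ⟨e, ?_⟩, fun s n hn => ?_⟩
  · constructor
    rintro n ⟨hn, hn'⟩ g
    exact ⟨hn1.conj_mem n hn g, by rw [e4 g n hn, hn', smul_zero]⟩
  · have hle : (N ⊓ N') ⊓ U ≤ C := by
      intro n hn
      refine ⟨hn.1, ?_⟩
      have h3 := hUb 1 n hn.2
      rw [one_mul] at h3
      rw [h3, sub_self]
    refine Subgroup.isOpen_mono hle ?_
    rw [Subgroup.coe_inf]
    exact (NP.isOpen hN1).inter hU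
  · refine ⟨(N ⊓ N').pow_mem hn _, ?_⟩
    rw [hpow n hn, smul_sub, hb0, hb0, sub_zero]
  · rw [e2 s n hn.1, hn.2, smul_zero, add_zero]

end Pool.Agent.GBUH
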