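import Pool.Agent.Lib.GBU.H.Orb

set_option autoImplicit false

/-!
GBU, block H: every invariant divisor of degree zero is the sum of the divisor of a function fixed by
`F` and of `D + F D` (the count of effective divisors in the classes and `absS`).
-/

namespace Pool.Agent.GBUH

open Pool.Agent.BSDFF Pool.Agent.GBC Pool.Agent.GBU

variable {k K : Type} [Field k] [Field K] [Algebra k K] (G : Geo k K)

section deg

variable (F : K ≃ₐ[k] K) (hF : ∀ x, F (F x) = x)

/-- The degree of an orbit over the field of constants. -/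
noncomputable def dO (o : Orb F hF) : ℕ :=
  open Classical in
  (if fp F (out F hF o) = out F hF o then (out F hF o).degree else 2 * (out F hF o).degree) /
    Module.finrank k (LL (0 : Place k K →₀ ℤ))

include G in
theorem f_pos [Finite k] : 0 < Module.finrank k (LL (0 : Place k K →₀ ℤ)) := by
  obtain ⟨w⟩ := exists_place_geo G
  obtain ⟨m, hm, -⟩ := dvd_degree G w
  have h := G.degree_pos w
  rw [hm] at h
  exact Nat.pos_of_mul_pos_right h |> fun _ => Nat.pos_of_ne_zero fun h0 => by
    rw [h0, zero_mul] at h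
    exact lt_irrefl _ h

include G in
theorem dO_stable [Finite k] (o : Orb F hF) (h : fp F (out F hF o) = out F hF o) :
    Module.finrank k (LL (0 : Place k K →₀ ℤ)) * dO F hF o = (out F hF o).degree := by
  obtain ⟨m, hm, -⟩ := dvd_degree G (out F hF o)
  unfold dO
  rw [if_pos h, hm, Nat.mul_div_cancel_left _ (f_pos G)]

include G in
theorem dO_unstable [Finite k] (o : Orb F hF) (h : fp F (out F hF o) ≠ out F hF o) :
    Module.finrank k (LL (0 : Place k K →₀ ℤ)) * dO F hF o = 2 * (out F hF o).degree ∧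
      Even (dO F hF o) := by
  obtain ⟨m, hm, -⟩ := dvd_degree G (out F hF o)
  have h1 : dO F hF o = 2 * m := by
    unfold dO
    rw [if_neg h, hm, mul_left_comm, Nat.mul_div_cancel_left _ (f_pos G)]
  rw [h1]
  refine ⟨?_, even_two_mul m⟩
  rw [hm]
  ring

include G in
theorem dO_odd [Finite k] (h2 : (2 : k) ≠ 0) {θ : K} (hθ : θ ≠ 0) (hθc : θ ∈ cstF G)
    (hFθ : F θ = -θ) (o : Orb F hF) (h : fp F (out F hF o) = out F hF o) : Odd (dO F hF o) := by
  obtain ⟨m, hm, hm'⟩ := odd_degree G h2 F hF hθ hθc hFθ (out F hF o) h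
  have h1 := dO_stable G F hF o h
  rw [hm'] at h1
  have h3 := Nat.eq_of_mul_eq_mul_left (f_pos G) h1
  rw [h3]
  exact hm

include G in
theorem le_dO [Finite k] (o : Orb F hF) :
    (out F hF o).degree ≤ Module.finrank k (LL (0 : Place k K →₀ ℤ)) * dO F hF o := by
  by_cases h : fp F (out F hF o) = out F hF o
  · rw [dO_stable G F hF o h]
  · rw [(dO_unstable G F hF o h).1]
    omega

include G in
theorem dO_pos [Finite k] (o : Orb F hF) : 0 < dO F hF o := by
  have h1 := le_dO G F hF o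
  have h3 := G.degree_pos (out F hF o)
  refine Nat.pos_of_ne_zero fun h0 => ?_
  rw [h0, mul_zero] at h1
  omega

include G in
theorem finite_dO [Finite k] (n : ℕ) : {o : Orb F hF | dO F hF o ≤ n}.Finite := by
  have h1 := finite_deg_le G (Module.finrank k (LL (0 : Place k K →₀ ℤ)) * n)
  refine Set.Finite.of_finite_image (f := out F hF) (h1.subset ?_) ?_
  · rintro _ ⟨o, ho, rfl⟩
    exact (le_dO G F hF o).trans (Nat.mul_le_mul_left _ ho)
  · intro o _ o' _ h
    rw [← orb_out F hF o, ← orb_out F hF o']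
    exact congrArg _ h

include G in
theorem degD_pull [Finite k] (D : Orb F hF →₀ ℤ) : degD (pull F hF D) =
    Module.finrank k (LL (0 : Place k K →₀ ℤ)) * dg (dO F hF) D := by
  classical
  let φ : (Orb F hF →₀ ℤ) →+ ℤ :=
    { toFun := fun D => Module.finrank k (LL (0 : Place k K →₀ ℤ)) * dg (dO F hF) D
      map_zero' := by
        have h : dg (dO F hF) (0 : Orb F hF →₀ ℤ) = 0 := Finsupp.sum_zero_index
        rw [h, mul_zero]
      map_add' := fun D D' => by rw [dg_add, mul_add] }
  have h : (degHom k K).comp (pull F hF) = φ := by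
    refine Finsupp.addHom_ext fun o n => ?_
    rw [AddMonoidHom.comp_apply, degHom_apply]
    change degD (pull F hF (Finsupp.single o n)) =
      Module.finrank k (LL (0 : Place k K →₀ ℤ)) * dg (dO F hF) (Finsupp.single o n)
    have h1 : dg (dO F hF) (Finsupp.single o n) = n * dO F hF o :=
      Finsupp.sum_single_index (zero_mul _)
    have h3 : ∀ w, pull F hF (Finsupp.single o n) w =
        if w = out F hF o ∨ w = fp F (out F hF o) then n else 0 := by
      intro w
      rw [pull_apply, Finsupp.single_apply]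
      congr 1
      apply propext
      rw [← orb_eq F hF, orb_out]
    rw [h1]
    by_cases hst : fp F (out F hF o) = out F hF o
    · have h4 : pull F hF (Finsupp.single o n) = Finsupp.single (out F hF o) n := by
        ext w
        rw [h3, hst, Finsupp.single_apply]
        by_cases hw : w = out F hF o
        · rw [if_pos (Or.inl hw), if_pos hw.symm]
        · rw [if_neg (by rintro (h | h) <;> exact hw h), if_neg fun h => hw h.symm]
      rw [h4, degD_single, ← dO_stable G F hF o hst]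
      push_cast
      ring
    · have h4 : pull F hF (Finsupp.single o n) = Finsupp.single (out F hF o) n +
          Finsupp.single (fp F (out F hF o)) n := by
        ext w
        rw [h3, Finsupp.add_apply, Finsupp.single_apply, Finsupp.single_apply]
        by_cases ha : w = out F hF o
        · have hb : ¬ fp F (out F hF o) = w := fun h => hst (h.trans ha)
          rw [if_pos (Or.inl ha), if_pos ha.symm, if_neg hb, add_zero]
        · by_cases hb : w = fp F (out F hF o)
          · rw [if_pos (Or.inr hb), if_neg (fun h => ha h.symm), if_pos hb.symm, zero_add]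
          · rw [if_neg (by rintro (h | h); exacts [ha h, hb h]), if_neg (fun h => ha h.symm),
              if_neg (fun h => hb h.symm), add_zero]
      rw [h4, degD_add, degD_single, degD_single, degree_fp G F]
      have h5 := (dO_unstable G F hF o hst).1
      have h6 : ((Module.finrank k (LL (0 : Place k K →₀ ℤ)) * dO F hF o : ℕ) : ℤ) =
        ((2 * (out F hF o).degree : ℕ) : ℤ) := by rw [h5]
      push_cast at h6
      linear_combination (-n) * h6
  exact DFunLike.congr_fun h D

end deg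

section cls

variable (F : K ≃ₐ[k] K) (hF : ∀ x, F (F x) = x)

/-- The divisors of the functions fixed by `F`. -/
def PF : AddSubgroup (Orb F hF →₀ ℤ) where
  carrier := {D | ∃ b : K, b ≠ 0 ∧ F b = b ∧ ∀ w, pull F hF D w = ord w b}
  zero_mem' := ⟨1, one_ne_zero, map_one F, fun w => by rw [map_zero, ord_one]; rfl⟩
  add_mem' := fun {D D'} h h' => by
    obtain ⟨b, hb, hFb, h⟩ := h
    obtain ⟨b', hb', hFb', h'⟩ := h'
    exact ⟨b * b', mul_ne_zero hb hb', by rw [map_mul, hFb, hFb'], fun w => by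
      rw [map_add, Finsupp.add_apply, h, h', ord_mul w hb hb']⟩
  neg_mem' := fun {D} h => by
    obtain ⟨b, hb, hFb, h⟩ := h
    exact ⟨b⁻¹, inv_ne_zero hb, by rw [map_inv₀, hFb], fun w => by
      rw [map_neg, Finsupp.neg_apply, h, ord_inv w hb]⟩

theorem mem_PF {D : Orb F hF →₀ ℤ} :
    D ∈ PF F hF ↔ ∃ b : K, b ≠ 0 ∧ F b = b ∧ ∀ w, pull F hF D w = ord w b := Iff.rfl

include G in
/-- The number of effective divisors in a class. -/
theorem card_cls [Finite k] (D : Orb F hF →₀ ℤ) :
    Nat.card {E : Orb F hF →₀ ℕ // toZ E - D ∈ PF F hF} *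
      Nat.card {u : K // (u ∈ LL (0 : Place k K →₀ ℤ) ∧ F u = u) ∧ u ≠ 0} =
      Nat.card {u : K // (u ∈ LL (pull F hF D) ∧ F u = u) ∧ u ≠ 0} := by
  classical
  rw [← Nat.card_prod]
  refine Nat.card_congr ?_
  have hu : ∀ E : {E : Orb F hF →₀ ℕ // toZ E - D ∈ PF F hF}, ∃ u : K, u ≠ 0 ∧ F u = u ∧
      ∀ w, ((E : Orb F hF →₀ ℕ) (orb F hF w) : ℤ) = D (orb F hF w) + ord w u := by
    rintro ⟨E, u, hu, hFu, huE⟩
    refine ⟨u, hu, hFu, fun w => ?_⟩
    have := huE w
    rw [pull_apply, Finsupp.sub_apply, toZ_apply] at this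
    change (E (orb F hF w) : ℤ) = _
    linarith
  choose u hu0 hFu hu using hu
  have hdiv : ∀ x : {u : K // (u ∈ LL (pull F hF D) ∧ F u = u) ∧ u ≠ 0},
      ∃ E : {E : Orb F hF →₀ ℕ // toZ E - D ∈ PF F hF},
      ∀ w, ((E : Orb F hF →₀ ℕ) (orb F hF w) : ℤ) = D (orb F hF w) + ord w x.1 := by
    rintro ⟨x, ⟨hx, hFx⟩, hx0⟩
    obtain ⟨A, hA⟩ := exists_pdiv G hx0
    have hinv : ∀ w, (pull F hF D + A) (fp F w) = (pull F hF D + A) w := fun w => by
      rw [Finsupp.add_apply, Finsupp.add_apply, pull_apply, pull_apply, orb_fp, hA, hA,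
        ord_fp F w hx0, hFx]
    obtain ⟨B, hB⟩ := exists_pull F hF _ hinv
    have hBw : ∀ w, B (orb F hF w) = D (orb F hF w) + ord w x := fun w => by
      have := DFunLike.congr_fun hB w
      rw [pull_apply, Finsupp.add_apply, pull_apply, hA] at this
      exact this
    have hnn : ∀ o, 0 ≤ B o := fun o => by
      rw [← orb_out F hF o, hBw]
      have := (mem_LL_iff hx0).1 hx (out F hF o)
      rw [pull_apply] at this
      linarith
    let E : Orb F hF →₀ ℕ := B.mapRange Int.toNat rfl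
    have hE : ∀ o, (E o : ℤ) = B o := fun o => by
      change ((B o).toNat : ℤ) = _
      exact Int.toNat_of_nonneg (hnn o)
    refine ⟨⟨E, x, hx0, hFx, fun w => ?_⟩, fun w => ?_⟩
    · rw [pull_apply, Finsupp.sub_apply, toZ_apply, hE, hBw]
      ring
    · change (E (orb F hF w) : ℤ) = _
      rw [hE, hBw]
  choose dv hdv using hdiv
  refine Equiv.ofBijective (fun p => ⟨p.2.1 * u p.1, ⟨?_, ?_⟩, mul_ne_zero p.2.2.2 (hu0 p.1)⟩)
    ⟨?_, ?_⟩
  · rw [mem_LL_iff (mul_ne_zero p.2.2.2 (hu0 p.1))]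
    intro w
    rw [ord_mul w p.2.2.2 (hu0 p.1), ord_eq_zero G p.2.2.2 p.2.2.1.1 w, zero_add, pull_apply]
    have h1 := hu p.1 w
    have h2 : (0 : ℤ) ≤ ((p.1 : Orb F hF →₀ ℕ) (orb F hF w) : ℤ) := Int.natCast_nonneg _
    linarith
  · rw [map_mul, p.2.2.1.2, hFu]
  · intro p p' h
    have h1 : p.2.1 * u p.1 = p'.2.1 * u p'.1 := congrArg Subtype.val h
    have h2 : p.1 = p'.1 := by
      apply Subtype.ext
      ext o
      have h3 := congrArg (ord (out F hF o)) h1
      rw [ord_mul _ p.2.2.2 (hu0 p.1), ord_mul _ p'.2.2.2 (hu0 p'.1),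
        ord_eq_zero G p.2.2.2 p.2.2.1.1, ord_eq_zero G p'.2.2.2 p'.2.2.1.1] at h3
      have h4 := hu p.1 (out F hF o)
      have h5 := hu p'.1 (out F hF o)
      rw [orb_out] at h4 h5
      omega
    rw [h2] at h1
    have h6 := mul_right_cancel₀ (hu0 p'.1) h1
    exact Prod.ext h2 (Subtype.ext h6)
  · intro x
    have h1 := hdv x
    have h2 := hu (dv x)
    have hord : ∀ w : Place k K, ord w (x.1 / u (dv x)) = 0 := by
      intro w
      rw [ord_div w x.2.2 (hu0 _)]
      have h3 := h1 w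
      have h4 := h2 w
      linarith
    refine ⟨⟨dv x, ⟨x.1 / u (dv x), ⟨?_, ?_⟩, div_ne_zero x.2.2 (hu0 _)⟩⟩, ?_⟩
    · rw [mem_LL_iff (div_ne_zero x.2.2 (hu0 _))]
      intro w
      rw [hord w]
      simp
    · rw [map_div₀, x.2.1.2, hFu]
    · apply Subtype.ext
      exact div_mul_cancel₀ _ (hu0 _)

theorem card_ne_zero {P : K → Prop} (h0 : P 0) [Finite {u : K // P u}] :
    Nat.card {u : K // P u ∧ u ≠ 0} = Nat.card {u : K // P u} - 1 := by
  have h1 : ({u : K | P u} \ {0}).ncard = {u : K | P u}.ncard - 1 :=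
    Set.ncard_sdiff_singleton_of_mem h0
  exact h1

end cls

include G in
theorem finite_LLF [Finite k] (F : K ≃ₐ[k] K) (D : Place k K →₀ ℤ) :
    Finite {u : K // u ∈ LL D ∧ F u = u} := by
  have h1 := LL_finite G D
  have h2 : Finite (LL D) := Module.finite_of_finite k
  exact Finite.of_injective (fun x : {u : K // u ∈ LL D ∧ F u = u} => (⟨x.1, x.2.1⟩ : LL D))
    fun x y h => Subtype.ext (congrArg (fun z : LL D => (z : K)) h)

include G in
theorem card_LLF [Finite k] (h2 : (2 : k) ≠ 0) (F : K ≃ₐ[k] K) (hF : ∀ x, F (F x) = x) {θ : K}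
    (hθ : θ ≠ 0) (hθc : θ ∈ cstF G) (hFθ : F θ = -θ) (D : Place k K →₀ ℤ)
    (hD : ∀ w, D (fp F w) = D w) :
    Nat.card {u : K // u ∈ LL D ∧ F u = u} ^ 2 = Nat.card k ^ Module.finrank k (LL D) := by
  have h1 := LL_finite G D
  rw [← Module.natCard_eq_pow_finrank (K := k) (V := LL D)]
  have hord := (mem_cstF_iff G hθ).1 hθc
  refine (sq_card h2 F hF hθ hFθ (LL D) ?_ ?_ ?_).symm
  · intro x hx
    by_cases hx0 : x = 0
    · rw [hx0, map_zero]
      exact (LL D).zero_mem
    · rw [mem_LL_iff (by rw [Ne, map_eq_zero_iff _ F.injective]; exact hx0)]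
      intro w
      rw [← ord_fp F w hx0, ← hD w]
      exact (mem_LL_iff hx0).1 hx _
  · intro x hx
    by_cases hx0 : x = 0
    · rw [hx0, mul_zero]
      exact (LL D).zero_mem
    · rw [mem_LL_iff (mul_ne_zero hθ hx0)]
      intro w
      rw [ord_mul w hθ hx0, hord, zero_add]
      exact (mem_LL_iff hx0).1 hx _
  · intro x hx
    by_cases hx0 : x = 0
    · rw [hx0, mul_zero]
      exact (LL D).zero_mem
    · rw [mem_LL_iff (mul_ne_zero (inv_ne_zero hθ) hx0)]
      intro w
      rw [ord_mul w (inv_ne_zero hθ) hx0, ord_inv w hθ, hord, neg_zero, zero_add]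
      exact (mem_LL_iff hx0).1 hx _

include G in
/-- The invariant divisors of degree zero. -/
theorem norm_div [Finite k] (h2 : (2 : k) ≠ 0) (F : K ≃ₐ[k] K) (hF : ∀ x, F (F x) = x) {θ : K}
    (hθ : θ ≠ 0) (hθc : θ ∈ cstF G) (hFθ : F θ = -θ) (D : Place k K →₀ ℤ)
    (hD : ∀ w, D (fp F w) = D w) (hdeg : degD D = 0) :
    ∃ (b : K) (D₁ : Place k K →₀ ℤ), b ≠ 0 ∧ F b = b ∧
      ∀ w, D w = ord w b + (D₁ + FD F hF D₁) w := by
  classical
  obtain ⟨D', rfl⟩ := exists_pull F hF D hD
  have hf := f_pos G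
  set f := Module.finrank k (LL (0 : Place k K →₀ ℤ)) with hfdef
  have hf0 : (f : ℤ) ≠ 0 := by exact_mod_cast hf.ne'
  have hdg : dg (dO F hF) D' = 0 := by
    rw [degD_pull G F hF] at hdeg
    exact (mul_eq_zero.1 hdeg).resolve_left hf0
  obtain ⟨c, C, hcC⟩ := riemann_eq G
  have hne : Nonempty (Orb F hF) := by
    obtain ⟨w⟩ := exists_place_geo G
    exact ⟨orb F hF w⟩
  have hpos : 0 < Nat.card {u : K // (u ∈ LL (0 : Place k K →₀ ℤ) ∧ F u = u) ∧ u ≠ 0} := by
    have : Finite {u : K // (u ∈ LL (0 : Place k K →₀ ℤ) ∧ F u = u) ∧ u ≠ 0} := by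
      have := finite_LLF G F (0 : Place k K →₀ ℤ)
      exact Finite.of_injective (fun x : {u : K // (u ∈ LL (0 : Place k K →₀ ℤ) ∧ F u = u) ∧ u ≠ 0} =>
        (⟨x.1, x.2.1⟩ : {u : K // u ∈ LL (0 : Place k K →₀ ℤ) ∧ F u = u}))
        fun x y h => Subtype.ext (congrArg
          (fun z : {u : K // u ∈ LL (0 : Place k K →₀ ℤ) ∧ F u = u} => (z : K)) h)
    have : Nonempty {u : K // (u ∈ LL (0 : Place k K →₀ ℤ) ∧ F u = u) ∧ u ≠ 0} := by
      refine ⟨⟨1, ⟨?_, map_one F⟩, one_ne_zero⟩⟩
      rw [mem_LL_iff one_ne_zero]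
      intro w
      rw [ord_one]
      simp
    exact Nat.card_pos
  obtain ⟨A, hA, B, hB, hAB⟩ := absS (dO F hF) (dO_pos G F hF) (finite_dO G F hF) (PF F hF) (by
    intro D hD
    obtain ⟨b, hb, -, h⟩ := hD
    have h3 : degD (pull F hF D) = 0 := degD_prin G ⟨b, hb, h⟩
    rw [degD_pull G F hF] at h3
    exact (mul_eq_zero.1 h3).resolve_left hf0) C.toNat (by
    intro D D' hDD' hN
    have key : ∀ D : Orb F hF →₀ ℤ, (C.toNat : ℤ) ≤ dg (dO F hF) D →
        (Nat.card {u : K // u ∈ LL (pull F hF D) ∧ F u = u} ^ 2 =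
          Nat.card k ^ ((f : ℤ) * dg (dO F hF) D + c).toNat) := by
      intro D hN
      rw [card_LLF G h2 F hF hθ hθc hFθ (pull F hF D) fun w => by
        rw [pull_apply, pull_apply, orb_fp]]
      congr 1
      have h3 := (hcC (pull F hF D)).2 (by
        rw [degD_pull G F hF]
        have h4 := Int.self_le_toNat C
        have h5 : (1 : ℤ) ≤ f := by exact_mod_cast hf
        nlinarith [Int.natCast_nonneg C.toNat])
      rw [degD_pull G F hF] at h3
      rw [← h3, Int.toNat_natCast]
    have k1 := key D hN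
    have k2 := key D' (hDD' ▸ hN)
    rw [← hDD', ← k1] at k2
    have k3 : Nat.card {u : K // u ∈ LL (pull F hF D') ∧ F u = u} =
      Nat.card {u : K // u ∈ LL (pull F hF D) ∧ F u = u} :=
      Nat.pow_left_injective two_ne_zero k2
    have hfi := finite_LLF G F (pull F hF D)
    have hfi' := finite_LLF G F (pull F hF D')
    have c1 := card_cls G F hF D
    have c2 := card_cls G F hF D'
    rw [card_ne_zero (P := fun u => u ∈ LL (pull F hF D) ∧ F u = u)
      ⟨(LL _).zero_mem, map_zero F⟩] at c1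
    rw [card_ne_zero (P := fun u => u ∈ LL (pull F hF D') ∧ F u = u)
      ⟨(LL _).zero_mem, map_zero F⟩, k3, ← c1] at c2
    exact (Nat.eq_of_mul_eq_mul_right hpos c2).symm) D' hdg
  obtain ⟨b, hb, hFb, hAb⟩ := hA
  obtain ⟨D₁, hD₁⟩ := exists_half F hF (pull F hF B) (fun w => by
    rw [pull_apply, pull_apply, orb_fp]) (fun w hw => by
    rw [pull_apply]
    apply hB
    apply dO_odd G F hF h2 hθ hθc hFθ
    rcases out_orb F hF w with h | h
    · rw [h, hw]
    · rw [h, hw, hw])
  refine ⟨b, D₁, hb, hFb, fun w => ?_⟩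
  rw [hAB, map_add, Finsupp.add_apply, hAb, ← hD₁]

end Pool.Agent.GBUH
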