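import Pool.Agent.Lib.GBU.H.NormA
import Pool.Agent.Lib.GBU.H.AbsC

set_option autoImplicit false

/-!
GBU, block H: the norm theorem for a quadratic constant extension of global function fields, `F` = the
involution: a fixed element with even order at the places stable under `F` is a norm `b * F b`.
-/

namespace Pool.Agent.GBUH

open Pool.Agent.BSDFF Pool.Agent.GBC Pool.Agent.GBU

variable {k K : Type} [Field k] [Field K] [Algebra k K] (G : Geo k K)

include G in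
private theorem cst_of_ord {F : K ≃ₐ[k] K} {x y : K} (hx : x ≠ 0) (hy : y ≠ 0) (hFx : F x = x)
    (hFy : F y = y) (h : ∀ w : Place k K, ord w x = ord w y) :
    x / y ∈ cstF G ∧ F (x / y) = x / y ∧ x / y ≠ 0 := by
  refine ⟨(mem_cstF_iff G (div_ne_zero hx hy)).2 fun w => ?_, ?_, div_ne_zero hx hy⟩
  · rw [ord_div w hx hy, h w, sub_self]
  · rw [map_div₀, hFx, hFy]

/-- The norm theorem. -/
theorem norm_thm [Finite k] (h2 : (2 : k) ≠ 0) (F : K ≃ₐ[k] K) (hF : ∀ x, F (F x) = x) {θ : K}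
    (hθ : θ ≠ 0) (hθc : θ ∈ cstF G) (hFθ : F θ = -θ) {a : K} (ha : a ≠ 0) (hFa : F a = a)
    (he : ∀ w : Place k K, fp F w = w → Even (ord w a)) : ∃ b : K, b ≠ 0 ∧ a = b * F b := by
  classical
  have hne : ∀ {y : K}, y ≠ 0 → F y ≠ 0 := fun {y} hy => by
    rw [Ne, map_eq_zero_iff _ F.injective]
    exact hy
  -- the divisor of `a`
  obtain ⟨D, hD⟩ := exists_pdiv G ha
  obtain ⟨D₁, hD₁⟩ := exists_half F hF D (fun w => by rw [hD, hD, ord_fp F w ha, hFa])
    (fun w hw => by rw [hD]; exact he w hw)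
  have hdegD : degD D = 0 := degD_prin G ⟨a, ha, hD⟩
  have hdeg1 : degD D₁ = 0 := by
    rw [hD₁, degD_add, degD_FD G] at hdegD
    omega
  -- the group of the classes of degree zero
  let Z := (degHom k K).ker
  let P : AddSubgroup Z := (Prin k K).addSubgroupOf Z
  have hfin : Finite (Z ⧸ P) := finite_pic0 G
  have hmap : ∀ x ∈ Z, FD F hF x ∈ Z := fun x hx => by
    have hx' : degD x = 0 := hx
    change degD (FD F hF x) = 0
    rw [degD_FD G, hx']
  let FZ : Z →+ Z := ((FD F hF).comp Z.subtype).codRestrict Z fun x => hmap x x.2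
  let FQ : Z ⧸ P →+ Z ⧸ P := QuotientAddGroup.map P P FZ (by
    intro x hx
    exact FD_mem_Prin F hF hx)
  have hFQ : ∀ x : Z, FQ (QuotientAddGroup.mk x) = QuotientAddGroup.mk (FZ x) := fun x => rfl
  have hFQ2 : ∀ x, FQ (FQ x) = x := by
    intro x
    obtain ⟨x, rfl⟩ := QuotientAddGroup.mk_surjective x
    rw [hFQ, hFQ]
    congr 1
    exact Subtype.ext (FD_FD F hF x)
  have hmk : ∀ x y : Z, (QuotientAddGroup.mk x : Z ⧸ P) = QuotientAddGroup.mk y ↔
      ((x : Place k K →₀ ℤ) - y) ∈ Prin k K := by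
    intro x y
    rw [eq_comm, QuotientAddGroup.eq]
    change ((-y + x : Z) : Place k K →₀ ℤ) ∈ Prin k K ↔ _
    rw [AddSubgroup.coe_add, AddSubgroup.coe_neg, neg_add_eq_sub]
  -- fixed classes are norms
  have hs : ∀ x, FQ x = x → ∃ y, x = y + FQ y := by
    intro x hx
    obtain ⟨x, rfl⟩ := QuotientAddGroup.mk_surjective x
    rw [hFQ, hmk] at hx
    obtain ⟨g, hg, hgx⟩ := hx
    have hxdeg : degD (x : Place k K →₀ ℤ) = 0 := x.2
    have hgx' : ∀ w, (x : Place k K →₀ ℤ) (fp F w) - (x : Place k K →₀ ℤ) w = ord w g := hgx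
    -- `g * F g` is a constant
    have hgF : g * F g ∈ cstF G := by
      rw [mem_cstF_iff G (mul_ne_zero hg (hne hg))]
      intro w
      rw [ord_mul w hg (hne hg), ← ord_fp F w hg, ← hgx', ← hgx', fp_fp F hF]
      ring
    obtain ⟨d, hdc, hd0, hd⟩ := norm_cst G h2 F hF hθ hθc hFθ (mul_ne_zero hg (hne hg)) hgF
      (by rw [map_mul, hF, mul_comm])
    have hgd : (g / d) * F (g / d) = 1 := by
      rw [map_div₀, div_mul_div_comm, hd, div_self (mul_ne_zero hd0 (hne hd0))]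
    obtain ⟨e, he0, hee⟩ := h90_two (F : K ≃+* K) hθ hFθ hgd
    have hee' : F e = g / d * e := hee
    have horde : ∀ w : Place k K, ord w (F e) = ord w g + ord w e := by
      intro w
      rw [hee', ord_mul w (div_ne_zero hg hd0) he0, ord_div w hg hd0,
        (mem_cstF_iff G hd0).1 hdc, sub_zero]
    obtain ⟨E, hE⟩ := exists_pdiv G he0
    have hEdeg : degD E = 0 := degD_prin G ⟨e, he0, hE⟩
    obtain ⟨b, D₂, hb, hFb, hbD⟩ := norm_div G h2 F hF hθ hθc hFθ ((x : Place k K →₀ ℤ) - E)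
      (fun w => by
        rw [Finsupp.sub_apply, Finsupp.sub_apply, hE, hE, ord_fp F w he0, horde]
        have := hgx' w
        linarith) (by rw [degD_sub, hxdeg, hEdeg, sub_zero])
    have hD₂ : degD D₂ = 0 := by
      obtain ⟨B, hB⟩ := exists_pdiv G hb
      have hBdeg : degD B = 0 := degD_prin G ⟨b, hb, hB⟩
      have h1 : (x : Place k K →₀ ℤ) - E = B + (D₂ + FD F hF D₂) := by
        ext w
        rw [hbD w, Finsupp.add_apply B, hB w]
      have h3 := congrArg degD h1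
      rw [degD_sub, degD_add, degD_add, degD_FD G, hxdeg, hEdeg, hBdeg] at h3
      omega
    refine ⟨QuotientAddGroup.mk (⟨D₂, hD₂⟩ : Z), ?_⟩
    rw [hFQ, ← QuotientAddGroup.mk_add, hmk]
    refine ⟨b * e, mul_ne_zero hb he0, fun w => ?_⟩
    rw [ord_mul w hb he0]
    have h1 := hbD w
    rw [Finsupp.sub_apply, hE] at h1
    have h3 : ((⟨D₂, hD₂⟩ : Z) + FZ ⟨D₂, hD₂⟩ : Z) = (⟨D₂ + FD F hF D₂,
      ((⟨D₂, hD₂⟩ : Z) + FZ ⟨D₂, hD₂⟩ : Z).2⟩ : Z) := rfl
    rw [h3, Finsupp.sub_apply]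
    change (x : Place k K →₀ ℤ) w - (D₂ + FD F hF D₂) w = _
    linarith
  -- the class of `D₁`
  obtain ⟨y, hy⟩ := absC FQ hFQ2 hs (QuotientAddGroup.mk (⟨D₁, hdeg1⟩ : Z)) (by
    rw [hFQ, ← QuotientAddGroup.mk_add, ← QuotientAddGroup.mk_zero, hmk]
    refine ⟨a, ha, fun w => ?_⟩
    rw [← hD w, hD₁]
    simp only [AddSubgroup.coe_zero, sub_zero]
    rfl)
  obtain ⟨y, rfl⟩ := QuotientAddGroup.mk_surjective y
  rw [hFQ, ← QuotientAddGroup.mk_sub, hmk] at hy
  obtain ⟨c, hc, hcD⟩ := hy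
  have hcD' : ∀ w, D₁ w - ((y : Place k K →₀ ℤ) (fp F w) - (y : Place k K →₀ ℤ) w) = ord w c :=
    hcD
  have hcF : c * F c ≠ 0 := mul_ne_zero hc (hne hc)
  have hord : ∀ w : Place k K, ord w a = ord w (c * F c) := by
    intro w
    rw [← hD w, hD₁, Finsupp.add_apply, FD_apply, ord_mul w hc (hne hc), ← ord_fp F w hc,
      ← hcD' w, ← hcD' (fp F w), fp_fp F hF]
    ring
  obtain ⟨h3, h4, h5⟩ := cst_of_ord G ha hcF hFa (by rw [map_mul, hF, mul_comm]) hord
  obtain ⟨d, hdc, hd0, hd⟩ := norm_cst G h2 F hF hθ hθc hFθ h5 h3 h4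
  refine ⟨c * d, mul_ne_zero hc hd0, ?_⟩
  rw [div_eq_iff hcF] at hd
  rw [hd, map_mul]
  ring

end Pool.Agent.GBUH
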