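import Pool.Agent.Lib.GBU.H.Parity
import Pool.Agent.Lib.GBU.H.AbsS

set_option autoImplicit false

/-!
GBU, block H: the action of the involution `F` on the divisors, the orbits of places, the invariant
divisors as divisors on the set of the orbits.
-/

namespace Pool.Agent.GBUH

open Pool.Agent.BSDFF Pool.Agent.GBC Pool.Agent.GBU

variable {k K : Type} [Field k] [Field K] [Algebra k K]

theorem two_ne (h2 : (2 : k) ≠ 0) : (2 : K) ≠ 0 := by
  intro h
  apply h2
  apply (algebraMap k K).injective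
  rw [map_ofNat, h, map_zero]

/-- The number of the fixed elements of a stable space. -/
theorem sq_card (h2 : (2 : k) ≠ 0) (F : K ≃ₐ[k] K) (hF : ∀ x, F (F x) = x) {θ : K} (hθ : θ ≠ 0)
    (hFθ : F θ = -θ) (V : Submodule k K) (hV : ∀ x ∈ V, F x ∈ V) (hθV : ∀ x ∈ V, θ * x ∈ V)
    (hθV' : ∀ x ∈ V, θ⁻¹ * x ∈ V) :
    Nat.card V = Nat.card {u : K // u ∈ V ∧ F u = u} ^ 2 := by
  have h2K : (2 : K) ≠ 0 := two_ne h2
  let e : {u : K // u ∈ V ∧ F u = u} × {u : K // u ∈ V ∧ F u = u} → V :=
    fun p => ⟨p.1 + θ * p.2, V.add_mem p.1.2.1 (hθV _ p.2.2.1)⟩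
  have hhalf : ∀ x ∈ V, x / 2 ∈ V := fun x hx => by
    have h1 : x / 2 = (2⁻¹ : k) • x := by
      rw [Algebra.smul_def, map_inv₀, map_ofNat]
      ring
    rw [h1]
    exact V.smul_mem _ hx
  have he : Function.Bijective e := by
    constructor
    · rintro ⟨a, b⟩ ⟨a', b'⟩ h
      have h1 : (a : K) + θ * b = a' + θ * b' := congrArg Subtype.val h
      have h3 := congrArg F h1
      rw [map_add, map_add, map_mul, map_mul, a.2.2, a'.2.2, b.2.2, b'.2.2, hFθ] at h3
      have h4 : (2 : K) * ((a : K) - a') = 0 := by linear_combination h1 + h3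
      have h5 : (a : K) = a' := sub_eq_zero.1 ((mul_eq_zero.1 h4).resolve_left h2K)
      have h6 : θ * ((b : K) - b') = 0 := by linear_combination h1 - h5
      have h7 : (b : K) = b' := sub_eq_zero.1 ((mul_eq_zero.1 h6).resolve_left hθ)
      exact Prod.ext (Subtype.ext h5) (Subtype.ext h7)
    · intro x
      have h1 : F ((x + F x) / 2) = (x + F x) / 2 := by
        rw [map_div₀, map_add, hF, map_ofNat, add_comm]
      have h3 : F (θ⁻¹ * ((x - F x) / 2)) = θ⁻¹ * ((x - F x) / 2) := by
        rw [map_mul, map_inv₀, hFθ, map_div₀, map_sub, hF, map_ofNat, inv_neg]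
        ring
      refine ⟨(⟨_, hhalf _ (V.add_mem x.2 (hV _ x.2)), h1⟩,
        ⟨_, hθV' _ (hhalf _ (V.sub_mem x.2 (hV _ x.2))), h3⟩), Subtype.ext ?_⟩
      change ((x : K) + F x) / 2 + θ * (θ⁻¹ * ((x - F x) / 2)) = x
      rw [mul_inv_cancel_left₀ hθ]
      field_simp
      ring
  rw [← Nat.card_congr (Equiv.ofBijective e he), Nat.card_prod, pow_two]

/-! ### The action on the divisors -/

/-- `fp F` as a permutation. -/
noncomputable def fpE (F : K ≃ₐ[k] K) (hF : ∀ x, F (F x) = x) : Place k K ≃ Place k K :=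
  ⟨fp F, fp F, fp_fp F hF, fp_fp F hF⟩

/-- `F` on the divisors. -/
noncomputable def FD (F : K ≃ₐ[k] K) (hF : ∀ x, F (F x) = x) :
    (Place k K →₀ ℤ) →+ (Place k K →₀ ℤ) :=
  (Finsupp.domCongr (fpE F hF)).toAddMonoidHom

theorem FD_apply (F : K ≃ₐ[k] K) (hF : ∀ x, F (F x) = x) (D : Place k K →₀ ℤ) (w : Place k K) :
    FD F hF D w = D (fp F w) := rfl

theorem FD_FD (F : K ≃ₐ[k] K) (hF : ∀ x, F (F x) = x) (D : Place k K →₀ ℤ) :
    FD F hF (FD F hF D) = D := by
  ext w
  rw [FD_apply, FD_apply, fp_fp F hF]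

theorem FD_single (F : K ≃ₐ[k] K) (hF : ∀ x, F (F x) = x) (w : Place k K) (n : ℤ) :
    FD F hF (Finsupp.single w n) = Finsupp.single (fp F w) n := by
  classical
  ext v
  rw [FD_apply, Finsupp.single_apply, Finsupp.single_apply]
  congr 1
  apply propext
  constructor
  · intro h
    rw [h, fp_fp F hF]
  · intro h
    rw [← h, fp_fp F hF]

theorem degD_FD [Finite k] (G : Geo k K) (F : K ≃ₐ[k] K) (hF : ∀ x, F (F x) = x)
    (D : Place k K →₀ ℤ) : degD (FD F hF D) = degD D := by
  have h : (degHom k K).comp (FD F hF) = degHom k K := by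
    refine Finsupp.addHom_ext fun w n => ?_
    rw [AddMonoidHom.comp_apply, FD_single, degHom_apply, degHom_apply, degD_single, degD_single,
      degree_fp G F w]
  exact DFunLike.congr_fun h D

theorem FD_mem_Prin (F : K ≃ₐ[k] K) (hF : ∀ x, F (F x) = x) {D : Place k K →₀ ℤ}
    (hD : D ∈ Prin k K) : FD F hF D ∈ Prin k K := by
  obtain ⟨x, hx, h⟩ := hD
  refine ⟨F x, ?_, fun w => ?_⟩
  · rw [Ne, map_eq_zero_iff _ F.injective]
    exact hx
  · rw [FD_apply, h, ord_fp F w hx]

/-! ### The orbits -/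

/-- The orbits of the places. -/
def orbSt (F : K ≃ₐ[k] K) (hF : ∀ x, F (F x) = x) : Setoid (Place k K) where
  r w w' := w' = w ∨ w' = fp F w
  iseqv :=
    { refl := fun _ => Or.inl rfl
      symm := fun {w w'} h => by
        rcases h with rfl | rfl
        · exact Or.inl rfl
        · exact Or.inr (fp_fp F hF w).symm
      trans := fun {w w' w''} h h' => by
        rcases h with rfl | rfl
        · exact h'
        · rcases h' with rfl | rfl
          · exact Or.inr rfl
          · exact Or.inl (fp_fp F hF w) }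

/-- The set of the orbits. -/
def Orb (F : K ≃ₐ[k] K) (hF : ∀ x, F (F x) = x) : Type := Quotient (orbSt F hF)

/-- The orbit of a place. -/
def orb (F : K ≃ₐ[k] K) (hF : ∀ x, F (F x) = x) (w : Place k K) : Orb F hF :=
  Quotient.mk (orbSt F hF) w

/-- A representative. -/
noncomputable def out (F : K ≃ₐ[k] K) (hF : ∀ x, F (F x) = x) (o : Orb F hF) : Place k K :=
  Quotient.out (s := orbSt F hF) o

theorem orb_out (F : K ≃ₐ[k] K) (hF : ∀ x, F (F x) = x) (o : Orb F hF) :
    orb F hF (out F hF o) = o := Quotient.out_eq (s := orbSt F hF) o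

theorem orb_eq (F : K ≃ₐ[k] K) (hF : ∀ x, F (F x) = x) {w w' : Place k K} :
    orb F hF w = orb F hF w' ↔ w' = w ∨ w' = fp F w :=
  Quotient.eq (r := orbSt F hF)

theorem orb_fp (F : K ≃ₐ[k] K) (hF : ∀ x, F (F x) = x) (w : Place k K) :
    orb F hF (fp F w) = orb F hF w := (orb_eq F hF).2 (Or.inr (fp_fp F hF w).symm)

theorem out_orb (F : K ≃ₐ[k] K) (hF : ∀ x, F (F x) = x) (w : Place k K) :
    out F hF (orb F hF w) = w ∨ out F hF (orb F hF w) = fp F w := by
  have h := orb_out F hF (orb F hF w)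
  exact (orb_eq F hF).1 h.symm

theorem finite_fiber (F : K ≃ₐ[k] K) (hF : ∀ x, F (F x) = x) (s : Set (Orb F hF)) (hs : s.Finite) :
    (orb F hF ⁻¹' s).Finite := by
  have h : orb F hF ⁻¹' s ⊆ out F hF '' s ∪ fp F '' (out F hF '' s) := by
    intro w hw
    rcases out_orb F hF w with h | h
    · exact Or.inl ⟨_, hw, h⟩
    · refine Or.inr ⟨_, ⟨_, hw, rfl⟩, ?_⟩
      rw [h, fp_fp F hF]
  exact ((hs.image _).union ((hs.image _).image _)).subset h

/-- A divisor on the orbits as a divisor. -/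
noncomputable def pull (F : K ≃ₐ[k] K) (hF : ∀ x, F (F x) = x) :
    (Orb F hF →₀ ℤ) →+ (Place k K →₀ ℤ) where
  toFun D := Finsupp.ofSupportFinite (fun w => D (orb F hF w))
    (finite_fiber F hF {o | D o ≠ 0} D.finite_support)
  map_zero' := by
    ext w
    rfl
  map_add' D D' := by
    ext w
    rfl

theorem pull_apply (F : K ≃ₐ[k] K) (hF : ∀ x, F (F x) = x) (D : Orb F hF →₀ ℤ) (w : Place k K) :
    pull F hF D w = D (orb F hF w) := rfl

theorem FD_pull (F : K ≃ₐ[k] K) (hF : ∀ x, F (F x) = x) (D : Orb F hF →₀ ℤ) :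
    FD F hF (pull F hF D) = pull F hF D := by
  ext w
  rw [FD_apply, pull_apply, pull_apply, orb_fp]

/-- Every invariant divisor comes from the orbits. -/
theorem exists_pull (F : K ≃ₐ[k] K) (hF : ∀ x, F (F x) = x) (D : Place k K →₀ ℤ)
    (hD : ∀ w, D (fp F w) = D w) : ∃ D' : Orb F hF →₀ ℤ, pull F hF D' = D := by
  refine ⟨Finsupp.ofSupportFinite (fun o => D (out F hF o)) ?_, ?_⟩
  · have h : Function.support (fun o => D (out F hF o)) ⊆ orb F hF '' (D.support : Set _) := by
      intro o ho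
      refine ⟨out F hF o, ?_, orb_out F hF o⟩
      rw [Finset.mem_coe, Finsupp.mem_support_iff]
      exact ho
    exact (D.support.finite_toSet.image _).subset h
  · ext w
    rw [pull_apply]
    change D (out F hF (orb F hF w)) = D w
    rcases out_orb F hF w with h | h
    · rw [h]
    · rw [h, hD]

/-- `D = D₁ + F D₁` for an invariant divisor, even at the stable places. -/
theorem exists_half (F : K ≃ₐ[k] K) (hF : ∀ x, F (F x) = x) (D : Place k K →₀ ℤ)
    (hD : ∀ w, D (fp F w) = D w) (he : ∀ w, fp F w = w → Even (D w)) :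
    ∃ D₁ : Place k K →₀ ℤ, D = D₁ + FD F hF D₁ := by
  classical
  let g : Place k K → ℤ := fun w => if fp F w = w then D w / 2 else
    if out F hF (orb F hF w) = w then D w else 0
  have hg : Function.support g ⊆ (D.support : Set (Place k K)) := by
    intro w hw
    rw [Finset.mem_coe, Finsupp.mem_support_iff]
    intro h
    apply hw
    change (if fp F w = w then D w / 2 else if out F hF (orb F hF w) = w then D w else 0) = 0
    rw [h]
    simp
  refine ⟨Finsupp.ofSupportFinite g (D.support.finite_toSet.subset hg), ?_⟩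
  ext w
  rw [Finsupp.add_apply, FD_apply]
  change D w = g w + g (fp F w)
  by_cases h : fp F w = w
  · have h1 : g w = D w / 2 := if_pos h
    rw [h, h1]
    obtain ⟨m, hm⟩ := he w h
    omega
  · have h' : ¬ fp F (fp F w) = fp F w := fun h' => h (by rw [fp_fp F hF] at h'; exact h'.symm)
    have h1 : g w = if out F hF (orb F hF w) = w then D w else 0 := if_neg h
    have h2 : g (fp F w) = if out F hF (orb F hF (fp F w)) = fp F w then D (fp F w) else 0 :=
      if_neg h'
    rw [h1, h2, orb_fp, hD]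
    rcases out_orb F hF w with h3 | h3
    · rw [h3, if_pos rfl, if_neg (fun h4 => h h4.symm), add_zero]
    · rw [h3, if_neg h, if_pos rfl, zero_add]

end Pool.Agent.GBUH
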