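import Pool.Agent.Lib.GBU.H.Const

set_option autoImplicit false

/-!
GBU, block H: at a place stable under the involution `F` (which is not the identity on the
constants) the degree of the residue field over the field of constants is odd.
-/

namespace Pool.Agent.GBUH

open Pool.Agent.BSDFF Pool.Agent.GBC Pool.Agent.GBU Polynomial

theorem mem_subfield_of_pow {R : Type*} [Field R] (S : Subfield R) [hS : Finite S] {x : R}
    (h : x ^ Nat.card S = x) : x ∈ S := by
  classical
  have : Fintype S := Fintype.ofFinite S
  have hq : 1 < Nat.card S := Finite.one_lt_card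
  have h0 : (X ^ (Nat.card S) - X : Polynomial R) ≠ 0 := FiniteField.X_pow_card_sub_X_ne_zero R hq
  have hdeg : (X ^ (Nat.card S) - X : Polynomial R).natDegree = Nat.card S :=
    FiniteField.X_pow_card_sub_X_natDegree_eq R hq
  have hroot : ∀ x : R, x ∈ (X ^ (Nat.card S) - X : Polynomial R).roots.toFinset ↔
      x ^ Nat.card S = x := by
    intro x
    rw [Multiset.mem_toFinset, mem_roots h0, IsRoot.def, eval_sub, eval_pow, eval_X, sub_eq_zero]
  have hsub : Finset.univ.image (Subtype.val : S → R) ⊆
      (X ^ (Nat.card S) - X : Polynomial R).roots.toFinset := by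
    intro x hx
    obtain ⟨a, -, rfl⟩ := Finset.mem_image.1 hx
    rw [hroot, Nat.card_eq_fintype_card]
    have := FiniteField.pow_card a
    exact congrArg Subtype.val this
  have hcard : (X ^ (Nat.card S) - X : Polynomial R).roots.toFinset.card ≤
      (Finset.univ.image (Subtype.val : S → R)).card := by
    rw [Finset.card_image_of_injective _ Subtype.val_injective, Finset.card_univ]
    calc _ ≤ Multiset.card (X ^ (Nat.card S) - X : Polynomial R).roots :=
          Multiset.toFinset_card_le _
      _ ≤ (X ^ (Nat.card S) - X : Polynomial R).natDegree := card_roots' _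
      _ = _ := by rw [hdeg, Nat.card_eq_fintype_card]
  have heq := Finset.eq_of_subset_of_card_le hsub hcard
  have h1 : x ∈ Finset.univ.image (Subtype.val : S → R) := by
    rw [heq, hroot]
    exact h
  obtain ⟨a, -, ha⟩ := Finset.mem_image.1 h1
  rw [← ha]
  exact a.2

/-- The fixed field of an involution `s` with `s θ = - θ`. -/
theorem card_fixed {R : Type*} [Field R] [Finite R] (s : R ≃+* R) (hs : ∀ x, s (s x) = x)
    (h2 : (2 : R) ≠ 0) {θ : R} (hθ : θ ≠ 0) (hsθ : s θ = -θ) :
    ∃ S : Subfield R, (∀ x, x ∈ S ↔ s x = x) ∧ Nat.card R = Nat.card S ^ 2 := by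
  let S : Subfield R :=
    { carrier := {x | s x = x}
      zero_mem' := map_zero s
      one_mem' := map_one s
      mul_mem' := fun {a b} ha hb => by
        have ha' : s a = a := ha
        have hb' : s b = b := hb
        change s (a * b) = a * b
        rw [map_mul, ha', hb']
      neg_mem' := fun {a} ha => by
        have ha' : s a = a := ha
        change s (-a) = -a
        rw [map_neg, ha']
      inv_mem' := fun a ha => by
        have ha' : s a = a := ha
        change s a⁻¹ = a⁻¹
        rw [map_inv₀, ha']
      add_mem' := fun {a b} ha hb => by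
        have ha' : s a = a := ha
        have hb' : s b = b := hb
        change s (a + b) = a + b
        rw [map_add, ha', hb'] }
  refine ⟨S, fun x => Iff.rfl, ?_⟩
  have hfix : ∀ x : S, s (x : R) = x := fun x => x.2
  let e : S × S → R := fun p => p.1 + θ * p.2
  have he : Function.Bijective e := by
    constructor
    · rintro ⟨a, b⟩ ⟨a', b'⟩ h
      have h1 : (a : R) + θ * b = a' + θ * b' := h
      have h3 := congrArg s h1
      rw [map_add, map_add, map_mul, map_mul, hfix, hfix, hfix, hfix, hsθ] at h3
      have h4 : (2 : R) * ((a : R) - a') = 0 := by linear_combination h1 + h3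
      have h5 : (a : R) = a' := sub_eq_zero.1 ((mul_eq_zero.1 h4).resolve_left h2)
      have h6 : θ * ((b : R) - b') = 0 := by linear_combination h1 - h5
      have h7 : (b : R) = b' := sub_eq_zero.1 ((mul_eq_zero.1 h6).resolve_left hθ)
      exact Prod.ext (Subtype.ext h5) (Subtype.ext h7)
    · intro x
      have h1 : (x + s x) / 2 ∈ S := by
        change s ((x + s x) / 2) = (x + s x) / 2
        rw [map_div₀, map_add, hs, map_ofNat, add_comm]
      have h3 : (x - s x) / (2 * θ) ∈ S := by
        change s ((x - s x) / (2 * θ)) = (x - s x) / (2 * θ)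
        rw [map_div₀, map_sub, hs, map_mul, map_ofNat, hsθ]
        rw [div_eq_div_iff (mul_ne_zero h2 (neg_ne_zero.2 hθ)) (mul_ne_zero h2 hθ)]
        ring
      refine ⟨(⟨_, h1⟩, ⟨_, h3⟩), ?_⟩
      change (x + s x) / 2 + θ * ((x - s x) / (2 * θ)) = x
      field_simp
      ring
  rw [← Nat.card_congr (Equiv.ofBijective e he), Nat.card_prod, pow_two]

variable {k K : Type} [Field k] [Field K] [Algebra k K] (G : Geo k K)

/-- The number of constants. -/
theorem card_cstF [Finite k] :
    Nat.card (cstF G) = Nat.card k ^ Module.finrank k (LL (0 : Place k K →₀ ℤ)) := by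
  have h1 := LL_finite G (0 : Place k K →₀ ℤ)
  rw [← Module.natCard_eq_pow_finrank (K := k) (V := LL (0 : Place k K →₀ ℤ))]
  exact Nat.card_congr
    { toFun := fun x => ⟨x, (cstF_eq_LL G x).1 x.2⟩
      invFun := fun x => ⟨x, (cstF_eq_LL G x).2 x.2⟩
      left_inv := fun x => rfl
      right_inv := fun x => rfl }

/-- The involution on the valuation ring of a stable place. -/
noncomputable def stEquiv (F : K ≃ₐ[k] K) (hF : ∀ x, F (F x) = x) (w : Place k K)
    (hw : fp F w = w) : w.ring ≃+* w.ring :=
  have h : ∀ x, x ∈ w.ring → F x ∈ w.ring := fun x hx => by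
    rw [← mem_fp, hw]
    exact hx
  { toFun := fun x => ⟨F x, h x x.2⟩
    invFun := fun x => ⟨F x, h x x.2⟩
    left_inv := fun x => Subtype.ext (hF x)
    right_inv := fun x => Subtype.ext (hF x)
    map_mul' := fun x y => Subtype.ext (map_mul F _ _)
    map_add' := fun x y => Subtype.ext (map_add F _ _) }

/-- the constants in the valuation ring -/
noncomputable def cstRing (w : Place k K) : cstF G →+* w.ring where
  toFun x := ⟨x, by
    by_cases hx : (x : K) = 0
    · rw [hx]
      exact w.ring.zero_mem
    · rw [mem_ring_iff w hx, (mem_cstF_iff G hx).1 x.2 w]⟩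
  map_zero' := rfl
  map_one' := rfl
  map_mul' _ _ := rfl
  map_add' _ _ := rfl

/-- the constants in the residue field -/
noncomputable def cstRes (w : Place k K) : cstF G →+* IsLocalRing.ResidueField w.ring :=
  (IsLocalRing.residue w.ring).comp (cstRing G w)

theorem dvd_degree [Finite k] (w : Place k K) :
    ∃ m : ℕ, w.degree = Module.finrank k (LL (0 : Place k K →₀ ℤ)) * m ∧
      Nat.card (IsLocalRing.ResidueField w.ring) = Nat.card (cstF G) ^ m := by
  have hfin : Finite (cstF G) := finite_cstF G
  have hfinR := G.finite_residue w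
  letI : Algebra (cstF G) (IsLocalRing.ResidueField w.ring) := (cstRes G w).toAlgebra
  have h1 := Module.natCard_eq_pow_finrank (K := cstF G) (V := IsLocalRing.ResidueField w.ring)
  refine ⟨Module.finrank (cstF G) (IsLocalRing.ResidueField w.ring), ?_, h1⟩
  have h3 := h1
  rw [G.card_residue w, card_cstF G, ← pow_mul] at h3
  exact Nat.pow_right_injective (Finite.one_lt_card (α := k)) h3

theorem odd_degree [Finite k] (h2 : (2 : k) ≠ 0) (F : K ≃ₐ[k] K) (hF : ∀ x, F (F x) = x) {θ : K}
    (hθ : θ ≠ 0) (hθc : θ ∈ cstF G) (hFθ : F θ = -θ) (w : Place k K) (hw : fp F w = w) :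
    ∃ m : ℕ, Odd m ∧ w.degree = Module.finrank k (LL (0 : Place k K →₀ ℤ)) * m := by
  classical
  obtain ⟨m, hm, hcard⟩ := dvd_degree G w
  refine ⟨m, ?_, hm⟩
  by_contra hodd
  rw [Nat.not_odd_iff_even] at hodd
  obtain ⟨l, hl⟩ := hodd
  have hfin : Finite (cstF G) := finite_cstF G
  have hfinR := G.finite_residue w
  let s : IsLocalRing.ResidueField w.ring ≃+* IsLocalRing.ResidueField w.ring :=
    IsLocalRing.ResidueField.mapEquiv (stEquiv F hF w hw)
  have hs : ∀ x : w.ring, s (IsLocalRing.residue w.ring x)
      = IsLocalRing.residue w.ring (stEquiv F hF w hw x) := fun x => rfl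
  have hss : ∀ x, s (s x) = x := by
    intro x
    obtain ⟨y, rfl⟩ := IsLocalRing.residue_surjective x
    rw [hs, hs]
    congr 1
    exact Subtype.ext (hF y)
  set T : IsLocalRing.ResidueField w.ring := cstRes G w ⟨θ, hθc⟩ with hT
  have hT0 : T ≠ 0 := by
    rw [hT, Ne, map_eq_zero_iff _ (cstRes G w).injective]
    intro h
    exact hθ (congrArg Subtype.val h)
  have hsT : s T = -T := by
    change s (IsLocalRing.residue w.ring (cstRing G w ⟨θ, hθc⟩)) = _
    rw [hs, hT]
    change _ = -(IsLocalRing.residue w.ring (cstRing G w ⟨θ, hθc⟩))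
    rw [← map_neg]
    congr 1
    exact Subtype.ext hFθ
  have h2R : (2 : IsLocalRing.ResidueField w.ring) ≠ 0 := by
    intro h
    apply h2
    apply w.constMap.injective
    rw [map_ofNat, h, map_zero]
  obtain ⟨S, hS, hcS⟩ := card_fixed s hss h2R hT0 hsT
  have hcS' : Nat.card S = Nat.card (cstF G) ^ l := by
    rw [hcard, hl] at hcS
    have : (Nat.card (cstF G) ^ l) ^ 2 = Nat.card S ^ 2 := by
      rw [← hcS, ← pow_mul, mul_two]
    exact (Nat.pow_left_injective two_ne_zero this).symm
  have hpow : T ^ Nat.card (cstF G) = T := by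
    have : Fintype (cstF G) := Fintype.ofFinite _
    rw [hT, ← map_pow, Nat.card_eq_fintype_card, FiniteField.pow_card]
  have hpow' : ∀ j : ℕ, T ^ (Nat.card (cstF G) ^ j) = T := by
    intro j
    induction j with
    | zero => rw [pow_zero, pow_one]
    | succ j ih => rw [pow_succ, pow_mul, ih, hpow]
  have hmem : T ∈ S := mem_subfield_of_pow S (by rw [hcS', hpow' l])
  rw [hS, hsT] at hmem
  have h3 : (2 : IsLocalRing.ResidueField w.ring) * T = 0 := by linear_combination -hmem
  exact hT0 ((mul_eq_zero.1 h3).resolve_left h2R)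

end Pool.Agent.GBUH
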