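import Pool.Agent.Lib.SM.C.Dfc
import Pool.Agent.Lib.SM.C.GL

set_option autoImplicit false

/-!
GBU, block H: the quadratic step, abstract part. `E` = the extension of `G` by `A` attached to the
two-cocycle `f`, `b` splits `f` over the normal subgroup `H` of index two, `x ∈ E` lies over
`σ ∉ H`.
-/

namespace Pool.Agent.GBUH

open Pool.Agent.SmithC Pool.Agent.SmithC.EGrp

variable {G A : Type*} [Group G] [CommGroup A] {φ : G →* MulAut A} {f : G → G → A}
  (hf : IsTwoCoc φ f)

theorem sec_incl (b : G → A) (h : G) (a : A) :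
    sec hf b h * incl hf a = incl hf (φ h a) * sec hf b h := by
  rw [mul_incl, snd_sec]

/-- two cochains which split `f` over `D` differ by a crossed homomorphism -/
theorem ratio_crossed {b d : G → A} {D : Subgroup G} (hb : SplA φ f D b) (hd : SplA φ f D d)
    {h h' : G} (hh : h ∈ D) (hh' : h' ∈ D) :
    (b (h * h'))⁻¹ * d (h * h') = ((b h)⁻¹ * d h) * φ h ((b h')⁻¹ * d h') := by
  have h1 := hb h hh h' hh'
  rw [hd h hh h' hh', mul_inv_eq_iff_eq_mul] at h1
  -- `d h * φ h (d h') = b h * φ h (b h') * (b (h h'))⁻¹ * d (h h')`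
  rw [map_mul, map_inv]
  calc (b (h * h'))⁻¹ * d (h * h')
      = (b h)⁻¹ * (φ h (b h'))⁻¹ *
        (b h * φ h (b h') * (b (h * h'))⁻¹ * d (h * h')) := by
        have e : (b h)⁻¹ * (φ h (b h'))⁻¹ * (b h * φ h (b h') * (b (h * h'))⁻¹ * d (h * h'))
          = ((b h)⁻¹ * b h) * ((φ h (b h'))⁻¹ * φ h (b h')) *
            ((b (h * h'))⁻¹ * d (h * h')) := by
          simp only [mul_assoc, mul_comm, mul_left_comm]
        rw [e, inv_mul_cancel, inv_mul_cancel, one_mul, one_mul]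
    _ = (b h)⁻¹ * (φ h (b h'))⁻¹ * (d h * φ h (d h')) := by rw [← h1]
    _ = _ := by simp only [mul_assoc, mul_comm, mul_left_comm]

/-- changing a splitting by a coboundary -/
theorem spl_cob {d : G → A} {D : Subgroup G} (hd : SplA φ f D d) (y : A) :
    SplA φ f D (fun g => d g * (φ g y * y⁻¹)⁻¹) := by
  intro g hg h hh
  rw [hd g hg h hh]
  change d g * φ g (d h) * (d (g * h))⁻¹ = d g * (φ g y * y⁻¹)⁻¹ *
    φ g (d h * (φ h y * y⁻¹)⁻¹) * (d (g * h) * (φ (g * h) y * y⁻¹)⁻¹)⁻¹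
  rw [map_mul, map_inv, map_mul, map_inv, map_mul φ g h, MulAut.mul_apply]
  have e : d g * (φ g y * y⁻¹)⁻¹ * (φ g (d h) * (φ g (φ h y) * (φ g y)⁻¹)⁻¹) *
      (d (g * h) * (φ g (φ h y) * y⁻¹)⁻¹)⁻¹
      = d g * φ g (d h) * (d (g * h))⁻¹ * (((φ g y * y⁻¹)⁻¹ * (φ g (φ h y) * (φ g y)⁻¹)⁻¹) *
        (φ g (φ h y) * y⁻¹)) := by
    rw [mul_inv (d (g * h)), inv_inv]
    simp only [mul_assoc, mul_comm, mul_left_comm]
  have e2 : ((φ g y * y⁻¹)⁻¹ * (φ g (φ h y) * (φ g y)⁻¹)⁻¹) * (φ g (φ h y) * y⁻¹) = 1 := by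
    rw [← mul_inv, inv_mul_eq_one]
    have e3 : φ g y * y⁻¹ * (φ g (φ h y) * (φ g y)⁻¹) =
      (φ g y * (φ g y)⁻¹) * (φ g (φ h y) * y⁻¹) := by
      simp only [mul_assoc, mul_comm, mul_left_comm]
    rw [e3, mul_inv_cancel, one_mul]
  rw [e, e2, mul_one]

section

variable {H : Subgroup G} [hN : H.Normal] {b : G → A} (hb : SplA φ f H b)

include hN hb in
theorem dfc_crossed (x : EGrp hf) {h h' : G} (hh : h ∈ H) (hh' : h' ∈ H) :
    dfc hf b x (h * h') = dfc hf b x h * φ h (dfc hf b x h') := by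
  have ha : ∀ h ∈ H, x.snd⁻¹ * h * x.snd ∈ H := fun h hh => by
    have := hN.conj_mem h hh x.snd⁻¹
    rwa [inv_inv] at this
  apply dfc_eq_of
  have e1 : x.snd⁻¹ * (h * h') * x.snd = (x.snd⁻¹ * h * x.snd) * (x.snd⁻¹ * h' * x.snd) := by group
  rw [e1, sec_mul hf hb (ha h hh) (ha h' hh'), sec_mul hf hb hh hh']
  calc x * (sec hf b (x.snd⁻¹ * h * x.snd) * sec hf b (x.snd⁻¹ * h' * x.snd)) * x⁻¹
      = (x * sec hf b (x.snd⁻¹ * h * x.snd) * x⁻¹) *
        (x * sec hf b (x.snd⁻¹ * h' * x.snd) * x⁻¹) := by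
        group
    _ = incl hf (dfc hf b x h) * (sec hf b h * incl hf (dfc hf b x h')) * sec hf b h' := by
        rw [dfc_spec, dfc_spec]; group
    _ = _ := by rw [sec_incl, map_mul]; group

omit hN in
theorem dfc_incl_mul (b : G → A) (a : A) (x : EGrp hf) (h : G) :
    dfc hf b (incl hf a * x) h = a * dfc hf b x h * (φ h a)⁻¹ := by
  apply dfc_eq_of
  have e : (incl hf a * x).snd = x.snd := by rw [snd_mul, snd_incl, one_mul]
  rw [e]
  have e2 : incl hf a * x * sec hf b (x.snd⁻¹ * h * x.snd) * (incl hf a * x)⁻¹ =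
      incl hf a * (x * sec hf b (x.snd⁻¹ * h * x.snd) * x⁻¹) * (incl hf a)⁻¹ := by group
  rw [e2, dfc_spec, ← map_inv, mul_assoc, mul_assoc (incl hf (dfc hf b x h)), sec_incl, map_inv,
    ← mul_assoc, ← mul_assoc, ← map_mul, ← map_mul]

variable {x : EGrp hf} (hx : ∀ h ∈ H, dfc hf b x h = 1)

omit hN in
include hx in
/-- `x` commutes with the section -/
theorem conj_sec {h : G} (hh : h ∈ H) :
    x * sec hf b (x.snd⁻¹ * h * x.snd) * x⁻¹ = sec hf b h := by
  rw [dfc_spec, hx h hh, map_one, one_mul]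

include hN hx in
theorem conj_sec' {h : G} (hh : h ∈ H) :
    x * sec hf b h = sec hf b (x.snd * h * x.snd⁻¹) * x := by
  have h1 := conj_sec hf hx (h := x.snd * h * x.snd⁻¹) (hN.conj_mem h hh _)
  have e : x.snd⁻¹ * (x.snd * h * x.snd⁻¹) * x.snd = h := by group
  rw [e, mul_inv_eq_iff_eq_mul] at h1
  exact h1

/-- `incl a` commutes with `sec h` exactly when `h` fixes `a` -/
theorem fixed_of_comm (b : G → A) {a : A} {h : G}
    (h1 : incl hf a * sec hf b h = sec hf b h * incl hf a) : φ h a = a := by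
  rw [sec_incl] at h1
  exact (incl_inj hf (mul_right_cancel h1)).symm

variable {a : A} (hx2 : x.snd * x.snd ∈ H) (ha : x * x = incl hf a * sec hf b (x.snd * x.snd))

include hN hb hx hx2 ha in
theorem fixed_H {h : G} (hh : h ∈ H) : φ h a = a := by
  set τ := x.snd with hτ
  apply fixed_of_comm hf b
  have hc : ∀ g : G, ∀ h ∈ H, g⁻¹ * h * g ∈ H := fun g h hh => by
    have := hN.conj_mem h hh g⁻¹
    rwa [inv_inv] at this
  -- conjugation by `x²`
  have h1 : x * x * sec hf b ((τ * τ)⁻¹ * h * (τ * τ)) = sec hf b h * (x * x) := by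
    have e1 := conj_sec' hf hx (h := (τ * τ)⁻¹ * h * (τ * τ)) (hc _ h hh)
    have e2 := conj_sec' hf hx (h := τ * ((τ * τ)⁻¹ * h * (τ * τ)) * τ⁻¹)
      (hN.conj_mem _ (hc _ h hh) _)
    rw [← hτ] at e1 e2
    have e3 : τ * (τ * ((τ * τ)⁻¹ * h * (τ * τ)) * τ⁻¹) * τ⁻¹ = h := by group
    rw [e3] at e2
    rw [mul_assoc, e1, ← mul_assoc, e2, mul_assoc]
  -- conjugation by `sec (σ²)`
  have h2 : sec hf b (τ * τ) * sec hf b ((τ * τ)⁻¹ * h * (τ * τ)) =
      sec hf b h * sec hf b (τ * τ) := by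
    rw [← sec_mul hf hb hx2 (hc _ h hh), ← sec_mul hf hb hh hx2]
    congr 1
    group
  rw [ha, mul_assoc, h2, ← mul_assoc, ← mul_assoc] at h1
  exact mul_right_cancel h1

include hN hx hx2 ha in
theorem fixed_x : φ x.snd a = a := by
  set τ := x.snd with hτ
  have h1 := conj_sec' hf hx (h := τ * τ) hx2
  rw [← hτ] at h1
  have e : τ * (τ * τ) * τ⁻¹ = τ * τ := by group
  rw [e] at h1
  -- `x (x x) = (x x) x`
  have h2 : x * (incl hf a * sec hf b (τ * τ)) = incl hf a * sec hf b (τ * τ) * x := by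
    rw [← ha, mul_assoc]
  rw [← mul_assoc, mul_incl, mul_assoc, h1, ← mul_assoc] at h2
  have h3 := mul_right_cancel h2
  exact incl_inj hf (mul_right_cancel h3)

/-! ### The local computation -/

variable {D : Subgroup G} {d : G → A} (hd : SplA φ f D d) (hbd : ∀ h ∈ D, h ∈ H → d h = b h)

include hN hb hx hx2 ha hd hbd in
theorem local_quad (hfix : ∀ g, φ g a = a) {F γ : G} (hF : F ∈ D) (hγ : γ ∈ H)
    (hFγ : F = γ * x.snd) :
    ∃ z : A, (∀ h ∈ D, h ∈ H → φ h z = z) ∧ z * φ F z * a = 1 := by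
  set τ := x.snd with hτ
  have hsec : ∀ h ∈ D, h ∈ H → sec hf d h = sec hf b h := fun h h1 h2 => by
    apply ext'
    · rw [fst_sec, fst_sec, hbd h h1 h2]
    · rfl
  have hc : ∀ g : G, ∀ h ∈ H, g⁻¹ * h * g ∈ H := fun g h hh => by
    have := hN.conj_mem h hh g⁻¹
    rwa [inv_inv] at this
  obtain ⟨z, hz⟩ : ∃ z : A, sec hf d F = incl hf z * (sec hf b γ * x) :=
    ⟨_, exists_incl hf (sec hf d F) (sec hf b γ * x) (by
      rw [snd_sec, snd_mul, snd_sec, hFγ])⟩
  have hF2 : F * F ∈ H := by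
    have e : F * F = γ * (τ * γ * τ⁻¹) * (τ * τ) := by rw [hFγ]; group
    rw [e]
    exact H.mul_mem (H.mul_mem hγ (hN.conj_mem γ hγ τ)) hx2
  refine ⟨z, fun h h1 h2 => ?_, ?_⟩
  · have h3 : F⁻¹ * h * F ∈ D := D.mul_mem (D.mul_mem (D.inv_mem hF) h1) hF
    -- conjugation by `sec d F`
    have h4 : sec hf d F * sec hf b (F⁻¹ * h * F) = sec hf b h * sec hf d F := by
      rw [← hsec _ h3 (hc F h h2), ← hsec h h1 h2, ← sec_mul hf hd hF h3, ← sec_mul hf hd h1 hF]
      congr 1
      group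
    -- conjugation by `sec b γ * x`
    have h5 : (sec hf b γ * x) * sec hf b (F⁻¹ * h * F) = sec hf b h * (sec hf b γ * x) := by
      have e1 := conj_sec' hf hx (h := F⁻¹ * h * F) (hc F h h2)
      have e2 : x.snd * (F⁻¹ * h * F) * x.snd⁻¹ = γ⁻¹ * h * γ := by
        rw [← hτ, hFγ]
        group
      rw [e2] at e1
      have e3 : sec hf b γ * sec hf b (γ⁻¹ * h * γ) = sec hf b h * sec hf b γ := by
        rw [← sec_mul hf hb hγ (hc γ h h2), ← sec_mul hf hb h2 hγ]
        congr 1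
        group
      rw [mul_assoc, e1, ← mul_assoc, e3, mul_assoc]
    apply fixed_of_comm hf b
    have h6 : incl hf z * sec hf b h * (sec hf b γ * x) =
        sec hf b h * incl hf z * (sec hf b γ * x) := by
      rw [mul_assoc, ← h5, ← mul_assoc, ← hz, h4, hz, mul_assoc]
    exact mul_right_cancel h6
  · have h1 : sec hf d F * sec hf d F = sec hf b (F * F) := by
      rw [← sec_mul hf hd hF hF, hsec _ (D.mul_mem hF hF) hF2]
    have hsnd : (sec hf b γ * x).snd = F := by rw [snd_mul, snd_sec, hFγ]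
    have h3 : (sec hf b γ * x) * (sec hf b γ * x) = incl hf a * sec hf b (F * F) := by
      have e1 := conj_sec' hf hx (h := γ) hγ
      rw [← hτ] at e1
      calc (sec hf b γ * x) * (sec hf b γ * x)
          = sec hf b γ * (x * sec hf b γ) * x := by group
        _ = sec hf b γ * sec hf b (τ * γ * τ⁻¹) * (x * x) := by rw [e1]; group
        _ = sec hf b (γ * (τ * γ * τ⁻¹)) * (incl hf a * sec hf b (τ * τ)) := by
            rw [← sec_mul hf hb hγ (hN.conj_mem γ hγ τ), ha]
        _ = incl hf a * (sec hf b (γ * (τ * γ * τ⁻¹)) * sec hf b (τ * τ)) := by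
            rw [← mul_assoc, sec_incl, hfix, mul_assoc]
        _ = incl hf a * sec hf b (F * F) := by
            rw [← sec_mul hf hb (H.mul_mem hγ (hN.conj_mem γ hγ τ)) hx2]
            congr 2
            rw [hFγ]
            group
    have h4 : sec hf d F * sec hf d F = incl hf (z * φ F z) * (incl hf a * sec hf b (F * F)) := by
      rw [← h3]
      conv_lhs => rw [hz]
      calc incl hf z * (sec hf b γ * x) * (incl hf z * (sec hf b γ * x))
          = incl hf z * ((sec hf b γ * x) * incl hf z) * (sec hf b γ * x) := by group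
        _ = incl hf z * (incl hf (φ F z) * (sec hf b γ * x)) * (sec hf b γ * x) := by
            rw [mul_incl, hsnd]
        _ = _ := by rw [map_mul]; group
    rw [h1, ← mul_assoc, ← map_mul] at h4
    have h5 : incl hf (1 : A) * sec hf b (F * F) = incl hf (z * φ F z * a) * sec hf b (F * F) := by
      rw [map_one, one_mul]
      exact h4
    exact (incl_inj hf (mul_right_cancel h5)).symm

/-! ### The final splitting -/

include hN hb hx in
theorem final_quad (hidx : ∀ g : G, g ∈ H ∨ x.snd⁻¹ * g ∈ H) (hxH : x.snd ∉ H)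
    (hx2 : x.snd * x.snd ∈ H) (h1 : x * x = sec hf b (x.snd * x.snd)) :
    ∃ β : G → A, (∀ g h, f g h = β g * φ g (β h) * (β (g * h))⁻¹) ∧
      ∀ N : Subgroup G, N ≤ H → (∀ s t, ∀ n ∈ N, ∀ m ∈ N, f (s * n) (t * m) = f s t) →
        (∀ n ∈ N, b n = b 1) → ∀ g, ∀ n ∈ N, β (g * n) = β g := by
  set τ := x.snd with hτ
  have hπ : proj hf x = τ := rfl
  obtain ⟨s, hs1, hs2, -⟩ := ext_section (proj hf) H (sec hf b)
    (fun g hg h hh => sec_mul hf hb hg hh) (fun g _ => rfl) x
    (fun g hg => hN.conj_mem g hg τ) (fun g hg => by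
      have := hN.conj_mem g hg τ⁻¹
      rwa [inv_inv] at this)
    (fun g hg => by
      rw [conj_sec' hf hx hg, mul_inv_cancel_right]
      rfl) 2 (by rw [hπ, pow_two]; exact hx2) (by rw [hπ, pow_two, pow_two]; exact h1)
    (fun γ => by
      rcases hidx γ with h | h
      · exact ⟨0, by rw [zpow_zero, inv_one, one_mul]; exact h⟩
      · exact ⟨1, by rw [zpow_one]; exact h⟩)
    (fun i hi => by
      rw [hπ] at hi
      rcases Int.even_or_odd' i with ⟨j, rfl | rfl⟩
      · exact ⟨j, by push_cast; rfl⟩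
      · exfalso
        apply hxH
        have e : τ = (τ * τ) ^ (-j) * τ ^ (2 * j + 1) := by
          rw [← pow_two, ← zpow_natCast, ← zpow_mul, ← zpow_add]
          have : ((2 : ℕ) : ℤ) * -j + (2 * j + 1) = 1 := by push_cast; ring
          rw [this, zpow_one]
        rw [e]
        exact H.mul_mem (H.zpow_mem hx2 _) hi)
  refine ⟨fun g => ((s g).fst)⁻¹, fun g h => ?_, ?_⟩
  · exact cochain_of_section hf (fun g => s g) (fun g h => map_mul s g h) (fun g => hs1 g) g h
  · intro N hNH hfN hbN g n hn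
    change ((s (g * n)).fst)⁻¹ = ((s g).fst)⁻¹
    have h3 : s n = sec hf b n := hs2 n (hNH hn)
    have h4 : f 1 1 = b 1 := by
      have := hb 1 H.one_mem 1 H.one_mem
      rw [map_one, MulAut.one_apply, mul_one, mul_inv_cancel_right] at this
      exact this
    have h5 : f g n = φ g (f 1 1) := by
      have := hfN g 1 1 N.one_mem n hn
      rw [mul_one, one_mul] at this
      rw [this, hf.one_right g]
    have hsnd : (s g).snd = g := hs1 g
    rw [map_mul, fst_mul, h3, hsnd, fst_sec, snd_sec, h5, h4, hbN n hn, map_inv,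
      inv_mul_cancel_right]

end

end Pool.Agent.GBUH
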