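import Pool.Agent.Lib.GBU.H.HDefs
import Pool.Agent.Lib.GBU.Sub
import Pool.Agent.Lib.SM.C.Hasse

/-!
GBU, block H, module Red: the Hasse principle over a global function field `K` from the Hasse
principle over the open subgroups of `Gal(Ω / RatFunc k)` (taken as a hypothesis `HasseA` here, it is
`hasseA` of module Main).
-/

set_option autoImplicit false

namespace Pool.Agent.GBUH

open Pool.Agent.SmithC Pool.Agent.Lib.SmD Pool.Agent.GBU

/-- The statement of `hasseA` (module Main) for all open subgroups and all cocycles. -/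
def HasseA (k Ω : Type) [Field k] [Field Ω] [Algebra (RatFunc k) Ω] : Prop :=
  ∀ (e : ℕ) (A : Subgroup (GG k Ω)), IsOpen (A : Set (GG k Ω)) → ∀ c : GG k Ω → GG k Ω → Ωˣ,
    CocOn e A c → (∀ w : ValuationSubring Ω, w ≠ ⊤ → ∃ β : GG k Ω → Ωˣ,
      LCOn (A ⊓ dec (RatFunc k) w) β ∧ SplU (A ⊓ dec (RatFunc k) w) c β) → SplM e A c

section top

variable {F K Ω : Type} [Field F] [Field K] [Algebra F K] [Field Ω] [Algebra F Ω] [Algebra K Ω]
  [IsScalarTower F K Ω]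

/-- open subgroups contain open normal subgroups -/
private theorem Red_normal_le [IsGalois F Ω] (N : Subgroup (Ω ≃ₐ[F] Ω))
    (hN : IsOpen (N : Set (Ω ≃ₐ[F] Ω))) :
    ∃ N' : Subgroup (Ω ≃ₐ[F] Ω), N'.Normal ∧ IsOpen (N' : Set (Ω ≃ₐ[F] Ω)) ∧ N' ≤ N := by
  have hnh : (N : Set (Ω ≃ₐ[F] Ω)) ∈ nhds (1 : Ω ≃ₐ[F] Ω) := hN.mem_nhds N.one_mem
  rw [krullTopology_mem_nhds_one_iff_of_normal] at hnh
  obtain ⟨E', hfd, hE'n, hE'⟩ := hnh
  have hgal' : IsGalois F E' := ⟨⟩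
  exact ⟨E'.fixingSubgroup, inferInstance, IntermediateField.fixingSubgroup_isOpen E', hE'⟩

/-- the restriction to `Gal(Ω / K)` of an open subgroup is open -/
private theorem Red_comap_open [Algebra.IsAlgebraic K Ω] (N : Subgroup (Ω ≃ₐ[F] Ω))
    (hN : IsOpen (N : Set (Ω ≃ₐ[F] Ω))) :
    IsOpen ((N.comap (res F : (Ω ≃ₐ[K] Ω) →* (Ω ≃ₐ[F] Ω)) : Subgroup (Ω ≃ₐ[K] Ω)) :
      Set (Ω ≃ₐ[K] Ω)) := by
  obtain ⟨E, hE, hEN⟩ := (krullTopology_mem_nhds_one_iff F Ω _).1 (hN.mem_nhds N.one_mem)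
  have hfg : (Subalgebra.toSubmodule E.toSubalgebra).FG :=
    (Submodule.fg_iff_finiteDimensional _).mpr hE
  obtain ⟨S, hS⟩ := IntermediateField.fg_of_fg_toSubalgebra E
    (Subalgebra.fg_of_fg_toSubmodule hfg)
  have hfd : FiniteDimensional K (IntermediateField.adjoin K (S : Set Ω)) :=
    IntermediateField.finiteDimensional_adjoin fun x _ =>
      (Algebra.IsAlgebraic.isAlgebraic x).isIntegral
  refine Subgroup.isOpen_mono (H₁ := (IntermediateField.adjoin K (S : Set Ω)).fixingSubgroup) ?_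
    (IntermediateField.fixingSubgroup_isOpen _)
  intro s hs
  rw [IntermediateField.mem_fixingSubgroup_iff] at hs
  rw [Subgroup.mem_comap]
  apply hEN
  rw [SetLike.mem_coe, IntermediateField.mem_fixingSubgroup_iff]
  intro x hx
  rw [← hS] at hx
  have hle : IntermediateField.adjoin F (S : Set Ω) ≤
      (IntermediateField.adjoin K (S : Set Ω)).restrictScalars F := by
    rw [IntermediateField.adjoin_le_iff]
    exact IntermediateField.subset_adjoin K _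
  exact hs x (hle hx)

end top

section

variable {k K Ω : Type} [Field k] [Finite k] [Field K] [Algebra k K] [Algebra (RatFunc k) K]
  [IsScalarTower k (RatFunc k) K] [FiniteDimensional (RatFunc k) K]
  [Algebra.IsSeparable (RatFunc k) K] [Field Ω] [Algebra K Ω] [IsSepClosure K Ω]
  [Algebra (RatFunc k) Ω] [IsScalarTower (RatFunc k) K Ω]

private theorem Red_sepClosure (k K Ω : Type) [Field k] [Field K] [Algebra (RatFunc k) K]
    [Algebra.IsSeparable (RatFunc k) K] [Field Ω] [Algebra K Ω] [IsSepClosure K Ω]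
    [Algebra (RatFunc k) Ω] [IsScalarTower (RatFunc k) K Ω] : IsSepClosure (RatFunc k) Ω := by
  have h1 : Algebra.IsSeparable K Ω := IsSepClosure.separable
  have h2 : Algebra.IsSeparable (RatFunc k) Ω := Algebra.IsSeparable.trans (RatFunc k) K Ω
  exact ⟨IsSepClosure.sep_closed K, h2⟩

omit [Finite k] [Algebra k K] [IsScalarTower k (RatFunc k) K] in
/-- `hasseK_mu` with the algebra structures given. -/
private theorem Red_mu (H : HasseA k Ω) (e : ℕ) (c : (Ω ≃ₐ[K] Ω) → (Ω ≃ₐ[K] Ω) → Ωˣ)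
    (hM : ∀ s t, c s t ^ (2 ^ e) = 1)
    (hc : ∃ N : Subgroup (Ω ≃ₐ[K] Ω), IsOpen (N : Set (Ω ≃ₐ[K] Ω)) ∧
      ∀ s t, ∀ n ∈ N, ∀ m ∈ N, c (s * n) (t * m) = c s t)
    (hcoc : ∀ s t u, c s t * c (s * t) u = s • c t u * c s (t * u))
    (hloc : ∀ w : ValuationSubring Ω, w ≠ ⊤ → ∃ β : (Ω ≃ₐ[K] Ω) → Ωˣ,
      (∃ N : Subgroup (Ω ≃ₐ[K] Ω), IsOpen (N : Set (Ω ≃ₐ[K] Ω)) ∧
        ∀ s ∈ dec K w, ∀ n ∈ N, n ∈ dec K w → β (s * n) = β s) ∧
      ∀ s ∈ dec K w, ∀ t ∈ dec K w, c s t = β s * s • β t * (β (s * t))⁻¹) :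
    ∃ b : (Ω ≃ₐ[K] Ω) → Ωˣ, (∀ s, b s ^ (2 ^ e) = 1) ∧
      (∃ N : Subgroup (Ω ≃ₐ[K] Ω), N.Normal ∧ IsOpen (N : Set (Ω ≃ₐ[K] Ω)) ∧
        ∀ s, ∀ n ∈ N, b (s * n) = b s) ∧
      ∀ s t, c s t = b s * s • b t * (b (s * t))⁻¹ := by
  classical
  have hsep : IsSepClosure (RatFunc k) Ω := Red_sepClosure k K Ω
  have hnorm : Normal (RatFunc k) Ω := inferInstance
  have halg : Algebra.IsAlgebraic K Ω := inferInstance
  set R : (Ω ≃ₐ[K] Ω) →* GG k Ω := res (RatFunc k) with hR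
  have hRinj : Function.Injective R := res_injective (RatFunc k)
  set A : Subgroup (GG k Ω) := rg (RatFunc k) K Ω with hA
  have hAo : IsOpen (A : Set (GG k Ω)) := isOpen_rg (RatFunc k)
  have hRA : ∀ s, R s ∈ A := fun s => ⟨s, rfl⟩
  -- the inverse
  have hex : ∀ s : GG k Ω, ∃ s' : Ω ≃ₐ[K] Ω, s ∈ A → R s' = s := by
    intro s
    by_cases hs : s ∈ A
    · obtain ⟨s', hs'⟩ := hs
      exact ⟨s', fun _ => hs'⟩
    · exact ⟨1, fun h => absurd h hs⟩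
  choose r hr using hex
  have hrR : ∀ s, r (R s) = s := fun s => hRinj (hr _ (hRA s))
  have hrmul : ∀ s ∈ A, ∀ t ∈ A, r (s * t) = r s * r t := by
    intro s hs t ht
    apply hRinj
    rw [hr _ (A.mul_mem hs ht), map_mul, hr s hs, hr t ht]
  have hsmul : ∀ (s : Ω ≃ₐ[K] Ω) (u : Ωˣ), R s • u = s • u := fun s u => Units.ext rfl
  have hsmul' : ∀ s ∈ A, ∀ u : Ωˣ, s • u = r s • u := by
    intro s hs u
    rw [← hsmul, hr s hs]
  have hdec : ∀ (w : ValuationSubring Ω), ∀ s ∈ A, s ∈ dec (RatFunc k) w → r s ∈ dec K w := by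
    intro w s hs hsw
    rw [← res_mem_dec (RatFunc k)]
    change R (r s) ∈ _
    rw [hr s hs]
    exact hsw
  -- open normal subgroups
  have hN : ∀ N : Subgroup (Ω ≃ₐ[K] Ω), IsOpen (N : Set (Ω ≃ₐ[K] Ω)) →
      ∃ N' : Subgroup (GG k Ω), N'.Normal ∧ IsOpen (N' : Set (GG k Ω)) ∧ N' ≤ A ∧
        ∀ n ∈ N', r n ∈ N := by
    intro N hN
    obtain ⟨N', h1, h3, h4⟩ := Red_normal_le (N.map R) (isOpen_map_res (RatFunc k) hN)
    refine ⟨N', h1, h3, ?_, ?_⟩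
    · intro n hn
      obtain ⟨m, -, hm⟩ := h4 hn
      exact ⟨m, hm⟩
    · intro n hn
      obtain ⟨m, hm, rfl⟩ := h4 hn
      rw [hrR]
      exact hm
  obtain ⟨b', hb'M, ⟨N', hN'n, hN'o, hN'⟩, hb'⟩ := H e A hAo (fun s t => c (r s) (r t))
    ⟨fun s t => hM _ _, by
      obtain ⟨N, hNo, hNc⟩ := hc
      obtain ⟨N', h1, h3, h4, h5⟩ := hN N hNo
      refine ⟨N', h1, h3, h4, fun s hs t ht n hn m hm => ?_⟩
      change c (r (s * n)) (r (t * m)) = c (r s) (r t)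
      rw [hrmul s hs n (h4 hn), hrmul t ht m (h4 hm)]
      exact hNc _ _ _ (h5 n hn) _ (h5 m hm), by
      intro s hs t ht u hu
      change c (r s) (r t) * c (r (s * t)) (r u) = s • c (r t) (r u) * c (r s) (r (t * u))
      rw [hrmul s hs t ht, hrmul t ht u hu, hsmul' s hs]
      exact hcoc _ _ _⟩ (by
    intro w hw
    obtain ⟨β, ⟨N, hNo, hNβ⟩, hβ⟩ := hloc w hw
    obtain ⟨N', h1, h3, h4, h5⟩ := hN N hNo
    refine ⟨fun s => β (r s), ⟨N', h1, h3, ?_⟩, ?_⟩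
    · rintro s ⟨hsA, hsw⟩ n hn ⟨hnA, hnw⟩
      change β (r (s * n)) = β (r s)
      rw [hrmul s hsA n hnA]
      exact hNβ _ (hdec w s hsA hsw) _ (h5 n hn) (hdec w n hnA hnw)
    · rintro s ⟨hsA, hsw⟩ t ⟨htA, htw⟩
      change c (r s) (r t) = β (r s) * s • β (r t) * (β (r (s * t)))⁻¹
      rw [hrmul s hsA t htA, hsmul' s hsA]
      exact hβ _ (hdec w s hsA hsw) _ (hdec w t htA htw))
  refine ⟨fun s => b' (R s), fun s => hb'M _, ⟨N'.comap R, inferInstance,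
    Red_comap_open N' hN'o, ?_⟩, ?_⟩
  · intro s n hn
    change b' (R (s * n)) = b' (R s)
    rw [map_mul]
    exact hN' _ (hRA s) _ hn (hRA n)
  · intro s t
    have h1 := hb' (R s) (hRA s) (R t) (hRA t)
    change c (r (R s)) (r (R t)) = b' (R s) * R s • b' (R t) * (b' (R s * R t))⁻¹ at h1
    rw [hrR, hrR, hsmul, ← map_mul] at h1
    exact h1

end

section

variable {k K Ω : Type} [Field k] [Finite k] [Field K] [Algebra k K] [Algebra (RatFunc k) K]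
  [IsScalarTower k (RatFunc k) K] [FiniteDimensional (RatFunc k) K]
  [Algebra.IsSeparable (RatFunc k) K] [Field Ω] [Algebra K Ω] [IsSepClosure K Ω]

omit [Finite k] [Algebra k K] [IsScalarTower k (RatFunc k) K] in
/-- The Hasse principle over a global function field `K`, values in `μ_(2^e)`, from `HasseA`. -/
theorem hasseK_mu_of
    (H : ∀ [Algebra (RatFunc k) Ω], IsSepClosure (RatFunc k) Ω → HasseA k Ω)
    (e : ℕ) (c : (Ω ≃ₐ[K] Ω) → (Ω ≃ₐ[K] Ω) → Ωˣ)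
    (hM : ∀ s t, c s t ^ (2 ^ e) = 1)
    (hc : ∃ N : Subgroup (Ω ≃ₐ[K] Ω), IsOpen (N : Set (Ω ≃ₐ[K] Ω)) ∧
      ∀ s t, ∀ n ∈ N, ∀ m ∈ N, c (s * n) (t * m) = c s t)
    (hcoc : ∀ s t u, c s t * c (s * t) u = s • c t u * c s (t * u))
    (hloc : ∀ w : ValuationSubring Ω, w ≠ ⊤ → ∃ β : (Ω ≃ₐ[K] Ω) → Ωˣ,
      (∃ N : Subgroup (Ω ≃ₐ[K] Ω), IsOpen (N : Set (Ω ≃ₐ[K] Ω)) ∧
        ∀ s ∈ dec K w, ∀ n ∈ N, n ∈ dec K w → β (s * n) = β s) ∧
      ∀ s ∈ dec K w, ∀ t ∈ dec K w, c s t = β s * s • β t * (β (s * t))⁻¹) :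
    ∃ b : (Ω ≃ₐ[K] Ω) → Ωˣ, (∀ s, b s ^ (2 ^ e) = 1) ∧
      (∃ N : Subgroup (Ω ≃ₐ[K] Ω), N.Normal ∧ IsOpen (N : Set (Ω ≃ₐ[K] Ω)) ∧
        ∀ s, ∀ n ∈ N, b (s * n) = b s) ∧
      ∀ s t, c s t = b s * s • b t * (b (s * t))⁻¹ := by
  letI : Algebra (RatFunc k) Ω := ((algebraMap K Ω).comp (algebraMap (RatFunc k) K)).toAlgebra
  have : IsScalarTower (RatFunc k) K Ω := IsScalarTower.of_algebraMap_eq fun x => rfl
  exact Red_mu (k := k) (H (Red_sepClosure k K Ω)) e c hM hc hcoc hloc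

omit [Finite k] [Algebra k K] [IsScalarTower k (RatFunc k) K] in
/-- The Hasse principle over a global function field `K`, values in `ZMod 2`, from `HasseA`. -/
theorem hasseK_of
    (H : ∀ [Algebra (RatFunc k) Ω], IsSepClosure (RatFunc k) Ω → HasseA k Ω)
    (h2 : (2 : k) ≠ 0) (c : (Ω ≃ₐ[K] Ω) → (Ω ≃ₐ[K] Ω) → ZMod 2)
    (hc : ∃ N : Subgroup (Ω ≃ₐ[K] Ω), IsOpen (N : Set (Ω ≃ₐ[K] Ω)) ∧
      ∀ s t, ∀ n ∈ N, ∀ m ∈ N, c (s * n) (t * m) = c s t)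
    (hcoc : ∀ s t u, c s t + c (s * t) u = c t u + c s (t * u))
    (hloc : ∀ w : ValuationSubring Ω, w ≠ ⊤ → ∃ β : (Ω ≃ₐ[K] Ω) → ZMod 2,
      (∃ N : Subgroup (Ω ≃ₐ[K] Ω), IsOpen (N : Set (Ω ≃ₐ[K] Ω)) ∧
        ∀ s ∈ dec K w, ∀ n ∈ N, n ∈ dec K w → β (s * n) = β s) ∧
      ∀ s ∈ dec K w, ∀ t ∈ dec K w, c s t = β s + β t + β (s * t)) :
    ∃ b : (Ω ≃ₐ[K] Ω) → ZMod 2,
      (∃ N : Subgroup (Ω ≃ₐ[K] Ω), N.Normal ∧ IsOpen (N : Set (Ω ≃ₐ[K] Ω)) ∧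
        ∀ s, ∀ n ∈ N, b (s * n) = b s) ∧
      ∀ s t, c s t = b s + b t + b (s * t) := by
  classical
  have h2Ω : (2 : Ω) ≠ 0 := by
    intro h0
    apply h2
    apply (algebraMap k (RatFunc k)).injective
    apply (algebraMap (RatFunc k) K).injective
    apply (algebraMap K Ω).injective
    rw [map_ofNat, map_ofNat, map_ofNat, map_zero, map_zero, map_zero]
    exact h0
  have hsm : ∀ (s : Ω ≃ₐ[K] Ω) (a : ZMod 2), s • sgnU Ω a = sgnU Ω a := by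
    intro s a
    apply Units.ext
    change s ((sgnU Ω a : Ωˣ) : Ω) = _
    unfold sgnU
    rw [Units.val_pow_eq_pow_val, Units.val_neg, Units.val_one, map_pow, map_neg, map_one]
  have hinj : ∀ a b : ZMod 2, sgnU Ω a = sgnU Ω b → a = b := by
    intro a b h
    have h1 := congrArg (fun u : Ωˣ => (u : Ω)) h
    unfold sgnU at h1
    simp only [Units.val_pow_eq_pow_val, Units.val_neg, Units.val_one] at h1
    exact neg_one_pow_val_inj h2Ω h1
  obtain ⟨b, hbM, ⟨N, hNn, hNo, hbN⟩, hb⟩ := hasseK_mu_of (k := k) H 1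
    (fun s t => sgnU Ω (c s t))
    (fun s t => by rw [pow_one]; exact sgnU_sq _)
    (by
      obtain ⟨N, hN, h⟩ := hc
      exact ⟨N, hN, fun s t n hn m hm => by
        change sgnU Ω (c (s * n) (t * m)) = sgnU Ω (c s t)
        rw [h s t n hn m hm]⟩)
    (by
      intro s t w
      change sgnU Ω (c s t) * sgnU Ω (c (s * t) w) = s • sgnU Ω (c t w) * sgnU Ω (c s (t * w))
      rw [hsm, ← sgnU_add, ← sgnU_add, hcoc s t w])
    (by
      intro w hw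
      obtain ⟨β, ⟨N, hN, hlc⟩, hs⟩ := hloc w hw
      refine ⟨fun s => sgnU Ω (β s), ⟨N, hN, fun s hs1 n hn hn1 => ?_⟩, fun s hs1 t ht1 => ?_⟩
      · change sgnU Ω (β (s * n)) = sgnU Ω (β s)
        rw [hlc s hs1 n hn hn1]
      · change sgnU Ω (c s t) = sgnU Ω (β s) * s • sgnU Ω (β t) * (sgnU Ω (β (s * t)))⁻¹
        rw [hsm, sgnU_inv, ← sgnU_add, ← sgnU_add, hs s hs1 t ht1])
  have hex : ∀ s, ∃ a : ZMod 2, sgnU Ω a = b s := by
    intro s
    have h1 : (b s : Ω) ^ 2 = 1 ^ 2 := by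
      have := hbM s
      rw [pow_one] at this
      rw [← Units.val_pow_eq_pow_val, this, Units.val_one, one_pow]
    rcases sq_eq_sq_iff_eq_or_eq_neg.1 h1 with h | h
    · exact ⟨0, Units.ext (by rw [h]; simp [sgnU])⟩
    · exact ⟨1, Units.ext (by rw [h]; simp [sgnU, ZMod.val_one])⟩
  choose a ha using hex
  refine ⟨a, ⟨N, hNn, hNo, fun s n hn => ?_⟩, fun s t => ?_⟩
  · apply hinj
    rw [ha, ha, hbN s n hn]
  · apply hinj
    rw [sgnU_add, sgnU_add, ha, ha, ha]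
    have h1 := hb s t
    rw [← ha t, hsm, ha t, ← ha (s * t), sgnU_inv, ha (s * t)] at h1
    exact h1

end

end Pool.Agent.GBUH
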