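import Pool.Agent.Lib.GBU.H.Main
import Pool.Agent.Lib.GBU.H.Red

set_option autoImplicit false

/-!
GBU, block H: the Hasse principle over a global function field `K` of characteristic different from
two, for two-cocycles with values in `μ_(2^e)` and in `ZMod 2`.
-/

namespace Pool.Agent.GBUH

open Pool.Agent.SmithC Pool.Agent.Lib.SmD Pool.Agent.GBU

theorem hasseA_all {k Ω : Type} [Field k] [Finite k] [Field Ω] [Algebra (RatFunc k) Ω]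
    (h2 : (2 : k) ≠ 0) (h : IsSepClosure (RatFunc k) Ω) : HasseA k Ω :=
  fun e A hA c hc hloc => hasseA h2 e A hA c hc hloc

variable {k K Ω : Type} [Field k] [Finite k] [Field K] [Algebra k K] [Algebra (RatFunc k) K]
  [IsScalarTower k (RatFunc k) K] [FiniteDimensional (RatFunc k) K]
  [Algebra.IsSeparable (RatFunc k) K] [Field Ω] [Algebra K Ω] [IsSepClosure K Ω]

omit [Algebra k K] [IsScalarTower k (RatFunc k) K] in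
/-- The Hasse principle over a global function field `K`, values in `μ_(2^e)`. -/
theorem hasseK_mu (h2 : (2 : k) ≠ 0) (e : ℕ) (c : (Ω ≃ₐ[K] Ω) → (Ω ≃ₐ[K] Ω) → Ωˣ)
    (hM : ∀ s t, c s t ^ (2 ^ e) = 1)
    (hc : ∃ N : Subgroup (Ω ≃ₐ[K] Ω), IsOpen (N : Set (Ω ≃ₐ[K] Ω)) ∧
      ∀ s t, ∀ n ∈ N, ∀ m ∈ N, c (s * n) (t * m) = c s t)
    (hcoc : ∀ s t u, c s t * c (s * t) u = s • c t u * c s (t * u))
    (hloc : ∀ w : ValuationSubring Ω, w ≠ ⊤ → ∃ β : (Ω ≃ₐ[K] Ω) → Ωˣ,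
      (∃ N : Subgroup (Ω ≃ₐ[K] Ω), IsOpen (N : Set (Ω ≃ₐ[K] Ω)) ∧
        ∀ s ∈ dec K w, ∀ n ∈ N, n ∈ dec K w → β (s * n) = β s) ∧
      ∀ s ∈ dec K w, ∀ t ∈ dec K w, c s t = β s * s • β t * (β (s * t))⁻¹) :
    ∃ b : (Ω ≃ₐ[K] Ω) → Ωˣ, (∀ s, b s ^ (2 ^ e) = 1) ∧
      (∃ N : Subgroup (Ω ≃ₐ[K] Ω), N.Normal ∧ IsOpen (N : Set (Ω ≃ₐ[K] Ω)) ∧
        ∀ s, ∀ n ∈ N, b (s * n) = b s) ∧
      ∀ s t, c s t = b s * s • b t * (b (s * t))⁻¹ :=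
  hasseK_mu_of (k := k) (fun h => hasseA_all h2 h) e c hM hc hcoc hloc

omit [Algebra k K] [IsScalarTower k (RatFunc k) K] in
/-- The Hasse principle over a global function field `K`, values in `ZMod 2`. -/
theorem hasseK (h2 : (2 : k) ≠ 0) (c : (Ω ≃ₐ[K] Ω) → (Ω ≃ₐ[K] Ω) → ZMod 2)
    (hc : ∃ N : Subgroup (Ω ≃ₐ[K] Ω), IsOpen (N : Set (Ω ≃ₐ[K] Ω)) ∧
      ∀ s t, ∀ n ∈ N, ∀ m ∈ N, c (s * n) (t * m) = c s t)
    (hcoc : ∀ s t u, c s t + c (s * t) u = c t u + c s (t * u))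
    (hloc : ∀ w : ValuationSubring Ω, w ≠ ⊤ → ∃ β : (Ω ≃ₐ[K] Ω) → ZMod 2,
      (∃ N : Subgroup (Ω ≃ₐ[K] Ω), IsOpen (N : Set (Ω ≃ₐ[K] Ω)) ∧
        ∀ s ∈ dec K w, ∀ n ∈ N, n ∈ dec K w → β (s * n) = β s) ∧
      ∀ s ∈ dec K w, ∀ t ∈ dec K w, c s t = β s + β t + β (s * t)) :
    ∃ b : (Ω ≃ₐ[K] Ω) → ZMod 2,
      (∃ N : Subgroup (Ω ≃ₐ[K] Ω), N.Normal ∧ IsOpen (N : Set (Ω ≃ₐ[K] Ω)) ∧
        ∀ s, ∀ n ∈ N, b (s * n) = b s) ∧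
      ∀ s t, c s t = b s + b t + b (s * t) :=
  hasseK_of (k := k) (fun h => hasseA_all h2 h) h2 c hc hcoc hloc

end Pool.Agent.GBUH
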