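import Pool.Agent.Lib.GBU.H.LevelA
import Pool.Agent.Lib.SM.C.TsenU
import Pool.Agent.Lib.GBU.H.HDefs

/-!
# GBU, block H, module TsenA

Tsen's theorem over open subgroups: a two-cocycle of a subgroup `A` of `G` with values in `μ_M`
(`M = 2^e`) which factors through a finite quotient `A / N0` of order a power of 2 splits, with
values in `μ_M`, over `HH ⊓ A`.
-/

set_option autoImplicit false

namespace Pool.Agent.SmithC

open Polynomial Pool.Agent.SmD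

variable {k Ω : Type} [Field k] [Field Ω] [Algebra (RatFunc k) Ω]

private theorem exists_open_normal_le [IsSepClosure (RatFunc k) Ω] (N : Subgroup (GG k Ω))
    (hN : IsOpen (N : Set (GG k Ω))) :
    ∃ N' : Subgroup (GG k Ω), N'.Normal ∧ IsOpen (N' : Set (GG k Ω)) ∧ N' ≤ N := by
  have hgal : IsGalois (RatFunc k) Ω := inferInstance
  have hnh : (N : Set (GG k Ω)) ∈ nhds (1 : GG k Ω) := hN.mem_nhds N.one_mem
  rw [krullTopology_mem_nhds_one_iff_of_normal] at hnh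
  obtain ⟨E', hfd, hE'n, hE'⟩ := hnh
  have hgal' : IsGalois (RatFunc k) E' := ⟨⟩
  exact ⟨E'.fixingSubgroup, inferInstance, IntermediateField.fixingSubgroup_isOpen E', hE'⟩

/-- Tsen's theorem for `μ_M`-valued cocycles of a subgroup `A`, `M = 2^e`. -/
theorem tsenA [Finite k] (h2 : (2 : k) ≠ 0) [IsSepClosure (RatFunc k) Ω] (e : ℕ)
    (A N : Subgroup (GG k Ω)) (hNo : IsOpen (N : Set (GG k Ω)))
    (hNA : N ≤ A) (hnorm : ∀ a ∈ A, ∀ n ∈ N, a⁻¹ * n * a ∈ N) (r : ℕ)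
    (hidx : N.relIndex A = 2 ^ r)
    (c : GG k Ω → GG k Ω → Ωˣ) (hM : ∀ s ∈ A, ∀ t ∈ A, c s t ^ (2 ^ e) = 1)
    (hc : ∀ s ∈ A, ∀ t ∈ A, ∀ n ∈ N, ∀ m ∈ N, c (s * n) (t * m) = c s t)
    (hcoc : ∀ s ∈ A, ∀ t ∈ A, ∀ w ∈ A, c s t * c (s * t) w = s • c t w * c s (t * w)) :
    ∃ b : GG k Ω → Ωˣ, (∀ s, b s ^ (2 ^ e) = 1) ∧ LCOn (HH k Ω ⊓ A) b ∧
      SplU (HH k Ω ⊓ A) c b := by
  classical
  obtain ⟨κ, hκ, hcl, ht, hk⟩ := exists_cstField (Ω := Ω) h2
  obtain ⟨j, ψ, hjC, -, hj, hψ⟩ := exists_alg κ hκ hk ht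
  obtain ⟨L, hL1, hL2, hL3, hL4, hL5⟩ := exists_levelA κ j ψ hj hψ A N hNo hnorm
  have h2Ω : (2 : Ω) ≠ 0 := kum_two h2
  have h2L : (2 : L) ≠ 0 := fun h => h2Ω (congrArg Subtype.val h)
  -- `c` extended by `1`
  let c0 : GG k Ω → GG k Ω → Ωˣ := fun s t => if s ∈ A ∧ t ∈ A then c s t else 1
  have hc0 : ∀ s ∈ A, ∀ t ∈ A, c0 s t = c s t := fun s hs t ht => if_pos ⟨hs, ht⟩
  have hM0 : ∀ s t, c0 s t ^ (2 ^ e) = 1 := by
    intro s t
    by_cases h : s ∈ A ∧ t ∈ A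
    · rw [hc0 s h.1 t h.2]
      exact hM s h.1 t h.2
    · simp only [c0]
      rw [if_neg h, one_pow]
  -- the values of `c0` are constants
  have hcst : ∀ s t, IsCst k ((c0 s t : Ωˣ) : Ω) := fun s t =>
    isCst_of_pow_eq_one (2 ^ e) (by positivity) _ (by
      rw [← Units.val_pow_eq_pow_val, hM0, Units.val_one])
  have hcL : ∀ s t, ((c0 s t : Ωˣ) : Ω) ∈ L := by
    intro s t
    have h1 := hL4 (RatFunc.C (⟨((c0 s t : Ωˣ) : Ω), (hκ _).2 (hcst s t)⟩ : κ))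
    rw [hjC] at h1
    exact h1
  have hcne : ∀ s t, (⟨((c0 s t : Ωˣ) : Ω), hcL s t⟩ : L) ≠ 0 := by
    intro s t h
    exact (c0 s t).ne_zero (congrArg Subtype.val h)
  set B : Subgroup (GG k Ω) := HH k Ω ⊓ A with hB
  have hBH : ∀ h : B, h.1 ∈ HH k Ω := fun h => h.2.1
  have hBA : ∀ h : B, h.1 ∈ A := fun h => h.2.2
  -- the action on `L`
  let Φ : B →* RingAut L :=
    { toFun := fun h =>
        { toFun := fun x => ⟨h.1 x, hL1 h h.2.1 h.2.2 x x.2⟩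
          invFun := fun x => ⟨(h⁻¹).1 x, hL1 _ (h⁻¹).2.1 (h⁻¹).2.2 x x.2⟩
          left_inv := fun x => by
            apply Subtype.ext
            change (h.1)⁻¹ (h.1 x) = x
            rw [← AlgEquiv.mul_apply, inv_mul_cancel, AlgEquiv.one_apply]
          right_inv := fun x => by
            apply Subtype.ext
            change h.1 ((h.1)⁻¹ x) = x
            rw [← AlgEquiv.mul_apply, mul_inv_cancel, AlgEquiv.one_apply]
          map_mul' := fun x y => Subtype.ext (map_mul h.1 (x : Ω) y)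
          map_add' := fun x y => Subtype.ext (map_add h.1 (x : Ω) y) }
      map_one' := by
        ext x
        rfl
      map_mul' := fun g h => by
        ext x
        rfl }
  set N0 : Subgroup B := N.subgroupOf B with hN0
  have hN0n : N0.Normal := by
    refine ⟨fun n hn g => ?_⟩
    rw [hN0, Subgroup.mem_subgroupOf] at hn ⊢
    have h1 := hnorm (g.1)⁻¹ (A.inv_mem g.2.2) n.1 hn
    rw [inv_inv] at h1
    exact h1
  have hN0f : N0.FiniteIndex := by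
    have h1 : N.FiniteIndex := by
      have : Finite (GG k Ω ⧸ N) := Subgroup.quotient_finite_of_isOpen N hNo
      exact Subgroup.finiteIndex_of_finite_quotient
    rw [hN0]
    infer_instance
  let ρ : (B ⧸ N0) →* RingAut L := QuotientGroup.lift N0 Φ (fun n hn => by
    ext x
    exact hL2 n.1 (Subgroup.mem_subgroupOf.1 hn) n.2.1 x x.2)
  have hρ : ∀ (h : B) (x : L), ((ρ (QuotientGroup.mk h) x : L) : Ω) = h.1 x :=
    fun _ _ => rfl
  have hρinj : Function.Injective ρ := by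
    rw [injective_iff_map_eq_one]
    intro g hg
    obtain ⟨h, rfl⟩ := QuotientGroup.mk_surjective g
    rw [QuotientGroup.eq_one_iff]
    apply Subgroup.mem_subgroupOf.2
    apply hL3
    intro x hx
    have h1 := hρ h ⟨x, hx⟩
    rw [hg] at h1
    exact h1.symm
  have : Fact (Nat.Prime 2) := ⟨Nat.prime_two⟩
  have hNAn : (N.subgroupOf A).Normal := by
    refine ⟨fun n hn g => ?_⟩
    rw [Subgroup.mem_subgroupOf] at hn ⊢
    have h1 := hnorm (g.1)⁻¹ (A.inv_mem g.2) n.1 hn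
    rw [inv_inv] at h1
    exact h1
  obtain ⟨n, hcard⟩ : ∃ n : ℕ, Nat.card (B ⧸ N0) = 2 ^ n := by
    apply IsPGroup.iff_card.mp
    intro g
    obtain ⟨h, rfl⟩ := QuotientGroup.mk_surjective g
    refine ⟨r, ?_⟩
    rw [← QuotientGroup.mk_pow, QuotientGroup.eq_one_iff]
    apply Subgroup.mem_subgroupOf.2
    have h1 := (N.subgroupOf A).pow_index_mem (⟨h.1, h.2.2⟩ : A)
    rw [Subgroup.mem_subgroupOf] at h1
    have h3 : (N.subgroupOf A).index = 2 ^ r := hidx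
    rw [h3] at h1
    exact h1
  have hcon : ConicProp ρ := by
    intro U a b ha hb
    let F : Subfield Ω :=
      { carrier := {x | x ∈ L ∧ ∀ h : B, (QuotientGroup.mk h : B ⧸ N0) ∈ U → h.1 x = x}
        mul_mem' := by
          rintro x y ⟨hx, hx'⟩ ⟨hy, hy'⟩
          exact ⟨L.mul_mem hx hy, fun h hh => by rw [map_mul, hx' h hh, hy' h hh]⟩
        one_mem' := ⟨L.one_mem, fun h _ => map_one h.1⟩
        add_mem' := by
          rintro x y ⟨hx, hx'⟩ ⟨hy, hy'⟩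
          exact ⟨L.add_mem hx hy, fun h hh => by rw [map_add, hx' h hh, hy' h hh]⟩
        zero_mem' := ⟨L.zero_mem, fun h _ => map_zero h.1⟩
        neg_mem' := by
          rintro x ⟨hx, hx'⟩
          exact ⟨L.neg_mem hx, fun h hh => by rw [map_neg, hx' h hh]⟩
        inv_mem' := by
          rintro x ⟨hx, hx'⟩
          exact ⟨L.inv_mem hx, fun h hh => by rw [map_inv₀, hx' h hh]⟩ }
    have hfix : ∀ x : L, (∀ g ∈ U, ρ g x = x) → (x : Ω) ∈ F := by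
      intro x hx
      refine ⟨x.2, fun h hh => ?_⟩
      rw [← hρ h x, hx _ hh]
    have hfix' : ∀ (x : Ω) (hx : x ∈ F) (g : B ⧸ N0), g ∈ U →
        ρ g (⟨x, hx.1⟩ : L) = ⟨x, hx.1⟩ := by
      intro x hx g hg
      obtain ⟨h, rfl⟩ := QuotientGroup.mk_surjective g
      apply Subtype.ext
      rw [hρ]
      exact hx.2 h hg
    obtain ⟨x, hx, y, hy, z, hz, hne, hxyz⟩ := hL5 F (fun x hx => hx.1)
      (fun x => ⟨hL4 x, fun h _ => hj h.1 h.2.1 x⟩) a (hfix a ha) b (hfix b hb)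
    refine ⟨⟨x, hx.1⟩, ⟨y, hy.1⟩, ⟨z, hz.1⟩, ?_, hfix' x hx, hfix' y hy, hfix' z hz, ?_⟩
    · rintro ⟨h1, h3, h4⟩
      exact hne ⟨congrArg Subtype.val h1, congrArg Subtype.val h3, congrArg Subtype.val h4⟩
    · exact Subtype.ext hxyz
  -- the cocycle on the quotient
  let cL : GG k Ω → GG k Ω → Lˣ := fun s t => Units.mk0 ⟨((c0 s t : Ωˣ) : Ω), hcL s t⟩ (hcne s t)
  have hcLv : ∀ s t, ((cL s t : L) : Ω) = ((c0 s t : Ωˣ) : Ω) := fun _ _ => rfl
  let f : (B ⧸ N0) → (B ⧸ N0) → Lˣ := fun g h => cL g.out.1 h.out.1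
  have hout : ∀ h : B, ∃ m ∈ N, ((QuotientGroup.mk h : B ⧸ N0).out).1 = h.1 * m := by
    intro h
    obtain ⟨m, hm⟩ := QuotientGroup.mk_out_eq_mul N0 h
    refine ⟨m.1.1, Subgroup.mem_subgroupOf.1 m.2, ?_⟩
    rw [hm]
    rfl
  have hf : ∀ g h : B, f (QuotientGroup.mk g) (QuotientGroup.mk h) = cL g.1 h.1 := by
    intro g h
    obtain ⟨m, hm, hm'⟩ := hout g
    obtain ⟨m', hm1, hm1'⟩ := hout h
    apply Units.ext
    apply Subtype.ext
    simp only [f]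
    rw [hm', hm1', hcLv, hcLv, hc0 _ (A.mul_mem g.2.2 (hNA hm)) _ (A.mul_mem h.2.2 (hNA hm1)),
      hc0 _ g.2.2 _ h.2.2, hc _ g.2.2 _ h.2.2 m hm m' hm1]
  have hact : ∀ (g : B ⧸ N0) (s t : GG k Ω), actU ρ g (cL s t) = cL s t := by
    intro g s t
    obtain ⟨h, rfl⟩ := QuotientGroup.mk_surjective g
    apply Units.ext
    apply Subtype.ext
    rw [actU_val, hρ, hcLv]
    exact mem_HH.1 h.2.1 _ (hcst s t)
  have hcocf : IsTwoCoc (actU ρ) f := by
    intro g h l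
    obtain ⟨g, rfl⟩ := QuotientGroup.mk_surjective g
    obtain ⟨h, rfl⟩ := QuotientGroup.mk_surjective h
    obtain ⟨l, rfl⟩ := QuotientGroup.mk_surjective l
    rw [← QuotientGroup.mk_mul, ← QuotientGroup.mk_mul, hf, hf, hf, hf, hact]
    apply Units.ext
    apply Subtype.ext
    rw [Units.val_mul, Units.val_mul, Subfield.coe_mul, Subfield.coe_mul, hcLv, hcLv, hcLv, hcLv]
    have h1 := congrArg (fun x : Ωˣ => (x : Ω)) (hcoc g.1 g.2.2 h.1 h.2.2 l.1 l.2.2)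
    simp only [Units.val_mul] at h1
    rw [← hc0 _ g.2.2 _ h.2.2, ← hc0 _ (A.mul_mem g.2.2 h.2.2) _ l.2.2,
      ← hc0 _ h.2.2 _ l.2.2, ← hc0 _ g.2.2 _ (A.mul_mem h.2.2 l.2.2)] at h1
    have h6 : ((g.1 • c0 h.1 l.1 : Ωˣ) : Ω) = ((c0 h.1 l.1 : Ωˣ) : Ω) :=
      mem_HH.1 g.2.1 _ (hcst h.1 l.1)
    rw [h6] at h1
    exact h1
  obtain ⟨β, hβ⟩ := twoGroup h2L ρ n hcard hρinj hcon f hcocf
  -- `β` as a cochain with values in `Ω^*`
  let ι : Lˣ →* Ωˣ := Units.map (L.subtype : L →* Ω)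
  have hι : ∀ x : Lˣ, ((ι x : Ωˣ) : Ω) = ((x : L) : Ω) := fun _ => rfl
  let β' : GG k Ω → Ωˣ := fun s => if hs : s ∈ B then
    ι (β (QuotientGroup.mk (⟨s, hs⟩ : B))) else 1
  have hβ' : ∀ (s : GG k Ω) (hs : s ∈ B),
      β' s = ι (β (QuotientGroup.mk (⟨s, hs⟩ : B))) := by
    intro s hs
    simp only [β']
    rw [dif_pos hs]
  obtain ⟨N', hN'1, hN'2, hN'3⟩ := exists_open_normal_le N hNo
  obtain ⟨b, hb1, hb2, hb3⟩ := kumStep h2 e B c0 hM0 β' ⟨N', hN'1, hN'2, by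
    intro s hs m hm hmH
    rw [hβ' s hs, hβ' (s * m) (B.mul_mem hs hmH)]
    congr 2
    rw [QuotientGroup.eq]
    apply Subgroup.mem_subgroupOf.2
    change (s * m)⁻¹ * s ∈ N
    have h1 : (s * m)⁻¹ * s = m⁻¹ := by group
    rw [h1]
    exact N.inv_mem (hN'3 hm)⟩ (by
    intro s hs t ht
    rw [hβ' s hs, hβ' t ht, hβ' (s * t) (B.mul_mem hs ht)]
    have h1 := hβ (QuotientGroup.mk (⟨s, hs⟩ : B)) (QuotientGroup.mk (⟨t, ht⟩ : B))
    rw [hf] at h1
    have h3 := congrArg ι h1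
    rw [map_mul, map_mul, map_inv] at h3
    have h4 : ι (cL s t) = c0 s t := by
      apply Units.ext
      rfl
    have h5 : ι (actU ρ (QuotientGroup.mk (⟨s, hs⟩ : B))
        (β (QuotientGroup.mk (⟨t, ht⟩ : B))))
        = s • ι (β (QuotientGroup.mk (⟨t, ht⟩ : B))) := by
      apply Units.ext
      rfl
    rw [h5] at h3
    exact h4.symm.trans h3)
  refine ⟨b, hb1, hb2, fun s hs t ht => ?_⟩
  rw [← hc0 s hs.2 t ht.2]
  exact hb3 s hs t ht

end Pool.Agent.SmithC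

namespace Pool.Agent.GBUH

open Pool.Agent.SmithC

variable {k Ω : Type} [Field k] [Field Ω] [Algebra (RatFunc k) Ω]

/-- Module TsenA: generalisation of `tsenU`. -/
theorem tsenA [Finite k] (h2 : (2 : k) ≠ 0) [IsSepClosure (RatFunc k) Ω] (e : ℕ)
    (A N : Subgroup (GG k Ω)) (hNA : N ≤ A) (hNo : IsOpen (N : Set (GG k Ω)))
    (hNn : ∀ g ∈ A, ∀ n ∈ N, g * n * g⁻¹ ∈ N) (r : ℕ) (hr : N.relIndex A = 2 ^ r)
    (c : GG k Ω → GG k Ω → Ωˣ) (hc : CocOn e A c)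
    (hcN : ∀ s ∈ A, ∀ t ∈ A, ∀ n ∈ N, ∀ m ∈ N, c (s * n) (t * m) = c s t) :
    SplM e (HH k Ω ⊓ A) c :=
  Pool.Agent.SmithC.tsenA h2 e A N hNo hNA
    (fun a ha n hn => by
      have h := hNn a⁻¹ (A.inv_mem ha) n hn
      rwa [inv_inv] at h) r hr c (fun s _ t _ => hc.mu s t) hcN hc.coc

end Pool.Agent.GBUH
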